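import Mathlib

/-!
# Primes in intermediate rings of a Galois extension and fixed points of Frobenius

`sum_inertiaDeg_dvd`: `C/A` Galois with finite group `G`, `B` the ring fixed by a subgroup `H`,
`p` a prime of `A` whose primes above in `C` have trivial inertia, `σ` a Frobenius element. The sum
of the residue degrees `f_w` over the primes `w` of `B` over `p` with `f_w ∣ d` is the number of
fixed points of `σ ^ d` on `G ⧸ H`.
-/

set_option autoImplicit false

namespace Pool.Agent.MP_0d9be2.H39

open Ideal MulAction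
open scoped Pointwise

section grp

variable {G : Type*} [Group G]

theorem pow_mem_iff [Finite G] (H : Subgroup G) (τ : G) (f : ℕ)
    (hf : orderOf τ = f * Nat.card ↥(H ⊓ Subgroup.zpowers τ)) (d : ℕ) : τ ^ d ∈ H ↔ f ∣ d := by
  set m := Nat.card ↥(H ⊓ Subgroup.zpowers τ) with hm
  have hm0 : 0 < m := Nat.card_pos
  constructor
  · intro h
    have h1 : τ ^ d ∈ H ⊓ Subgroup.zpowers τ := ⟨h, Subgroup.npow_mem_zpowers τ d⟩
    have h2 : (τ ^ d) ^ m = 1 := by
      have := pow_card_eq_one' (x := (⟨τ ^ d, h1⟩ : ↥(H ⊓ Subgroup.zpowers τ)))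
      exact congrArg Subtype.val this
    have h3 : orderOf τ ∣ d * m := by
      rw [orderOf_dvd_iff_pow_eq_one, pow_mul, h2]
    rw [hf] at h3
    exact Nat.dvd_of_mul_dvd_mul_right hm0 h3
  · rintro ⟨k, rfl⟩
    let Z := Subgroup.zpowers τ
    let S : Subgroup Z := H.subgroupOf Z
    have hS : Nat.card S = m := by
      rw [hm]
      exact Nat.card_congr (Subgroup.subgroupOfEquivOfLe (inf_le_right (a := H) (b := Z))).toEquiv ▸
        by rw [show S = (H ⊓ Z).subgroupOf Z by simp [S]]
    have hZ : Nat.card Z = f * m := by rw [Nat.card_zpowers, hf]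
    have hi : S.index = f := by
      have := S.card_mul_index
      rw [hS, hZ, mul_comm] at this
      exact Nat.eq_of_mul_eq_mul_right hm0 this
    have hn : S.Normal := by
      constructor
      intro n hn g
      have : g * n * g⁻¹ = n := by
        rw [mul_comm' g n]
        group
      rw [this]; exact hn
    have h4 : (⟨τ, Subgroup.mem_zpowers τ⟩ : Z) ^ S.index ∈ S := S.pow_index_mem _
    rw [hi] at h4
    have h5 : τ ^ f ∈ H := by simpa [S, Subgroup.mem_subgroupOf] using h4
    rw [pow_mul]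
    exact H.pow_mem h5 k

theorem card_fixed (H : Subgroup G) (g : G) :
    Nat.card H * Nat.card {x : G ⧸ H // g • x = x} = Nat.card {x : G // x⁻¹ * g * x ∈ H} := by
  have key : ∀ x : G, (g • (x : G ⧸ H) = (x : G ⧸ H)) ↔ x⁻¹ * g * x ∈ H := by
    intro x
    rw [eq_comm]
    change ((x : G ⧸ H) = ((g * x : G) : G ⧸ H)) ↔ _
    rw [QuotientGroup.eq, mul_assoc]
  have h := Nat.card_congr
    (QuotientGroup.preimageMkEquivSubgroupProdSet H {x : G ⧸ H | g • x = x})
  rw [Nat.card_prod] at h
  refine h.symm.trans (Nat.card_congr (Equiv.subtypeEquivRight fun x => ?_))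
  exact key x

theorem card_preimage_smul {X : Type*} [MulAction G X] (x : X) (S : Set X)
    (hS : S ⊆ orbit G x) :
    Nat.card {g : G // g • x ∈ S} = Nat.card (stabilizer G x) * Nat.card S := by
  let t : Set (G ⧸ stabilizer G x) := {q | ofQuotientStabilizer G x q ∈ S}
  have h := Nat.card_congr (QuotientGroup.preimageMkEquivSubgroupProdSet (stabilizer G x) t)
  rw [Nat.card_prod] at h
  have h1 : Nat.card {g : G // g • x ∈ S} = Nat.card (QuotientGroup.mk ⁻¹' t : Set G) :=
    Nat.card_congr (Equiv.subtypeEquivRight fun g => by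
      change _ ↔ ofQuotientStabilizer G x (g : G ⧸ stabilizer G x) ∈ S
      rw [ofQuotientStabilizer_mk])
  have h2 : Nat.card t = Nat.card S := by
    refine Nat.card_congr (Equiv.ofBijective
      (fun q : t => (⟨ofQuotientStabilizer G x q.1, q.2⟩ : S)) ⟨?_, ?_⟩)
    · intro a b hab
      have := congrArg Subtype.val hab
      exact Subtype.ext (injective_ofQuotientStabilizer G x this)
    · rintro ⟨y, hy⟩
      obtain ⟨g, hg⟩ := hS hy
      change g • x = y at hg
      refine ⟨⟨(g : G ⧸ stabilizer G x), ?_⟩, ?_⟩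
      · change ofQuotientStabilizer G x (g : G ⧸ stabilizer G x) ∈ S
        rw [ofQuotientStabilizer_mk, hg]
        exact hy
      · apply Subtype.ext
        change ofQuotientStabilizer G x (g : G ⧸ stabilizer G x) = y
        rw [ofQuotientStabilizer_mk, hg]
  rw [h1, h, h2]

end grp

section frob

variable {A C : Type*} [CommRing A] [CommRing C] [Algebra A C]
  {G : Type*} [Group G] [Finite G] [MulSemiringAction G C] [IsGaloisGroup G A C]

theorem pow_smul_sub_mem (Q : Ideal C) (σ : G) (hσ : IsArithFrobAt A σ Q) (k : ℕ) (x : C) :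
    σ ^ k • x - x ^ (Nat.card (A ⧸ Q.under A) ^ k) ∈ Q := by
  induction k with
  | zero => simp
  | succ k ih =>
    have h1 : σ • (σ ^ k • x) - (σ ^ k • x) ^ Nat.card (A ⧸ Q.under A) ∈ Q := hσ (σ ^ k • x)
    have h2 : (σ ^ k • x) ^ Nat.card (A ⧸ Q.under A) -
        (x ^ (Nat.card (A ⧸ Q.under A) ^ k)) ^ Nat.card (A ⧸ Q.under A) ∈ Q :=
      Ideal.mem_of_dvd _ (sub_dvd_pow_sub_pow _ _ _) ih
    have h3 := Q.add_mem h1 h2
    rw [pow_succ' σ k, mul_smul, pow_succ, pow_mul]
    simpa using h3

attribute [local instance] Ideal.Quotient.field in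
theorem le_orderOf (p : Ideal A) [p.IsMaximal] (Q : Ideal C) [Q.IsMaximal] [Q.LiesOver p]
    [Finite (A ⧸ p)] [Finite (C ⧸ Q)] (σ : G) (hσ : IsArithFrobAt A σ Q) :
    Q.inertiaDeg A ≤ orderOf σ := by
  classical
  have hp : Q.under A = p := (Ideal.over_def Q p).symm
  set k := orderOf σ with hk
  have hk0 : 0 < k := orderOf_pos σ
  set q := Nat.card (A ⧸ p) with hq
  have hq1 : 1 < q := Finite.one_lt_card
  have hroot : ∀ x : C ⧸ Q, x ^ (q ^ k) = x := by
    intro x
    obtain ⟨y, rfl⟩ := Ideal.Quotient.mk_surjective x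
    have h := pow_smul_sub_mem Q σ hσ k y
    rw [hp, ← hq, hk, pow_orderOf_eq_one, one_smul, ← Ideal.Quotient.eq, map_pow] at h
    exact h.symm
  have hcard : Nat.card (C ⧸ Q) = q ^ Q.inertiaDeg A := by
    rw [Ideal.inertiaDeg_eq_of_isMaximal p Q, hq]
    exact Module.natCard_eq_pow_finrank (K := A ⧸ p) (V := C ⧸ Q)
  have hle : Nat.card (C ⧸ Q) ≤ q ^ k := by
    have : Fintype (C ⧸ Q) := Fintype.ofFinite _
    have hqk : 1 < q ^ k := Nat.one_lt_pow hk0.ne' hq1
    have hne : (Polynomial.X ^ (q ^ k) - Polynomial.X : Polynomial (C ⧸ Q)) ≠ 0 :=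
      FiniteField.X_pow_card_sub_X_ne_zero _ hqk
    have hsub : (Finset.univ : Finset (C ⧸ Q)) ⊆
        (Polynomial.X ^ (q ^ k) - Polynomial.X : Polynomial (C ⧸ Q)).roots.toFinset := by
      intro x _
      rw [Multiset.mem_toFinset, Polynomial.mem_roots hne]
      simp [hroot x]
    calc Nat.card (C ⧸ Q) = (Finset.univ : Finset (C ⧸ Q)).card := by
          rw [Nat.card_eq_fintype_card, Finset.card_univ]
      _ ≤ _ := Finset.card_le_card hsub
      _ ≤ _ := Multiset.toFinset_card_le _
      _ ≤ _ := Polynomial.card_roots' _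
      _ = q ^ k := FiniteField.X_pow_card_sub_X_natDegree_eq _ hqk
  rw [hcard] at hle
  exact (Nat.pow_le_pow_iff_right hq1).1 hle

end frob

section main

variable {A B C : Type*} [CommRing A] [CommRing B] [CommRing C]
  [Algebra A B] [Algebra B C] [Algebra A C] [IsScalarTower A B C]
  [Module.Finite A B] [Module.Finite A C]
  {G : Type*} [Group G] [Finite G] [MulSemiringAction G C] [IsGaloisGroup G A C]
  (H : Subgroup G) [IsGaloisGroup H B C]

/-- The inertia group of a conjugate prime is trivial too. -/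
theorem inertia_smul_eq_bot (Q : Ideal C) (hun : Q.inertia G = ⊥) (g : G) :
    (g • Q).inertia G = ⊥ := by
  rw [eq_bot_iff]
  intro τ hτ
  have h : g⁻¹ * τ * g ∈ Q.inertia G := by
    intro x
    have h1 := hτ (g • x)
    change (τ • g • x - g • x) ∈ g • Q at h1
    change ((g⁻¹ * τ * g) • x - x) ∈ Q
    rw [Ideal.mem_pointwise_smul_iff_inv_smul_mem] at h1
    simpa [smul_sub, mul_smul] using h1
  rw [hun, Subgroup.mem_bot] at h
  rw [Subgroup.mem_bot]
  calc τ = g * (g⁻¹ * τ * g) * g⁻¹ := by group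
    _ = 1 := by rw [h]; group

theorem inertia_subgroup_card (Q : Ideal C) (hun : Q.inertia G = ⊥) :
    Nat.card (Q.inertia H) = 1 := by
  have : Q.inertia H = ⊥ := by
    rw [eq_bot_iff]
    intro τ hτ
    have h : (τ : G) ∈ Q.inertia G := fun x => hτ x
    rw [hun, Subgroup.mem_bot] at h
    rw [Subgroup.mem_bot]
    exact Subtype.ext h
  rw [this]
  simp

/-- `f_w * |H| = n * #{primes over w}`. -/
theorem inertiaDeg_mul_card (p : Ideal A) [p.IsMaximal] [Finite (A ⧸ p)] (Q : Ideal C) [Q.IsPrime]
    [Q.LiesOver p] (hun : Q.inertia G = ⊥) (w : Ideal B) [w.IsPrime] [w.LiesOver p]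
    [Finite (B ⧸ w)] [Nonempty (w.primesOver C)] :
    w.inertiaDeg A * Nat.card H = Q.inertiaDeg A * (w.primesOver C).ncard := by
  obtain ⟨⟨Q', hQ'p, hQ'w⟩⟩ := (inferInstance : Nonempty (w.primesOver C))
  have : Q'.LiesOver p := LiesOver.trans Q' w p
  have hw : w.IsMaximal := Ideal.Quotient.maximal_of_isField _ (Finite.isField_of_domain (B ⧸ w))
  obtain ⟨g, hg⟩ := exists_smul_eq_of_isGaloisGroup p Q Q' G
  have h1 : Q'.inertiaDeg A = Q.inertiaDeg A := (inertiaDeg_eq_of_isGaloisGroup p Q Q' G).symm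
  have h2 := inertiaDeg_tower (R := A) w Q'
  have : PerfectField w.ResidueField := by
    have : Finite w.ResidueField := by
      exact Finite.of_surjective (algebraMap (B ⧸ w) w.ResidueField)
        (Ideal.bijective_algebraMap_quotient_residueField w).2
    infer_instance
  have h3 := ncard_primesOver_mul_card_inertia_mul_finrank (G := H) w Q'
  have h4 : Nat.card (Q'.inertia H) = 1 := by
    apply inertia_subgroup_card H Q'
    rw [← hg]
    exact inertia_smul_eq_bot Q hun g
  rw [h4, mul_one] at h3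
  rw [← h3, ← h1, h2]
  ring

theorem perfectField_residueField (w : Ideal B) [w.IsMaximal] [Finite (B ⧸ w)] :
    PerfectField w.ResidueField := by
  have : Finite w.ResidueField :=
    Finite.of_surjective (algebraMap (B ⧸ w) w.ResidueField)
      (Ideal.bijective_algebraMap_quotient_residueField w).2
  infer_instance

/-- `f_w ∣ d` if and only if the `d`-th power of the Frobenius at `g • Q` lies in `H`. -/
theorem inertiaDeg_dvd_iff (p : Ideal A) [p.IsMaximal] [Finite (A ⧸ p)] (Q : Ideal C) [Q.IsPrime]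
    [Q.LiesOver p] [Finite (C ⧸ Q)] (hun : Q.inertia G = ⊥) (σ : G) (hσ : IsArithFrobAt A σ Q)
    (g : G) (w : Ideal B) [w.IsPrime] [w.LiesOver p]
    [Finite (B ⧸ w)] (hw : (g • Q).LiesOver w) (d : ℕ) :
    w.inertiaDeg A ∣ d ↔ g * σ ^ d * g⁻¹ ∈ H := by
  have hwm : w.IsMaximal := Ideal.Quotient.maximal_of_isField _ (Finite.isField_of_domain (B ⧸ w))
  have hQm : Q.IsMaximal := Ideal.Quotient.maximal_of_isField _ (Finite.isField_of_domain (C ⧸ Q))
  set Q' : Ideal C := g • Q with hQ'
  have hQ'p : Q'.LiesOver p := inferInstance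
  have e : C ⧸ Q ≃ C ⧸ Q' :=
    (Ideal.quotientEquiv Q Q' (MulSemiringAction.toRingEquiv G C g) (by
      rw [hQ', Ideal.pointwise_smul_def]; rfl)).toEquiv
  have hfin : Finite (C ⧸ Q') := Finite.of_equiv _ e
  have hQ'pr : Q'.IsPrime := inferInstance
  have hQ'm : Q'.IsMaximal :=
    Ideal.Quotient.maximal_of_isField _ (Finite.isField_of_domain (C ⧸ Q'))
  have hun' : Q'.inertia G = ⊥ := inertia_smul_eq_bot Q hun g
  set τ := g * σ * g⁻¹ with hτ
  have hτF : IsArithFrobAt A τ Q' := hσ.conj g
  have : PerfectField w.ResidueField := perfectField_residueField w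
  have : PerfectField p.ResidueField := perfectField_residueField p
  have h1 := le_orderOf p Q' τ hτF
  have h2 := card_stabilizer_eq_card_inertia_mul_finrank (G := G) p Q'
  rw [hun', Subgroup.card_bot, one_mul] at h2
  have h3 : Subgroup.zpowers τ ≤ stabilizer G Q' := by
    rw [Subgroup.zpowers_le]
    exact hτF.mem_stabilizer
  have h4 : Subgroup.zpowers τ = stabilizer G Q' := by
    apply Subgroup.eq_of_le_of_card_ge h3
    rw [h2, Nat.card_zpowers]
    exact h1
  have h5 : orderOf τ = Q'.inertiaDeg A := by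
    rw [← h2, ← h4, Nat.card_zpowers]
  have h6 := card_stabilizer_eq_card_inertia_mul_finrank (G := H) w Q'
  rw [inertia_subgroup_card H Q' hun', one_mul] at h6
  have h7 : Nat.card ↥(H ⊓ Subgroup.zpowers τ) = Q'.inertiaDeg B := by
    rw [← h6, h4, inf_comm]
    refine (Nat.card_congr (Subgroup.subgroupOfEquivOfLe (inf_le_right (a := stabilizer G Q')
      (b := H))).toEquiv).symm.trans (Nat.card_congr (Equiv.subtypeEquivRight fun x => ?_))
    rw [Subgroup.mem_subgroupOf, Subgroup.mem_inf]
    constructor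
    · intro hx
      exact hx.1
    · intro hx
      exact ⟨hx, x.2⟩
  have h9 : orderOf τ = w.inertiaDeg A * Nat.card ↥(H ⊓ Subgroup.zpowers τ) := by
    rw [h5, h7]
    exact inertiaDeg_tower (R := A) w Q'
  rw [← pow_mem_iff H τ _ h9 d, hτ, conj_pow]

/-- Sum of the residue degrees dividing `d` = number of fixed points of `σ ^ d` on `G ⧸ H`. -/
theorem sum_inertiaDeg_dvd (p : Ideal A) [p.IsMaximal] [Finite (A ⧸ p)] (Q : Ideal C) [Q.IsPrime]
    [Q.LiesOver p] [Finite (C ⧸ Q)] (hun : Q.inertia G = ⊥) (σ : G) (hσ : IsArithFrobAt A σ Q)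
    (hfin : (primesOver p B).Finite) (hB : ∀ w : primesOver p B, Finite (B ⧸ w.1))
    (hne : ∀ w : primesOver p B, Nonempty (w.1.primesOver C)) (d : ℕ) :
    ∑ w ∈ hfin.toFinset with w.inertiaDeg A ∣ d, w.inertiaDeg A =
      Nat.card {x : G ⧸ H // σ ^ d • x = x} := by
  classical
  have hQm : Q.IsMaximal := Ideal.Quotient.maximal_of_isField _ (Finite.isField_of_domain (C ⧸ Q))
  have : PerfectField p.ResidueField := perfectField_residueField p
  have hH0 : 0 < Nat.card H := Nat.card_pos
  apply Nat.eq_of_mul_eq_mul_left hH0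
  rw [card_fixed, Finset.mul_sum]
  have e1 : Nat.card {x : G // x⁻¹ * σ ^ d * x ∈ H} = Nat.card {g : G // g * σ ^ d * g⁻¹ ∈ H} :=
    Nat.card_congr ((Equiv.inv G).subtypeEquiv fun x => by simp)
  rw [e1]
  have hcard : Nat.card (stabilizer G Q) = Q.inertiaDeg A := by
    have h2 := card_stabilizer_eq_card_inertia_mul_finrank (G := G) p Q
    rwa [hun, Subgroup.card_bot, one_mul] at h2
  have : Fintype G := Fintype.ofFinite G
  -- split according to the prime of `B` under `g • Q`
  have hmaps : ∀ g : G, ((g • Q).under B) ∈ hfin.toFinset := by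
    intro g
    rw [Set.Finite.mem_toFinset]
    have h0 : (g • Q).LiesOver p := inferInstance
    refine ⟨inferInstance, ⟨?_⟩⟩
    rw [Ideal.under_under]
    exact h0.over
  have hcount : ∀ w ∈ hfin.toFinset,
      ((Finset.univ.filter fun g : G => (g • Q).under B = w).card : ℕ) =
        Q.inertiaDeg A * (w.primesOver C).ncard := by
    intro w hw
    rw [Set.Finite.mem_toFinset] at hw
    obtain ⟨hwp, hwl⟩ := hw
    have hsub : w.primesOver C ⊆ orbit G Q := by
      rintro Q' ⟨h1, h2⟩
      have : Q'.LiesOver p := LiesOver.trans Q' w p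
      obtain ⟨g, hg⟩ := exists_smul_eq_of_isGaloisGroup p Q Q' G
      exact ⟨g, hg⟩
    have h := card_preimage_smul (G := G) Q (w.primesOver C) hsub
    rw [hcard, Nat.card_coe_set_eq] at h
    rw [← h, Nat.card_eq_fintype_card, Fintype.card_subtype]
    congr 1
    ext g
    simp only [Finset.mem_filter, Finset.mem_univ, true_and]
    constructor
    · intro hg
      exact ⟨inferInstance, ⟨hg.symm⟩⟩
    · rintro ⟨_, h2⟩
      exact h2.over.symm
  calc ∑ w ∈ hfin.toFinset with w.inertiaDeg A ∣ d, Nat.card H * w.inertiaDeg A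
      = ∑ w ∈ hfin.toFinset with w.inertiaDeg A ∣ d,
          (Finset.univ.filter fun g : G => (g • Q).under B = w).card := by
        refine Finset.sum_congr rfl fun w hw => ?_
        rw [Finset.mem_filter] at hw
        rw [hcount w hw.1]
        have hw' := hw.1
        rw [Set.Finite.mem_toFinset] at hw'
        obtain ⟨hwp, hwl⟩ := hw'
        have := hB ⟨w, hwp, hwl⟩
        have := hne ⟨w, hwp, hwl⟩
        rw [mul_comm]
        exact inertiaDeg_mul_card H p Q hun w
    _ = (Finset.univ.filter fun g : G => g * σ ^ d * g⁻¹ ∈ H).card := by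
        rw [← Finset.card_biUnion]
        · congr 1
          ext g
          simp only [Finset.mem_biUnion, Finset.mem_filter, Finset.mem_univ, true_and,
            exists_eq_right']
          have hg := hmaps g
          have hg' := hg
          rw [Set.Finite.mem_toFinset] at hg'
          obtain ⟨hwp, hwl⟩ := hg'
          have := hB ⟨_, hwp, hwl⟩
          rw [inertiaDeg_dvd_iff H p Q hun σ hσ g ((g • Q).under B) ⟨rfl⟩ d]
          exact ⟨fun h => h.2, fun h => ⟨hg, h⟩⟩
        · intro w1 _ w2 _ hne12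
          rw [Function.onFun, Finset.disjoint_left]
          intro g h1 h2
          simp only [Finset.mem_filter, Finset.mem_univ, true_and] at h1 h2
          exact hne12 (h1.symm.trans h2)
    _ = Nat.card {g : G // g * σ ^ d * g⁻¹ ∈ H} := by
        rw [Nat.card_eq_fintype_card, Fintype.card_subtype]

end main

end Pool.Agent.MP_0d9be2.H39
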