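import Pool.Agent.Lib.MP_0d9be2_nt.Defs
import Pool.Agent.Lib.MP_0d9be2_nt.H39.Primes

/-!
# `Primes_S`
-/

set_option autoImplicit false

open scoped NumberField Pointwise
open IsDedekindDomain Ideal

namespace Pool.Agent.MP_0d9be2.H39

/-- `∑_{f ∣ d} f a(f) = 1` for all `d ≥ 1` forces `a = [f = 1]` on positive integers. -/
theorem eq_of_sum_divisors (a : ℕ → ℤ)
    (h : ∀ d : ℕ, 0 < d → ∑ f ∈ d.divisors, (f : ℤ) * a f = 1) :
    ∀ f : ℕ, 0 < f → a f = if f = 1 then 1 else 0 := by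
  intro f
  induction f using Nat.strong_induction_on with
  | _ f ih =>
    intro hf
    have h1 := h f hf
    by_cases hf1 : f = 1
    · subst hf1
      simpa using h1
    · rw [if_neg hf1]
      rw [← Nat.cons_self_properDivisors hf.ne', Finset.sum_cons] at h1
      have h2 : ∑ x ∈ f.properDivisors, (x : ℤ) * a x = 1 := by
        have hmem : 1 ∈ f.properDivisors := by
          rw [Nat.mem_properDivisors]
          exact ⟨one_dvd _, by omega⟩
        rw [Finset.sum_eq_single_of_mem 1 hmem]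
        · rw [ih 1 (by omega) one_pos]
          simp
        · intro b hb hb1
          have hb' := Nat.mem_properDivisors.1 hb
          have hb0 : 0 < b := Nat.pos_of_dvd_of_pos hb'.1 hf
          rw [ih b hb'.2 hb0, if_neg hb1, mul_zero]
      rw [h2] at h1
      have h3 : (f : ℤ) * a f = 0 := by linarith
      rcases mul_eq_zero.1 h3 with h4 | h4
      · exact absurd (by exact_mod_cast h4) hf.ne'
      · exact h4

/-- For all but finitely many primes `v` of `K` all primes of `M` over `v` have trivial inertia. -/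
theorem exists_finite_inertia (K M : Type) [Field K] [NumberField K] [Field M] [NumberField M]
    [Algebra K M] [IsGalois K M] :
    ∃ S : Set (HeightOneSpectrum (𝓞 K)), S.Finite ∧ ∀ v : HeightOneSpectrum (𝓞 K), v ∉ S →
      ∀ Q : Ideal (𝓞 M), Q.IsPrime → Q.LiesOver v.asIdeal → Q.inertia Gal(M/K) = ⊥ := by
  classical
  have hfaith : FaithfulSMul Gal(M/K) (𝓞 M) := IsGaloisGroup.faithful (𝓞 K)
  have hx : ∀ τ : Gal(M/K), ∃ x : 𝓞 M, τ ≠ 1 → τ • x ≠ x := by
    intro τ
    by_cases hτ : τ = 1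
    · exact ⟨0, fun h => absurd hτ h⟩
    · by_contra hcon
      push Not at hcon
      apply hτ
      apply FaithfulSMul.eq_of_smul_eq_smul (α := 𝓞 M)
      intro x
      rw [one_smul]
      exact (hcon x).2
  choose x hx using hx
  set δ : 𝓞 M := ∏ τ ∈ (Finset.univ : Finset Gal(M/K)).erase 1, (τ • x τ - x τ) with hδ
  have hδ0 : δ ≠ 0 := by
    rw [hδ, Finset.prod_ne_zero_iff]
    intro τ hτ
    exact sub_ne_zero.2 (hx τ (Finset.ne_of_mem_erase hτ))
  have hspan : Ideal.span {δ} ≠ 0 := by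
    rw [Ideal.zero_eq_bot, Ne, Ideal.span_singleton_eq_bot]
    exact hδ0
  have hfin := Ideal.finite_factors hspan
  refine ⟨{v | ∃ Q : HeightOneSpectrum (𝓞 M), Q.asIdeal ∣ Ideal.span {δ} ∧
    Q.asIdeal.under (𝓞 K) = v.asIdeal}, ?_, ?_⟩
  · have hf2 : (Set.image (fun Q : HeightOneSpectrum (𝓞 M) => Q.asIdeal.under (𝓞 K))
        {Q | Q.asIdeal ∣ Ideal.span {δ}}).Finite := hfin.image _
    refine Set.Finite.of_finite_image (f := fun v : HeightOneSpectrum (𝓞 K) => v.asIdeal)
      (hf2.subset ?_) (fun a _ b _ hab => HeightOneSpectrum.ext hab)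
    rintro _ ⟨v, ⟨Q, hQ, hQv⟩, rfl⟩
    exact ⟨Q, hQ, hQv⟩
  · intro v hv Q hQp hQv
    rw [eq_bot_iff]
    intro τ hτ
    rw [Subgroup.mem_bot]
    by_contra hτ1
    apply hv
    have hQ0 : Q ≠ ⊥ := Ideal.ne_bot_of_liesOver_of_ne_bot v.ne_bot Q
    refine ⟨⟨Q, hQp, hQ0⟩, ?_, hQv.over.symm⟩
    rw [Ideal.dvd_span_singleton, hδ]
    refine Ideal.mem_of_dvd _ (Finset.dvd_prod_of_mem _
      (Finset.mem_erase.2 ⟨hτ1, Finset.mem_univ τ⟩)) ?_
    exact hτ (x τ)

theorem isGaloisGroup_fixedField (K M : Type) [Field K] [NumberField K] [Field M] [NumberField M]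
    [Algebra K M] [IsGalois K M] (H : Subgroup Gal(M/K)) :
    IsGaloisGroup H (𝓞 (IntermediateField.fixedField H)) (𝓞 M) := by
  have h1 : IsGaloisGroup H (IntermediateField.fixedField H) M :=
    IsGaloisGroup.subgroup Gal(M/K) K M H
  refine ⟨⟨fun {g1 g2} h ↦ ?_⟩, ⟨fun g x y ↦ ?_⟩, ⟨fun x h ↦ ?_⟩⟩
  · have hf : FaithfulSMul Gal(M/K) (𝓞 M) := IsGaloisGroup.faithful (𝓞 K)
    apply Subtype.ext
    apply FaithfulSMul.eq_of_smul_eq_smul (α := 𝓞 M)
    intro x
    exact h x
  · apply NumberField.RingOfIntegers.ext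
    have h3 := h1.commutes.smul_comm g (x : IntermediateField.fixedField H) (y : M)
    exact h3
  · obtain ⟨b, hb⟩ := h1.isInvariant.isInvariant (x : M) (fun g => by
      have := congrArg (fun z : 𝓞 M => (z : M)) (h g)
      exact this)
    have hx : IsIntegral ℤ b := by
      have hx' : IsIntegral ℤ (x : M) := x.isIntegral_coe
      rw [← hb] at hx'
      exact (isIntegral_algebraMap_iff
        (algebraMap (IntermediateField.fixedField H) M).injective).1 hx'
    refine ⟨⟨b, hx⟩, ?_⟩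
    apply NumberField.RingOfIntegers.ext
    exact hb

/-- For a prime `v` of `K` with trivial inertia in `M` there is `σ ∈ Gal(M/K)` with
`∑_{f ∣ d} f #{w ∣ v in M^H : f_w = f} = #Fix(σ ^ d on G ⧸ H)` for all `H` and `d ≥ 1`. -/
theorem exists_frob (K M : Type) [Field K] [NumberField K] [Field M] [NumberField M]
    [Algebra K M] [IsGalois K M] (v : HeightOneSpectrum (𝓞 K))
    (hv : ∀ Q : Ideal (𝓞 M), Q.IsPrime → Q.LiesOver v.asIdeal → Q.inertia Gal(M/K) = ⊥) :
    ∃ σ : Gal(M/K), ∀ (H : Subgroup Gal(M/K)) (d : ℕ), 0 < d →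
      ∑ f ∈ d.divisors, f * Nat.card {w : HeightOneSpectrum (𝓞 (IntermediateField.fixedField H)) //
          w.asIdeal.LiesOver v.asIdeal ∧ w.asIdeal.inertiaDeg (𝓞 K) = f} =
        Nat.card {x : Gal(M/K) ⧸ H // σ ^ d • x = x} := by
  classical
  obtain ⟨⟨Q, hQp, hQv⟩⟩ := (inferInstance : Nonempty (v.asIdeal.primesOver (𝓞 M)))
  have hQ0 : Q ≠ ⊥ := Ideal.ne_bot_of_liesOver_of_ne_bot v.ne_bot Q
  have hQm : Q.IsMaximal := hQp.isMaximal hQ0
  obtain ⟨σ, hσ⟩ := IsArithFrobAt.exists_of_isInvariant (𝓞 K) Gal(M/K) Q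
  refine ⟨σ, fun H d hd => ?_⟩
  let F := IntermediateField.fixedField H
  have hG : IsGaloisGroup H F M := IsGaloisGroup.subgroup Gal(M/K) K M H
  have hfin : (primesOver v.asIdeal (𝓞 F)).Finite := Algebra.QuasiFinite.finite_primesOver _
  have hmax : ∀ w : primesOver v.asIdeal (𝓞 F), w.1.IsMaximal := by
    rintro ⟨w, hwp, hwv⟩
    exact hwp.isMaximal (Ideal.ne_bot_of_liesOver_of_ne_bot v.ne_bot w)
  have hB : ∀ w : primesOver v.asIdeal (𝓞 F), Finite (𝓞 F ⧸ w.1) := by
    intro w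
    have := hmax w
    infer_instance
  have hG' : IsGaloisGroup H (𝓞 F) (𝓞 M) := isGaloisGroup_fixedField K M H
  have key := sum_inertiaDeg_dvd (A := 𝓞 K) (B := 𝓞 F) (C := 𝓞 M) (G := Gal(M/K)) H v.asIdeal Q
    (hv Q hQp hQv) σ hσ hfin hB (fun w => inferInstance) d
  rw [← key]
  rw [← Finset.sum_fiberwise_of_maps_to (s := hfin.toFinset.filter fun w =>
    w.inertiaDeg (𝓞 K) ∣ d) (t := d.divisors) (g := fun w => w.inertiaDeg (𝓞 K))]
  · refine Finset.sum_congr rfl fun f hf => ?_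
    have hfd : f ∣ d := Nat.dvd_of_mem_divisors hf
    rw [Finset.sum_congr rfl (g := fun _ => f) (fun w hw => (Finset.mem_filter.1 hw).2),
      Finset.sum_const, smul_eq_mul, mul_comm]
    congr 1
    rw [← Nat.card_eq_finsetCard]
    refine Nat.card_congr ?_
    refine
      { toFun := fun w => ⟨w.1.asIdeal, ?_⟩
        invFun := fun w => ⟨⟨w.1, ?_, ?_⟩, ?_⟩
        left_inv := fun w => rfl
        right_inv := fun w => rfl }
    · rw [Finset.mem_filter, Finset.mem_filter, Set.Finite.mem_toFinset]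
      exact ⟨⟨⟨w.1.isPrime, w.2.1⟩, by rw [w.2.2]; exact hfd⟩, w.2.2⟩
    · have h := (Finset.mem_filter.1 w.2)
      have h2 := (Set.Finite.mem_toFinset _).1 (Finset.mem_filter.1 h.1).1
      exact h2.1
    · have h := (Finset.mem_filter.1 w.2)
      have h2 := (Set.Finite.mem_toFinset _).1 (Finset.mem_filter.1 h.1).1
      have := h2.2
      exact Ideal.ne_bot_of_liesOver_of_ne_bot v.ne_bot w.1
    · have h := (Finset.mem_filter.1 w.2)
      have h2 := (Set.Finite.mem_toFinset _).1 (Finset.mem_filter.1 h.1).1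
      exact ⟨h2.2, h.2⟩
  · intro w hw
    rw [Nat.mem_divisors]
    exact ⟨(Finset.mem_filter.1 hw).2, hd.ne'⟩

theorem primes : Primes_S := by
  intro K M _ _ _ _ _ _ T n hT
  obtain ⟨S, hS, hv⟩ := exists_finite_inertia K M
  refine ⟨S, hS, fun v hvS f => ?_⟩
  obtain ⟨σ, hσ⟩ := exists_frob K M v (hv v hvS)
  rcases Nat.eq_zero_or_pos f with rfl | hf
  · rw [if_neg (by norm_num)]
    refine Finset.sum_eq_zero fun H _ => ?_
    have : IsEmpty {w : HeightOneSpectrum (𝓞 (IntermediateField.fixedField H)) //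
        w.asIdeal.LiesOver v.asIdeal ∧ w.asIdeal.inertiaDeg (𝓞 K) = 0} := by
      constructor
      rintro ⟨w, _, h2⟩
      have := Ideal.inertiaDeg_pos w.asIdeal (𝓞 K)
      omega
    rw [Nat.card_of_isEmpty]
    simp
  · refine eq_of_sum_divisors (fun f => ∑ H ∈ T, n H *
        (Nat.card {w : HeightOneSpectrum (𝓞 (IntermediateField.fixedField H)) //
          w.asIdeal.LiesOver v.asIdeal ∧ w.asIdeal.inertiaDeg (𝓞 K) = f} : ℤ)) ?_ f hf
    intro d hd
    have h1 := hT (σ ^ d)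
    rw [← h1]
    simp_rw [Finset.mul_sum]
    rw [Finset.sum_comm]
    refine Finset.sum_congr rfl fun H _ => ?_
    rw [← hσ H d hd]
    push_cast
    rw [Finset.mul_sum]
    refine Finset.sum_congr rfl fun f _ => ?_
    ring

end Pool.Agent.MP_0d9be2.H39
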