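import Mathlib

/-!
# Artin induction for the trivial character

For a finite group `G` the function `|G|` is an integral combination of the functions
`g ↦ #Fix(g on G/C)`, `C` cyclic.
-/

set_option autoImplicit false

namespace Pool.Agent.MP_0d9be2.H39

section artin

variable (G : Type*) [Group G]

/-- The span of the permutation characters of the cyclic subgroups. -/
def CY : Submodule ℤ (G → ℤ) :=
  Submodule.span ℤ {f | ∃ H : Subgroup G, IsCyclic H ∧
    (fun g => (Nat.card {x : G ⧸ H // g • x = x} : ℤ)) = f}

variable {G}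

/-- The number of the `x` for which the conjugate of `g` generates `C`. -/
noncomputable def theta (C : Subgroup G) (g : G) : ℤ :=
  (Nat.card {x : G // Subgroup.zpowers (x⁻¹ * g * x) = C} : ℤ)

theorem card_mul_fix [Finite G] (C : Subgroup G) (g : G) :
    Nat.card C * Nat.card {x : G ⧸ C // g • x = x} = Nat.card {x : G // x⁻¹ * g * x ∈ C} := by
  classical
  let e : {x : G // x⁻¹ * g * x ∈ C} ≃ {x : G ⧸ C // g • x = x} × C :=
    { toFun := fun x => (⟨(x.1 : G ⧸ C), by
          change ((g * x.1 : G) : G ⧸ C) = (x.1 : G ⧸ C)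
          symm
          rw [QuotientGroup.eq, ← mul_assoc]
          exact x.2⟩,
        ⟨(Quotient.out (x.1 : G ⧸ C))⁻¹ * x.1, by
          rw [← QuotientGroup.eq]
          exact Quotient.out_eq _⟩)
      invFun := fun q => ⟨Quotient.out q.1.1 * q.2.1, by
          have h1 : ((g * Quotient.out q.1.1 : G) : G ⧸ C) =
              ((Quotient.out q.1.1 : G) : G ⧸ C) := by
            have h2 := q.1.2
            have h3 : ((Quotient.out q.1.1 : G) : G ⧸ C) = q.1.1 := Quotient.out_eq _
            change g • ((Quotient.out q.1.1 : G) : G ⧸ C) = _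
            rw [h3, h2]
          rw [eq_comm, QuotientGroup.eq, ← mul_assoc] at h1
          have h4 : (Quotient.out q.1.1 * q.2.1)⁻¹ * g * (Quotient.out q.1.1 * q.2.1) =
              (q.2.1)⁻¹ * ((Quotient.out q.1.1)⁻¹ * g * Quotient.out q.1.1) * q.2.1 := by group
          rw [h4]
          exact C.mul_mem (C.mul_mem (C.inv_mem q.2.2) h1) q.2.2⟩
      left_inv := fun x => by
        apply Subtype.ext
        change Quotient.out (x.1 : G ⧸ C) * ((Quotient.out (x.1 : G ⧸ C))⁻¹ * x.1) = x.1
        rw [mul_inv_cancel_left]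
      right_inv := fun q => by
        have h0 : ((Quotient.out q.1.1 * q.2.1 : G) : G ⧸ C) = q.1.1 := by
          have h3 : ((Quotient.out q.1.1 : G) : G ⧸ C) = q.1.1 := Quotient.out_eq _
          conv_rhs => rw [← h3]
          rw [eq_comm, QuotientGroup.eq, inv_mul_cancel_left]
          exact q.2.2
        apply Prod.ext
        · exact Subtype.ext h0
        · apply Subtype.ext
          change (Quotient.out ((Quotient.out q.1.1 * q.2.1 : G) : G ⧸ C))⁻¹ *
            (Quotient.out q.1.1 * q.2.1) = q.2.1
          rw [h0, inv_mul_cancel_left] }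
  rw [Nat.card_congr e, Nat.card_prod, mul_comm]

theorem card_mem_eq_sum [Finite G] (C : Subgroup G) (g : G) (S : Finset (Subgroup G))
    (hS : ∀ B : Subgroup G, B ∈ S ↔ B ≤ C) :
    (Nat.card {x : G // x⁻¹ * g * x ∈ C} : ℤ) = ∑ B ∈ S, theta B g := by
  classical
  have := Fintype.ofFinite G
  unfold theta
  simp only [Nat.card_eq_fintype_card, Fintype.card_subtype]
  rw [← Nat.cast_sum]
  congr 1
  rw [← Finset.card_biUnion]
  · congr 1
    ext x
    simp only [Finset.mem_filter, Finset.mem_univ, true_and, Finset.mem_biUnion]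
    constructor
    · intro h
      exact ⟨_, (hS _).2 ((Subgroup.zpowers_le).2 h), rfl⟩
    · rintro ⟨B, hB, hx⟩
      have h1 := (hS B).1 hB
      rw [← hx] at h1
      exact h1 (Subgroup.mem_zpowers _)
  · intro A _ B _ hAB
    rw [Function.onFun, Finset.disjoint_left]
    intro x hx hx'
    simp only [Finset.mem_filter, Finset.mem_univ, true_and] at hx hx'
    exact hAB (hx.symm.trans hx')

theorem theta_mem [Finite G] : ∀ (n : ℕ) (C : Subgroup G), Nat.card C = n → IsCyclic C →
    (fun g => theta C g) ∈ CY G := by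
  classical
  intro n
  induction n using Nat.strong_induction_on with
  | _ n ih =>
    intro C hn hC
    have := Fintype.ofFinite (Subgroup G)
    set S : Finset (Subgroup G) := Finset.univ.filter (fun B => B ≤ C) with hS
    have hS' : ∀ B : Subgroup G, B ∈ S ↔ B ≤ C := fun B => by simp [hS]
    have h1 : (fun g => theta C g) = (Nat.card C : ℤ) •
        (fun g => (Nat.card {x : G ⧸ C // g • x = x} : ℤ)) -
          ∑ B ∈ S.erase C, (fun g => theta B g) := by
      funext g
      rw [Pi.sub_apply, Pi.smul_apply, Finset.sum_apply, smul_eq_mul, ← Nat.cast_mul, card_mul_fix,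
        card_mem_eq_sum C g S hS', ← Finset.add_sum_erase S _ ((hS' C).2 le_rfl)]
      ring
    rw [h1]
    refine (CY G).sub_mem ((CY G).smul_mem _ (Submodule.subset_span ⟨C, hC, rfl⟩))
      ((CY G).sum_mem fun B hB => ?_)
    rw [Finset.mem_erase, hS'] at hB
    have hBC : B < C := lt_of_le_of_ne hB.2 hB.1
    refine ih (Nat.card B) ?_ B rfl ?_
    · rw [← hn]
      exact Set.ncard_lt_ncard (show (B : Set G) ⊂ (C : Set G) from hBC) (Set.toFinite _)
    · exact isCyclic_of_injective (Subgroup.inclusion hB.2) (Subgroup.inclusion_injective hB.2)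

/-- Artin induction for the trivial character. -/
theorem artin (G : Type*) [Group G] [Finite G] :
    ∃ (T : Finset (Subgroup G)) (n : Subgroup G → ℤ), (∀ H ∈ T, IsCyclic H) ∧
      ∀ g : G, ∑ H ∈ T, n H * (Nat.card {x : G ⧸ H // g • x = x} : ℤ) = Nat.card G := by
  classical
  have h : ∀ f ∈ CY G, ∃ (T : Finset (Subgroup G)) (n : Subgroup G → ℤ),
      (∀ H ∈ T, IsCyclic H) ∧
        ∀ g : G, ∑ H ∈ T, n H * (Nat.card {x : G ⧸ H // g • x = x} : ℤ) = f g := by
    intro f hf
    induction hf using Submodule.span_induction with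
    | mem f hf =>
      obtain ⟨H, hH, rfl⟩ := hf
      refine ⟨{H}, fun _ => 1, ?_, ?_⟩
      · intro K hK
        rw [Finset.mem_singleton] at hK
        subst hK
        exact hH
      · intro g
        simp
    | zero => exact ⟨∅, fun _ => 0, by simp, by simp⟩
    | add f f' _ _ ih ih' =>
      obtain ⟨T, n, hT, hn⟩ := ih
      obtain ⟨T', n', hT', hn'⟩ := ih'
      refine ⟨T ∪ T', fun H => (if H ∈ T then n H else 0) + (if H ∈ T' then n' H else 0), ?_, ?_⟩
      · intro H hH
        rcases Finset.mem_union.1 hH with h1 | h1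
        · exact hT H h1
        · exact hT' H h1
      · intro g
        simp only [add_mul, Finset.sum_add_distrib, ite_mul, zero_mul]
        rw [Finset.sum_ite_mem, Finset.sum_ite_mem, Finset.union_inter_cancel_left,
          Finset.union_inter_cancel_right, hn, hn']
        rfl
    | smul c f _ ih =>
      obtain ⟨T, n, hT, hn⟩ := ih
      refine ⟨T, fun H => c * n H, hT, ?_⟩
      intro g
      simp only [mul_assoc]
      rw [← Finset.mul_sum, hn]
      rfl
  have := Fintype.ofFinite (Subgroup G)
  have hmem : (fun _ : G => (Nat.card G : ℤ)) ∈ CY G := by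
    have h1 : (fun _ : G => (Nat.card G : ℤ)) =
        ∑ B ∈ Finset.univ.filter (fun B : Subgroup G => IsCyclic B), (fun g => theta B g) := by
      funext g
      rw [Finset.sum_apply]
      have h2 := card_mem_eq_sum (⊤ : Subgroup G) g Finset.univ (fun B => by simp)
      have h3 : Nat.card {x : G // x⁻¹ * g * x ∈ (⊤ : Subgroup G)} = Nat.card G := by
        refine Nat.card_congr (Equiv.subtypeUnivEquiv fun x => Subgroup.mem_top _)
      rw [h3] at h2
      rw [h2]
      symm
      refine Finset.sum_subset (Finset.subset_univ _) ?_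
      intro B _ hB
      unfold theta
      rw [Nat.cast_eq_zero, Nat.card_eq_zero]
      left
      refine ⟨fun x => hB ?_⟩
      rw [Finset.mem_filter]
      refine ⟨Finset.mem_univ _, ?_⟩
      rw [← x.2]
      infer_instance
    rw [h1]
    refine (CY G).sum_mem fun B hB => ?_
    rw [Finset.mem_filter] at hB
    exact theta_mem _ B rfl hB.2
  obtain ⟨T, n, hT, hn⟩ := h _ hmem
  exact ⟨T, n, hT, hn⟩

end artin

end Pool.Agent.MP_0d9be2.H39
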