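import Pool.Agent.Lib.MP_0d9be2_nt.H39.Torsion

/-!
# A finite Galois extension containing the `N`-torsion, roots of unity and a square root
-/

set_option autoImplicit false

open Polynomial WeierstrassCurve

namespace Pool.Agent.MP_0d9be2

open Classical in
/-- Every point of `W` over an algebraic closure of `M` which is killed by `N` has its coordinates
in `M`. -/
def FullTorsion {M : Type} [Field M] (W : WeierstrassCurve M) (N : ℕ) : Prop :=
  ∀ (x y : AlgebraicClosure M)
    (h : (W.map (algebraMap M (AlgebraicClosure M))).toAffine.Nonsingular x y),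
    N • WeierstrassCurve.Affine.Point.some x y h = 0 →
    x ∈ Set.range (algebraMap M (AlgebraicClosure M)) ∧
      y ∈ Set.range (algebraMap M (AlgebraicClosure M))

namespace H39

theorem quad_finite {Ω : Type} [Field Ω] (b c : Ω) : {y : Ω | y ^ 2 + b * y = c}.Finite := by
  by_cases h : ∃ y₀ : Ω, y₀ ^ 2 + b * y₀ = c
  · obtain ⟨y₀, h₀⟩ := h
    refine Set.Finite.subset (Set.toFinite {y₀, -b - y₀}) ?_
    intro y hy
    have hy' : y ^ 2 + b * y = c := hy
    have h1 : (y - y₀) * (y - (-b - y₀)) = 0 := by linear_combination hy' - h₀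
    rcases mul_eq_zero.mp h1 with h2 | h2
    · left
      exact sub_eq_zero.mp h2
    · right
      exact sub_eq_zero.mp h2
  · convert Set.finite_empty
    ext y
    simp only [Set.mem_ofPred_eq, Set.mem_empty_iff_false, iff_false]
    exact fun hy => h ⟨y, hy⟩

theorem exists_closure (K : Type) [Field K] [NumberField K] (E : WeierstrassCurve K) (N : ℕ)
    (hN : 0 < N) (m : ℕ) (hm : 0 < m) (d : K) (M₀ : Type) [Field M₀] [NumberField M₀]
    [Algebra K M₀] :
    ∃ (M : Type) (_ : Field M) (_ : NumberField M) (_ : Algebra K M), IsGalois K M ∧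
      Nonempty (M₀ →ₐ[K] M) ∧
      FullTorsion (E.map (algebraMap K M)) N ∧ (∃ ζ : M, IsPrimitiveRoot ζ m) ∧
      ∃ x : M, x ^ 2 = algebraMap K M d := by
  classical
  obtain ⟨Q, hQ, HQ⟩ := exists_torsion_poly E N hN
  let Kb := AlgebraicClosure K
  set S₂ : Set Kb := {y | ∃ x ∈ Q.rootSet Kb, (E.map (algebraMap K Kb)).toAffine.Equation x y}
    with hS₂
  set S₃ : Set Kb := {z | z ^ m = 1} with hS₃
  set S₄ : Set Kb := {z | z ^ 2 = algebraMap K Kb d} with hS₄
  set S : Set Kb := Q.rootSet Kb ∪ S₂ ∪ S₃ ∪ S₄ with hS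
  have f₂ : S₂.Finite := by
    have : S₂ ⊆ ⋃ x ∈ Q.rootSet Kb, {y : Kb | (E.map (algebraMap K Kb)).toAffine.Equation x y} := by
      rintro y ⟨x, hx, hy⟩
      exact Set.mem_biUnion hx hy
    refine Set.Finite.subset (Set.Finite.biUnion (Q.rootSet_finite Kb) fun x _ => ?_) this
    refine (quad_finite ((E.map (algebraMap K Kb)).a₁ * x + (E.map (algebraMap K Kb)).a₃)
      (x ^ 3 + (E.map (algebraMap K Kb)).a₂ * x ^ 2 + (E.map (algebraMap K Kb)).a₄ * x
        + (E.map (algebraMap K Kb)).a₆)).subset ?_
    intro y hy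
    have h1 := (WeierstrassCurve.Affine.equation_iff (W := E.map (algebraMap K Kb)) x y).mp hy
    rw [Set.mem_ofPred_eq, ← h1]
    ring
  have f₃ : S₃.Finite := by
    refine ((X ^ m - 1 : Kb[X]).rootSet_finite Kb).subset ?_
    intro z hz
    have hz' : z ^ m = 1 := hz
    rw [Polynomial.mem_rootSet]
    exact ⟨Polynomial.X_pow_sub_C_ne_zero hm 1, by simp [hz']⟩
  have f₄ : S₄.Finite := by
    refine (quad_finite (0 : Kb) (algebraMap K Kb d)).subset ?_
    intro z hz
    have hz' : z ^ 2 = algebraMap K Kb d := hz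
    rw [Set.mem_ofPred_eq, hz']
    ring
  have fS : S.Finite := (((Q.rootSet_finite Kb).union f₂).union f₃).union f₄
  have hfd : FiniteDimensional K (IntermediateField.adjoin K S) := by
    have := fS.to_subtype
    exact IntermediateField.finiteDimensional_adjoin fun x _ => Algebra.IsIntegral.isIntegral x
  have hfd₀ : FiniteDimensional K M₀ := Module.Finite.of_restrictScalars_finite ℚ K M₀
  let φ : M₀ →ₐ[K] Kb := IsAlgClosed.lift
  have hfdφ : FiniteDimensional K φ.fieldRange :=
    Module.Finite.of_surjective φ.rangeRestrict.toLinearMap φ.rangeRestrict_surjective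
  have hfds : FiniteDimensional K (IntermediateField.adjoin K S ⊔ φ.fieldRange :
    IntermediateField K Kb) := IntermediateField.finiteDimensional_sup _ _
  let M := IntermediateField.normalClosure K (IntermediateField.adjoin K S ⊔ φ.fieldRange :
    IntermediateField K Kb) Kb
  have hSM : ∀ z ∈ S, z ∈ M := fun z hz =>
    IntermediateField.le_normalClosure _
      ((le_sup_left : IntermediateField.adjoin K S ≤ _) (IntermediateField.subset_adjoin K S hz))
  have hφM : ∀ z : M₀, φ z ∈ M := fun z =>
    IntermediateField.le_normalClosure _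
      ((le_sup_right : φ.fieldRange ≤ IntermediateField.adjoin K S ⊔ φ.fieldRange) ⟨z, rfl⟩)
  have hfdM : FiniteDimensional K M := inferInstance
  have hnM : Normal K M := inferInstance
  have hNF : NumberField M :=
    { to_charZero := inferInstance
      to_finiteDimensional := FiniteDimensional.trans ℚ K M }
  have hsep : Algebra.IsSeparable K M := inferInstance
  have hGal : IsGalois K M := { to_isSeparable := hsep, to_normal := hnM }
  refine ⟨M, inferInstance, hNF, inferInstance, hGal, ⟨φ.codRestrict M.toSubalgebra hφM⟩,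
    ?_, ?_, ?_⟩
  · intro x y h h0
    let Ω := AlgebraicClosure M
    have hcurve : (E.map (algebraMap K M)).map (algebraMap M Ω) = E.map (algebraMap K Ω) := by
      rw [WeierstrassCurve.map_map, ← IsScalarTower.algebraMap_eq K M Ω]
    have hroot : aeval x Q = 0 := by
      revert h
      change ∀ h : (((E.map (algebraMap K M)).map (algebraMap M Ω))).toAffine.Nonsingular x y, _
      rw [hcurve]
      intro h h0
      exact HQ Ω x y h h0
    have heq : (E.map (algebraMap K Ω)).toAffine.Equation x y := by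
      rw [← hcurve]
      exact h.1
    have halg : IsAlgClosure M Kb := ⟨inferInstance, Algebra.IsAlgebraic.tower_top (K := K) M⟩
    let e : Ω ≃ₐ[M] Kb := IsAlgClosure.equiv M Ω Kb
    have hex : e x ∈ Q.rootSet Kb := by
      rw [Polynomial.mem_rootSet]
      refine ⟨hQ, ?_⟩
      have h1 : aeval ((e.restrictScalars K) x) Q = (e.restrictScalars K) (aeval x Q) :=
        aeval_algHom_apply (e.restrictScalars K) x Q
      rw [hroot, map_zero] at h1
      exact h1
    have hcurve2 : (E.map (algebraMap K Ω)).map (e : Ω →+* Kb) = E.map (algebraMap K Kb) := by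
      rw [WeierstrassCurve.map_map]
      congr 1
      ext z
      exact (e.restrictScalars K).commutes z
    have hey : e y ∈ S₂ := by
      refine ⟨e x, hex, ?_⟩
      rw [← hcurve2]
      exact heq.map (e : Ω →+* Kb)
    have hback : ∀ z : Ω, e z ∈ S → z ∈ Set.range (algebraMap M Ω) := by
      intro z hz
      refine ⟨⟨e z, hSM _ hz⟩, ?_⟩
      apply e.injective
      rw [AlgEquiv.commutes]
      rfl
    exact ⟨hback x (Or.inl (Or.inl (Or.inl hex))), hback y (Or.inl (Or.inl (Or.inr hey)))⟩
  · have hne : NeZero (m : Kb) := ⟨by exact_mod_cast hm.ne'⟩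
    obtain ⟨ζ, hζ⟩ := HasEnoughRootsOfUnity.exists_primitiveRoot Kb m
    have hmem : ζ ∈ M := hSM ζ (Or.inl (Or.inr hζ.pow_eq_one))
    refine ⟨⟨ζ, hmem⟩, ?_⟩
    exact IsPrimitiveRoot.of_map_of_injective (f := algebraMap M Kb) hζ
      (algebraMap M Kb).injective
  · obtain ⟨z, hz⟩ := IsAlgClosed.exists_pow_nat_eq (algebraMap K Kb d) (n := 2) two_pos
    have hmem : z ∈ M := hSM z (Or.inr hz)
    exact ⟨⟨z, hmem⟩, Subtype.ext hz⟩

end H39

end Pool.Agent.MP_0d9be2
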