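import Pool.Agent.Lib.MP_0d9be2_nt.H36.SolomonP

/-!
# Divisibility of degrees of fields `F` with `p`-hyper-elementary `Gal(M/F)`

If `M/F` is Galois with `p`-hyper-elementary group and `M` contains suitable roots of unity then
`n ∣ p ^ k * [F : ℚ]`.
-/

set_option autoImplicit false

open Pool.Agent.MP_0d9be2.H36

namespace Pool.Agent.MP_0d9be2.H39

/-- The order of the image of a `p`-hyper-elementary group in a finite abelian group. -/
theorem card_range_dvd {G A : Type} [Group G] [Finite G] [CommGroup A] [Finite A] (p : ℕ)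
    (hG : IsPHyper p G) (χ : G →* A) :
    ∃ k : ℕ, Nat.card χ.range ∣ Monoid.exponent A * p ^ k := by
  obtain ⟨C, hCn, hcyc, -, k, hk⟩ := hG
  refine ⟨k, ?_⟩
  -- the image of `C`
  have h1 : Nat.card (C.map χ) ∣ Monoid.exponent A := by
    obtain ⟨g, hg⟩ := hcyc.exists_zpow_surjective
    have hgen : C.map χ = Subgroup.zpowers (χ g) := by
      ext a
      rw [Subgroup.mem_map, Subgroup.mem_zpowers_iff]
      constructor
      · rintro ⟨c, hc, rfl⟩
        obtain ⟨i, hi⟩ := hg ⟨c, hc⟩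
        refine ⟨i, ?_⟩
        rw [← map_zpow]
        congr 1
        exact congrArg Subtype.val hi
      · rintro ⟨i, rfl⟩
        exact ⟨(g : G) ^ i, C.zpow_mem g.2 i, map_zpow _ _ _⟩
    rw [hgen, Nat.card_zpowers]
    exact Monoid.order_dvd_exponent _
  have h3 : C.map χ ≤ χ.range := by
    rintro _ ⟨c, _, rfl⟩
    exact ⟨c, rfl⟩
  have h2 : Nat.card χ.range = Nat.card (C.map χ) * ((C.map χ).relIndex χ.range) := by
    have h4 := Subgroup.relIndex_mul_relIndex ⊥ (C.map χ) χ.range bot_le h3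
    rw [Subgroup.relIndex_bot_left, Subgroup.relIndex_bot_left] at h4
    exact h4.symm
  have h4 : (C.map χ).relIndex χ.range ∣ p ^ k := by
    rw [← hk, MonoidHom.range_eq_map, Subgroup.relIndex_map_map, top_sup_eq,
      Subgroup.relIndex_top_right]
    exact Subgroup.index_dvd_of_le le_sup_left
  rw [h2]
  exact Nat.mul_dvd_mul h1 h4

theorem totient_dvd {F M : Type} [Field F] [NumberField F] [Field M] [NumberField M]
    [Algebra F M] [IsGalois F M] (p : ℕ) (hG : IsPHyper p Gal(M/F)) (m : ℕ) [NeZero m] (ζ : M)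
    (hζ : IsPrimitiveRoot ζ m) :
    ∃ k : ℕ, Nat.totient m ∣ Monoid.exponent (ZMod m)ˣ * p ^ k * Module.finrank ℚ F := by
  have hfin : FiniteDimensional F M := Module.Finite.of_restrictScalars_finite ℚ F M
  let χ : Gal(M/F) →* (ZMod m)ˣ := hζ.autToPow F
  obtain ⟨k, hk⟩ := card_range_dvd p hG χ
  refine ⟨k, ?_⟩
  have hχ : ∀ g : Gal(M/F), χ g = 1 ↔ g ζ = ζ := by
    intro g
    have hspec : ζ ^ (χ g : ZMod m).val = g ζ := hζ.autToPow_spec F g
    have hfo : IsOfFinOrder ζ := hζ.isOfFinOrder (NeZero.ne m)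
    have hiff : ζ ^ (χ g : ZMod m).val = ζ ^ 1 ↔ (χ g : ZMod m).val ≡ 1 [MOD m] := by
      rw [hfo.pow_eq_pow_iff_modEq, ← hζ.eq_orderOf]
    rw [← hspec, ← pow_one ζ, pow_one ζ, ← pow_one (ζ ^ (χ g : ZMod m).val), pow_one]
    nth_rewrite 2 [← pow_one ζ]
    rw [hiff, ← ZMod.natCast_eq_natCast_iff, ZMod.natCast_zmod_val, Nat.cast_one, Units.val_eq_one]
  have hker : (IntermediateField.adjoin F {ζ}).fixingSubgroup = χ.ker := by
    ext g
    rw [IntermediateField.mem_fixingSubgroup_iff, MonoidHom.mem_ker, hχ]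
    constructor
    · intro h
      exact h ζ (IntermediateField.mem_adjoin_simple_self F ζ)
    · intro h x hx
      have h1 : IntermediateField.adjoin F {ζ} ≤
          IntermediateField.fixedField (Subgroup.zpowers g) := by
        rw [IntermediateField.adjoin_le_iff, Set.singleton_subset_iff]
        rintro ⟨y, hy⟩
        obtain ⟨i, rfl⟩ := Subgroup.mem_zpowers_iff.mp hy
        have h2 : g ∈ MulAction.stabilizer Gal(M/F) ζ := h
        exact (MulAction.stabilizer Gal(M/F) ζ).zpow_mem h2 i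
      exact h1 hx ⟨g, Subgroup.mem_zpowers g⟩
  have h1 : Module.finrank F (IntermediateField.adjoin F {ζ}) = Nat.card χ.range := by
    rw [IntermediateField.finrank_eq_fixingSubgroup_index, hker, Subgroup.index_ker]
  have h2 : Module.finrank ℚ (IntermediateField.adjoin ℚ {ζ}) = Nat.totient m := by
    rw [IntermediateField.adjoin.finrank (Algebra.IsIntegral.isIntegral ζ),
      ← Polynomial.cyclotomic_eq_minpoly_rat hζ (NeZero.pos m), Polynomial.natDegree_cyclotomic]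
  have h3 : IntermediateField.adjoin ℚ {ζ} ≤
      (IntermediateField.adjoin F {ζ}).restrictScalars ℚ := by
    rw [IntermediateField.adjoin_le_iff, Set.singleton_subset_iff]
    exact IntermediateField.mem_adjoin_simple_self F ζ
  have h4 := IntermediateField.finrank_dvd_of_le_right h3
  have h5 : Module.finrank ℚ ((IntermediateField.adjoin F {ζ}).restrictScalars ℚ)
      = Module.finrank ℚ F * Module.finrank F (IntermediateField.adjoin F {ζ}) :=
    (Module.finrank_mul_finrank ℚ F (IntermediateField.adjoin F {ζ})).symm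
  rw [h2, h5, h1] at h4
  refine h4.trans ?_
  rw [mul_comm]
  exact Nat.mul_dvd_mul_right hk _

/-- Suitable roots of unity force `n ∣ p ^ k * [F : ℚ]`. -/
theorem exists_root_order (n : ℕ) (hn : 0 < n) : ∃ m : ℕ, 0 < m ∧ ∀ a : ℕ,
    Nat.totient m ∣ Monoid.exponent (ZMod m)ˣ * a → n ∣ a := by
  obtain ⟨q₁, hq₁, -, h₁⟩ := Nat.exists_prime_gt_modEq_one n hn.ne'
  obtain ⟨q₂, hq₂, hlt, h₂⟩ := Nat.exists_prime_gt_modEq_one q₁ hn.ne'
  have hne : q₁ ≠ q₂ := hlt.ne
  have hco : Nat.Coprime q₁ q₂ := (Nat.coprime_primes hq₁ hq₂).mpr hne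
  have d₁ : n ∣ q₁ - 1 := (Nat.modEq_iff_dvd' hq₁.one_le).mp h₁.symm
  have d₂ : n ∣ q₂ - 1 := (Nat.modEq_iff_dvd' hq₂.one_le).mp h₂.symm
  have p₁ : 0 < q₁ - 1 := Nat.sub_pos_of_lt hq₁.one_lt
  have p₂ : 0 < q₂ - 1 := Nat.sub_pos_of_lt hq₂.one_lt
  refine ⟨q₁ * q₂, Nat.mul_pos hq₁.pos hq₂.pos, fun a ha => ?_⟩
  have hexp : Monoid.exponent (ZMod (q₁ * q₂))ˣ ∣ Nat.lcm (q₁ - 1) (q₂ - 1) := by
    refine Monoid.exponent_dvd_of_forall_pow_eq_one fun u => ?_
    have f₁ : Fact q₁.Prime := ⟨hq₁⟩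
    have f₂ : Fact q₂.Prime := ⟨hq₂⟩
    have key : ∀ (q : ℕ) (hq : Fact q.Prime) (hd : q ∣ q₁ * q₂) (l : ℕ), q - 1 ∣ l →
        (ZMod.castHom hd (ZMod q) (u : ZMod (q₁ * q₂))) ^ l = 1 := by
      intro q hq hd l hl
      obtain ⟨c, rfl⟩ := hl
      have h5 : ZMod.castHom hd (ZMod q) (u : ZMod (q₁ * q₂)) ≠ 0 := by
        have := (Units.map (ZMod.castHom hd (ZMod q)).toMonoidHom u).ne_zero
        exact this
      rw [pow_mul, ZMod.pow_card_sub_one_eq_one h5, one_pow]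
    have hd₁ : q₁ ∣ q₁ * q₂ := Dvd.intro _ rfl
    have hd₂ : q₂ ∣ q₁ * q₂ := Dvd.intro_left _ rfl
    have e₁ := key q₁ f₁ hd₁ _ (Nat.dvd_lcm_left (q₁ - 1) (q₂ - 1))
    have e₂ := key q₂ f₂ hd₂ _ (Nat.dvd_lcm_right (q₁ - 1) (q₂ - 1))
    have c₁ : ∀ z, (ZMod.chineseRemainder hco z).1 = ZMod.castHom hd₁ (ZMod q₁) z := fun z =>
      RingHom.congr_fun (Subsingleton.elim ((RingHom.fst (ZMod q₁) (ZMod q₂)).comp
        (ZMod.chineseRemainder hco).toRingHom) (ZMod.castHom hd₁ (ZMod q₁))) z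
    have c₂ : ∀ z, (ZMod.chineseRemainder hco z).2 = ZMod.castHom hd₂ (ZMod q₂) z := fun z =>
      RingHom.congr_fun (Subsingleton.elim ((RingHom.snd (ZMod q₁) (ZMod q₂)).comp
        (ZMod.chineseRemainder hco).toRingHom) (ZMod.castHom hd₂ (ZMod q₂))) z
    apply Units.ext
    rw [Units.val_pow_eq_pow_val, Units.val_one]
    apply (ZMod.chineseRemainder hco).injective
    rw [map_one]
    refine Prod.ext ?_ ?_
    · rw [Prod.fst_one, ← e₁, ← map_pow, c₁]
    · rw [Prod.snd_one, ← e₂, ← map_pow, c₂]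
  rw [Nat.totient_mul hco, Nat.totient_prime hq₁, Nat.totient_prime hq₂] at ha
  have h6 : (q₁ - 1) * (q₂ - 1) ∣ Nat.lcm (q₁ - 1) (q₂ - 1) * a :=
    ha.trans (Nat.mul_dvd_mul_right hexp a)
  rw [← Nat.gcd_mul_lcm (q₁ - 1) (q₂ - 1), mul_comm] at h6
  have h7 := Nat.dvd_of_mul_dvd_mul_left (Nat.lcm_pos p₁ p₂) h6
  exact (Nat.dvd_gcd d₁ d₂).trans h7

end Pool.Agent.MP_0d9be2.H39
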