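import Pool.Agent.Lib.MP_0d9be2_nt.H39.SigmaC
import Pool.Agent.Lib.MP_0d9be2_nt.H39.Degree

/-!
# Divisibility of the degree in the cyclic case
-/

set_option autoImplicit false

open scoped NumberField Pointwise
open IsDedekindDomain NumberField

namespace Pool.Agent.MP_0d9be2.H39

open Pool.Agent.MP_0d9be2.H36 Pool.Agent.MP_0d9be2.H63

section

variable {K : Type} [Field K] [NumberField K]

theorem cyclic_comp (F L : IntermediateField K (AlgebraicClosure K)) [NumberField F]
    [FiniteDimensional K L] [IsGalois K L]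
    (h : IsCyclic (F.fixingSubgroup.map
      (AlgEquiv.restrictNormalHom L : Gal(AlgebraicClosure K/K) →* Gal(L/K)))) :
    IsCyclic Gal((comp F L)/F) := by
  have hclos : IsAlgClosure F (AlgebraicClosure K) :=
    ⟨inferInstance, Algebra.IsAlgebraic.tower_top (K := K) F⟩
  have hNor : Normal F (AlgebraicClosure K) := IsAlgClosure.normal F (AlgebraicClosure K)
  let f : ↥F.fixingSubgroup →* Gal(L/K) :=
    (AlgEquiv.restrictNormalHom L).comp F.fixingSubgroup.subtype
  let g : ↥F.fixingSubgroup →* Gal((comp F L)/F) :=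
    (AlgEquiv.restrictNormalHom (comp F L)).comp
      (IntermediateField.fixingSubgroupEquiv F).toMonoidHom
  refine cyclic_of_ker_le f g ?_ ?_ ?_
  · exact (AlgEquiv.restrictNormalHom_surjective (AlgebraicClosure K)).comp
      (IntermediateField.fixingSubgroupEquiv F).surjective
  · intro σ hσ
    rw [MonoidHom.mem_ker] at hσ ⊢
    have h1 : ∀ x ∈ L, σ.1 x = x := by
      intro x hx
      have h2 := AlgEquiv.restrictNormalHom_apply L σ.1 ⟨x, hx⟩
      have h3 : AlgEquiv.restrictNormalHom L σ.1 = 1 := hσ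
      rw [h3] at h2
      exact h2.symm
    have h2 : σ.1 ∈ (F ⊔ L).fixingSubgroup := by
      rw [IntermediateField.fixingSubgroup_sup]
      exact ⟨σ.2, (IntermediateField.mem_fixingSubgroup_iff L _).2 h1⟩
    ext x
    have h3 := AlgEquiv.restrictNormalHom_apply (comp F L)
      (IntermediateField.fixingSubgroupEquiv F σ) x
    have h4 : σ.1 (x : AlgebraicClosure K) = x :=
      (IntermediateField.mem_fixingSubgroup_iff _ _).1 h2 x.1 x.2
    exact h3.trans h4
  · have h1 : f.range = F.fixingSubgroup.map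
      (AlgEquiv.restrictNormalHom L : Gal(AlgebraicClosure K/K) →* Gal(L/K)) := by
      rw [MonoidHom.range_comp, Subgroup.range_subtype]
    rw [h1]
    exact h

theorem dvd_finrank (n : ℕ) (hn : 0 < n) :
    ∃ L : IntermediateField K (AlgebraicClosure K), FiniteDimensional K L ∧ IsGalois K L ∧
      ∀ (_ : FiniteDimensional K L) (_ : IsGalois K L)
        (F : IntermediateField K (AlgebraicClosure K)) (_ : NumberField F),
        IsCyclic (F.fixingSubgroup.map
          (AlgEquiv.restrictNormalHom L : Gal(AlgebraicClosure K/K) →* Gal(L/K))) →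
        n ∣ Module.finrank ℚ F := by
  obtain ⟨m, hm, hma⟩ := exists_root_order n hn
  have : NeZero m := ⟨hm.ne'⟩
  have : NeZero ((m : ℕ) : AlgebraicClosure K) := ⟨by exact_mod_cast hm.ne'⟩
  obtain ⟨ζ, hζ⟩ := HasEnoughRootsOfUnity.exists_primitiveRoot (AlgebraicClosure K) m
  obtain ⟨L, hζL, hfd, hG⟩ := exists_galois (k := K) ζ
  refine ⟨L, hfd, hG, fun _ _ F nf hF => ?_⟩
  have nfL : NumberField L := NumberField.of_module_finite K L
  have nfN : NumberField (comp F L) := numberField_comp F L
  have hGN : IsGalois F (comp F L) := isGalois_comp F L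
  have hcyc := cyclic_comp F L hF
  have hfdN : FiniteDimensional F (comp F L) := Module.Finite.of_restrictScalars_finite ℚ _ _
  let ζ' : comp F L := ⟨ζ, (le_sup_right : L ≤ F ⊔ L) hζL⟩
  have hζ' : IsPrimitiveRoot ζ' m := by
    refine IsPrimitiveRoot.of_map_of_injective (f := (comp F L).val) ?_
      (comp F L).val.injective
    exact hζ
  obtain ⟨k, hk⟩ := totient_dvd 2 (pHyper_of_cyclic Nat.prime_two hcyc) m ζ' hζ'
  obtain ⟨j, hj⟩ := totient_dvd 3 (pHyper_of_cyclic Nat.prime_three hcyc) m ζ' hζ'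
  rw [mul_assoc] at hk hj
  have h2 := hma _ hk
  have h3 := hma _ hj
  have h4 := Nat.dvd_gcd h2 h3
  rw [Nat.gcd_mul_right] at h4
  have h5 : Nat.gcd (2 ^ k) (3 ^ j) = 1 := by
    apply Nat.Coprime.pow
    norm_num
  rwa [h5, one_mul] at h4

end

end Pool.Agent.MP_0d9be2.H39
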