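import Pool.Agent.Lib.MP_0d9be2_nt.Defs3

/-!
# MP_0d9be2_nt, Theorem S, parts B1 and B2: primes with trivial stabiliser and elements with
prescribed divisors
-/

set_option autoImplicit false

open scoped NumberField Pointwise
open IsDedekindDomain Ideal

namespace Pool.Agent.MP_0d9be2.H39

theorem mem_of_mem_prod {ι R : Type} [CommRing R] (T : Finset ι) (I : ι → Ideal R) (a : R)
    (h : a ∈ ∏ x ∈ T, I x) (x : ι) (hx : x ∈ T) : a ∈ I x :=
  (Finset.inf_le hx : T.inf I ≤ I x) (Ideal.prod_le_inf h)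

section B1

variable {K1 : Type} [Field K1] [NumberField K1]

/-- `1 - m x` is not a unit for some integer `m`. -/
theorem exists_not_isUnit (x : 𝓞 K1) (hx : x ≠ 0) : ∃ m : ℕ, ¬ IsUnit (1 - (m : 𝓞 K1) * x) := by
  classical
  have hx' : ∀ σ : K1 →+* ℂ, 0 < ‖σ (x : K1)‖ := by
    intro σ
    rw [norm_pos_iff, Ne, map_eq_zero]
    exact fun h => hx (NumberField.RingOfIntegers.ext h)
  have hm : ∀ σ : K1 →+* ℂ, ∃ m : ℕ, 2 < (m : ℝ) * ‖σ (x : K1)‖ := by
    intro σ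
    obtain ⟨m, hm⟩ := exists_nat_gt (2 / ‖σ (x : K1)‖)
    exact ⟨m, by rwa [div_lt_iff₀ (hx' σ)] at hm⟩
  choose m hm using hm
  refine ⟨∑ σ : K1 →+* ℂ, m σ, fun hu => ?_⟩
  set M := ∑ σ : K1 →+* ℂ, m σ with hM
  have hbig : ∀ σ : K1 →+* ℂ, 1 < ‖σ ((1 - (M : 𝓞 K1) * x : 𝓞 K1) : K1)‖ := by
    intro σ
    have h1 : (m σ : ℝ) ≤ M := by
      exact_mod_cast Finset.single_le_sum (f := m) (fun _ _ => Nat.zero_le _) (Finset.mem_univ σ)
    have h2 : 2 < (M : ℝ) * ‖σ (x : K1)‖ :=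
      lt_of_lt_of_le (hm σ) (mul_le_mul_of_nonneg_right h1 (norm_nonneg _))
    have h3 : σ ((1 - (M : 𝓞 K1) * x : 𝓞 K1) : K1) = 1 - (M : ℂ) * σ (x : K1) := by
      simp
    rw [h3]
    have h4 : ‖(M : ℂ) * σ (x : K1)‖ = (M : ℝ) * ‖σ (x : K1)‖ := by
      rw [norm_mul, Complex.norm_natCast]
    have h5 : ‖(M : ℂ) * σ (x : K1)‖ - ‖(1 : ℂ)‖ ≤ ‖1 - (M : ℂ) * σ (x : K1)‖ := by
      rw [norm_sub_rev]
      exact norm_sub_norm_le _ _
    rw [h4, norm_one] at h5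
    linarith
  obtain ⟨u, hu⟩ := hu
  have hnorm : |Algebra.norm ℚ ((1 - (M : 𝓞 K1) * x : 𝓞 K1) : K1)| = 1 := by
    rw [← hu]
    exact NumberField.Units.norm K1 u
  have h6 : ‖((Algebra.norm ℚ ((1 - (M : 𝓞 K1) * x : 𝓞 K1) : K1) : ℚ) : ℂ)‖
      = ∏ σ : K1 →ₐ[ℚ] ℂ, ‖σ ((1 - (M : 𝓞 K1) * x : 𝓞 K1) : K1)‖ := by
    have := Algebra.norm_eq_prod_embeddings ℚ ℂ ((1 - (M : 𝓞 K1) * x : 𝓞 K1) : K1)
    rw [eq_ratCast] at this
    rw [this, norm_prod]
  have h7 : (1 : ℝ) < ∏ σ : K1 →ₐ[ℚ] ℂ, ‖σ ((1 - (M : 𝓞 K1) * x : 𝓞 K1) : K1)‖ := by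
    obtain ⟨σ₀⟩ : Nonempty (K1 →ₐ[ℚ] ℂ) := ⟨(Classical.arbitrary (K1 →+* ℂ)).toRatAlgHom⟩
    calc (1 : ℝ) = ∏ _σ : K1 →ₐ[ℚ] ℂ, (1 : ℝ) := by simp
      _ < _ := Finset.prod_lt_prod (fun _ _ => one_pos) (fun σ _ => (hbig (σ : K1 →+* ℂ)).le)
        ⟨σ₀, Finset.mem_univ _, hbig (σ₀ : K1 →+* ℂ)⟩
  rw [← h6, Complex.norm_ratCast] at h7
  have h8 : ((|Algebra.norm ℚ ((1 - (M : 𝓞 K1) * x : 𝓞 K1) : K1)| : ℚ) : ℝ) = 1 := by
    rw [hnorm]
    norm_num
  rw [Rat.cast_abs] at h8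
  exact absurd h8 h7.ne'

variable {K : Type} [Field K] [NumberField K] [Algebra K K1] [IsGalois K K1]

theorem exists_theta : ∃ θ : 𝓞 K1, θ ≠ 0 ∧ ∀ σ : Gal(K1/K), σ • θ = θ → σ = 1 := by
  classical
  have hfin : FiniteDimensional K K1 := Module.Finite.of_restrictScalars_finite ℚ K K1
  obtain ⟨t, ht⟩ := Field.exists_primitive_element K K1
  have htalg : IsAlgebraic ℤ t :=
    (IsFractionRing.isAlgebraic_iff ℤ ℚ K1).mpr (Algebra.IsAlgebraic.isAlgebraic t)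
  obtain ⟨y, hy, hint⟩ := htalg.exists_integral_multiple
  set θ : 𝓞 K1 := ⟨y • t, hint⟩ with hθ
  have hθσ : ∀ σ : Gal(K1/K), σ • θ = θ → σ = 1 := by
    intro σ hσ
    have h1 : σ (y • t) = y • t := congrArg (fun z : 𝓞 K1 => (z : K1)) hσ
    have h2 : σ t = t := by
      rw [map_zsmul] at h1
      exact smul_right_injective K1 hy h1
    have h3 : ∀ z : K1, z ∈ IntermediateField.adjoin K {t} → σ z = z := by
      intro z hz
      have h4 : IntermediateField.adjoin K {t} ≤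
          IntermediateField.fixedField (Subgroup.zpowers σ) := by
        rw [IntermediateField.adjoin_le_iff, Set.singleton_subset_iff]
        rintro ⟨g, hg⟩
        obtain ⟨i, rfl⟩ := Subgroup.mem_zpowers_iff.mp hg
        have h5 : σ ∈ MulAction.stabilizer Gal(K1/K) t := h2
        exact (MulAction.stabilizer Gal(K1/K) t).zpow_mem h5 i
      exact h4 hz ⟨σ, Subgroup.mem_zpowers σ⟩
    ext z
    exact h3 z (by rw [ht]; trivial)
  by_cases h0 : θ = 0
  · refine ⟨1, one_ne_zero, fun σ _ => hθσ σ ?_⟩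
    rw [h0, smul_zero]
  · exact ⟨θ, h0, hθσ⟩

/-- B1. There is a prime of `K1` with trivial stabiliser in `Gal(K1/K)` that does not contain a
given nonzero element of `𝓞 K1`. -/
theorem exists_free_prime (y : 𝓞 K1) (hy : y ≠ 0) :
    ∃ P : HeightOneSpectrum (𝓞 K1), y ∉ P.asIdeal ∧
      ∀ σ : Gal(K1/K), σ • P.asIdeal = P.asIdeal → σ = 1 := by
  classical
  obtain ⟨θ, hθ0, hθ⟩ := exists_theta (K := K) (K1 := K1)
  set D : 𝓞 K1 := ∏ τ ∈ (Finset.univ : Finset Gal(K1/K)).erase 1, (τ • θ - θ) with hD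
  have hD0 : D ≠ 0 := by
    rw [hD, Finset.prod_ne_zero_iff]
    intro τ hτ h
    exact Finset.ne_of_mem_erase hτ (hθ τ (sub_eq_zero.1 h))
  set c : ℕ := Ideal.absNorm (Ideal.span {y * D}) with hc
  have hc0 : c ≠ 0 := by
    rw [hc, Ne, Ideal.absNorm_eq_zero_iff, Ideal.span_singleton_eq_bot]
    exact mul_ne_zero hy hD0
  have hdvd : y * D ∣ (c : 𝓞 K1) := by
    rw [← Ideal.mem_span_singleton]
    exact Ideal.absNorm_mem _
  have hx : (c : 𝓞 K1) * θ ≠ 0 := mul_ne_zero (by exact_mod_cast hc0) hθ0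
  obtain ⟨m, hm⟩ := exists_not_isUnit ((c : 𝓞 K1) * θ) hx
  obtain ⟨P, hPmax, hPmem⟩ := exists_max_ideal_of_mem_nonunits hm
  have hP0 : P ≠ ⊥ := Ring.ne_bot_of_isMaximal_of_not_isField hPmax
    (NumberField.RingOfIntegers.not_isField K1)
  have hmc : (m : 𝓞 K1) * (c : 𝓞 K1) ∉ P := by
    intro h
    apply hPmax.ne_top
    rw [Ideal.eq_top_iff_one]
    have h1 : (m : 𝓞 K1) * ((c : 𝓞 K1) * θ) ∈ P := by
      rw [← mul_assoc]
      exact P.mul_mem_right _ h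
    have h2 := P.add_mem hPmem h1
    rwa [sub_add_cancel] at h2
  have hcP : (c : 𝓞 K1) ∉ P := fun h => hmc (P.mul_mem_left _ h)
  refine ⟨⟨P, hPmax.isPrime, hP0⟩, ?_, ?_⟩
  · intro h
    obtain ⟨z, hz⟩ := hdvd
    apply hcP
    rw [hz]
    exact P.mul_mem_right _ (P.mul_mem_right _ h)
  · intro σ hσ
    by_contra hσ1
    have h1 : σ • (1 - (m : 𝓞 K1) * ((c : 𝓞 K1) * θ)) ∈ P := by
      have := Ideal.smul_mem_pointwise_smul σ _ P hPmem
      rwa [hσ] at this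
    have hnat : ∀ a : ℕ, σ • (a : 𝓞 K1) = a := fun a =>
      map_natCast (MulSemiringAction.toRingHom Gal(K1/K) (𝓞 K1) σ) a
    rw [smul_sub, smul_one, smul_mul', smul_mul', hnat, hnat] at h1
    have h2 := P.sub_mem hPmem h1
    have h3 : (1 - (m : 𝓞 K1) * ((c : 𝓞 K1) * θ)) - (1 - (m : 𝓞 K1) * ((c : 𝓞 K1) * σ • θ))
        = ((m : 𝓞 K1) * c) * (σ • θ - θ) := by ring
    rw [h3] at h2
    rcases hPmax.isPrime.mem_or_mem h2 with h4 | h4
    · exact hmc h4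
    · obtain ⟨z, hz⟩ := hdvd
      apply hcP
      rw [hz]
      refine P.mul_mem_right _ (P.mul_mem_left _ ?_)
      exact Ideal.mem_of_dvd _ (Finset.dvd_prod_of_mem _
        (Finset.mem_erase.2 ⟨hσ1, Finset.mem_univ σ⟩)) h4

/-- Primes with trivial stabiliser which are not conjugate to each other. -/
theorem exists_free_primes (y : 𝓞 K1) (hy : y ≠ 0) (r : ℕ) :
    ∃ P : Fin r → HeightOneSpectrum (𝓞 K1), (∀ i, y ∉ (P i).asIdeal) ∧
      ∀ (i j : Fin r) (σ : Gal(K1/K)), ¬ (σ = 1 ∧ i = j) →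
        σ • (P j).asIdeal ≠ (P i).asIdeal := by
  classical
  induction r with
  | zero => exact ⟨fun i => i.elim0, fun i => i.elim0, fun i => i.elim0⟩
  | succ r ih =>
    obtain ⟨P, hP, hconj⟩ := ih
    set c : ℕ := ∏ j : Fin r, Ideal.absNorm (P j).asIdeal with hc
    have hc0 : (c : 𝓞 K1) ≠ 0 := by
      rw [hc, Nat.cast_prod, Finset.prod_ne_zero_iff]
      intro j _ h
      have h1 : Ideal.absNorm (P j).asIdeal = 0 := by exact_mod_cast h
      rw [Ideal.absNorm_eq_zero_iff] at h1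
      exact (P j).ne_bot h1
    obtain ⟨R, hR, hstab⟩ := exists_free_prime (K := K) (y * (c : 𝓞 K1)) (mul_ne_zero hy hc0)
    have hyR : y ∉ R.asIdeal := fun h => hR (R.asIdeal.mul_mem_right _ h)
    have hnew : ∀ (j : Fin r) (σ : Gal(K1/K)), σ • (P j).asIdeal ≠ R.asIdeal := by
      intro j σ h
      apply hR
      refine R.asIdeal.mul_mem_left _ ?_
      have h1 : ((Ideal.absNorm (P j).asIdeal : ℕ) : 𝓞 K1) ∈ (P j).asIdeal := Ideal.absNorm_mem _
      have h2 := Ideal.smul_mem_pointwise_smul σ _ _ h1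
      rw [h] at h2
      have h3 : σ • ((Ideal.absNorm (P j).asIdeal : ℕ) : 𝓞 K1)
          = (Ideal.absNorm (P j).asIdeal : ℕ) :=
        map_natCast (MulSemiringAction.toRingHom Gal(K1/K) (𝓞 K1) σ) _
      rw [h3] at h2
      rw [hc, Nat.cast_prod]
      exact Ideal.mem_of_dvd _ (Finset.dvd_prod_of_mem _ (Finset.mem_univ j)) h2
    refine ⟨Fin.snoc P R, ?_, ?_⟩
    · intro i
      refine Fin.lastCases ?_ (fun i => ?_) i
      · rw [Fin.snoc_last]
        exact hyR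
      · rw [Fin.snoc_castSucc]
        exact hP i
    · intro i j σ
      refine Fin.lastCases ?_ (fun i => ?_) i
      · refine Fin.lastCases ?_ (fun j => ?_) j
        · intro h1 h2
          rw [Fin.snoc_last] at h2
          exact h1 ⟨hstab σ h2, rfl⟩
        · intro _
          rw [Fin.snoc_last, Fin.snoc_castSucc]
          exact hnew j σ
      · refine Fin.lastCases ?_ (fun j => ?_) j
        · intro _ h
          rw [Fin.snoc_last, Fin.snoc_castSucc] at h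
          apply hnew i σ⁻¹
          rw [← h, inv_smul_smul]
        · intro h1
          rw [Fin.snoc_castSucc, Fin.snoc_castSucc]
          refine hconj i j σ fun h2 => h1 ⟨h2.1, by rw [h2.2]⟩

end B1

/-- B1 and B2. -/
theorem elements : Elements_S := by
  classical
  intro K K1 _ _ _ _ _ _ l hl r
  have hl0 : (l : 𝓞 K1) ≠ 0 := by exact_mod_cast hl.ne_zero
  obtain ⟨P, hP, hconj⟩ := exists_free_primes (K := K) (l : 𝓞 K1) hl0 r
  have hα : ∀ i : Fin r, ∃ α : 𝓞 K1, (α ∈ (P i).asIdeal ∧ α ∉ (P i).asIdeal ^ 2) ∧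
      (∀ (j : Fin r) (σ : Gal(K1/K)), ¬ (σ = 1 ∧ i = j) → α - 1 ∈ σ • (P j).asIdeal) ∧
      ∃ d : 𝓞 K1, α = 1 + (l : 𝓞 K1) ^ (l + 1) * d := by
    intro i
    have hPi : (P i).asIdeal.IsMaximal := (P i).isMaximal
    set T : Finset (Gal(K1/K) × Fin r) := Finset.univ.filter fun x => ¬ (x.1 = 1 ∧ i = x.2) with hT
    set J₁ : Ideal (𝓞 K1) := ∏ x ∈ T, x.1 • (P x.2).asIdeal with hJ₁
    set J : Ideal (𝓞 K1) := J₁ * Ideal.span {(l : 𝓞 K1) ^ (l + 1)} with hJ
    have hcop : IsCoprime ((P i).asIdeal ^ 2) J := by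
      refine IsCoprime.pow_left (IsCoprime.mul_right (IsCoprime.prod_right ?_) ?_)
      · rintro ⟨σ, j⟩ hx
        have hne : σ • (P j).asIdeal ≠ (P i).asIdeal := hconj i j σ (Finset.mem_filter.mp hx).2
        have hpr : (σ • (P j).asIdeal).IsPrime := inferInstance
        have hb : σ • (P j).asIdeal ≠ ⊥ := by
          intro h
          apply (P j).ne_bot
          rw [← inv_smul_smul σ (P j).asIdeal, h]
          exact smul_zero (A := Ideal (𝓞 K1)) σ⁻¹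
        have hmax : (σ • (P j).asIdeal).IsMaximal := hpr.isMaximal hb
        rw [Ideal.isCoprime_iff_sup_eq]
        exact Ideal.IsMaximal.coprime_of_ne hPi hmax hne.symm
      · rw [Ideal.isCoprime_iff_sup_eq]
        have hlt : (P i).asIdeal < (P i).asIdeal ⊔ Ideal.span {(l : 𝓞 K1) ^ (l + 1)} := by
          refine lt_of_le_of_ne le_sup_left fun h => ?_
          have h1 : (l : 𝓞 K1) ^ (l + 1) ∈ (P i).asIdeal := by
            rw [h]
            exact (le_sup_right : Ideal.span {(l : 𝓞 K1) ^ (l + 1)} ≤ _)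
              (Ideal.mem_span_singleton_self _)
          exact hP i ((P i).isPrime.mem_of_pow_mem _ h1)
        exact hPi.1.2 _ hlt
    rw [Ideal.isCoprime_iff_exists] at hcop
    obtain ⟨b, hb, a, ha, hab⟩ := hcop
    have ha' : a ∈ J₁ ∧ a ∈ Ideal.span {(l : 𝓞 K1) ^ (l + 1)} := by
      rw [hJ] at ha
      exact Ideal.mul_le_inf ha
    clear_value J
    obtain ⟨π, hπ, hπ2⟩ : ∃ π, π ∈ (P i).asIdeal ∧ π ∉ (P i).asIdeal ^ 2 := by
      have hlt : (P i).asIdeal ^ 2 < (P i).asIdeal :=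
        Ideal.pow_right_strictAnti (P i).asIdeal (P i).ne_bot hPi.ne_top (by norm_num : 1 < 2)
          |>.trans_eq (pow_one _)
      obtain ⟨π, h1, h2⟩ := Set.exists_of_ssubset hlt
      exact ⟨π, h1, h2⟩
    have hle : (P i).asIdeal ^ 2 ≤ (P i).asIdeal := Ideal.pow_le_self two_ne_zero
    have hα1 : π * a + b - 1 = (π - 1) * a := by linear_combination hab
    refine ⟨π * a + b, ⟨?_, ?_⟩, ?_, ?_⟩
    · exact (P i).asIdeal.add_mem ((P i).asIdeal.mul_mem_right _ hπ) (hle hb)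
    · intro h
      apply hπ2
      have h1 : π = (π * a + b) - b + π * b := by linear_combination (-π) * hab
      rw [h1]
      exact ((P i).asIdeal ^ 2).add_mem (((P i).asIdeal ^ 2).sub_mem h hb)
        (((P i).asIdeal ^ 2).mul_mem_left _ hb)
    · intro j σ h
      rw [hα1]
      refine Ideal.mul_mem_left _ _ ?_
      have hmemT : (σ, j) ∈ T := by
        rw [hT, Finset.mem_filter]
        exact ⟨Finset.mem_univ _, h⟩
      have h2 : a ∈ J₁ := ha'.1
      rw [hJ₁] at h2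
      exact mem_of_mem_prod T (fun x : Gal(K1/K) × Fin r => x.1 • (P x.2).asIdeal) a h2 (σ, j)
        hmemT
    · obtain ⟨d, hd⟩ := Ideal.mem_span_singleton.mp ha'.2
      refine ⟨(π - 1) * d, ?_⟩
      have h2 : π * a + b = 1 + (π - 1) * a := by linear_combination hab
      rw [h2, hd]
      ring
  choose α hα1 hα2 hα3 using hα
  refine ⟨P, α, hP, hα1, ?_, hα3⟩
  intro i j σ h hmem
  have h1 := hα2 j i σ⁻¹ fun h2 => h ⟨inv_eq_one.mp h2.1, h2.2.symm⟩
  have h2 := Ideal.smul_mem_pointwise_smul σ _ _ h1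
  rw [smul_inv_smul, smul_sub, smul_one] at h2
  apply (P i).isPrime.ne_top
  rw [Ideal.eq_top_iff_one]
  have h3 := (P i).asIdeal.sub_mem hmem h2
  rwa [sub_sub_cancel] at h3

end Pool.Agent.MP_0d9be2.H39
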