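import Pool.Agent.Lib.MP_0d9be2_nt.H39.PlacesC
import Pool.Agent.Lib.MP_0d9be2_nt.H39.DegC
import Pool.Agent.Lib.MP_0d9be2_nt.H63.All

/-!
# Cyclic towers: the theorem
-/

set_option autoImplicit false

open scoped NumberField Pointwise ComplexConjugate
open IsDedekindDomain NumberField

namespace Pool.Agent.MP_0d9be2.H39

open Pool.Agent.MP_0d9be2.H63

section

variable {K : Type} [Field K] [NumberField K]

/-- The prime `w` of `F` lies over the place of `F₁` below the absolute value `v₀`. -/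
def Below (v₀ : AbsoluteValue (AlgebraicClosure K) ℝ)
    (F₁ F : IntermediateField K (AlgebraicClosure K)) (w : HeightOneSpectrum (𝓞 F)) : Prop :=
  ∀ (x : 𝓞 F₁) (y : 𝓞 F), ((y : F) : AlgebraicClosure K) = (x : F₁) →
    (y ∈ w.asIdeal ↔ v₀ ((x : F₁) : AlgebraicClosure K) < 1)

/-- The infinite place `w` of `F` lies over the place of `F₁` below the absolute value `v₀`. -/
def BelowInf (v₀ : AbsoluteValue (AlgebraicClosure K) ℝ)
    (F₁ F : IntermediateField K (AlgebraicClosure K)) (w : InfinitePlace F) : Prop :=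
  ∀ (x : F₁) (y : F), (y : AlgebraicClosure K) = x → (w y < 1 ↔ v₀ (x : AlgebraicClosure K) < 1)

theorem le_of_le_iSup (G : ℕ → IntermediateField K (AlgebraicClosure K)) (hG : Monotone G)
    (F : IntermediateField K (AlgebraicClosure K)) [FiniteDimensional K F]
    (hF : F ≤ ⨆ n, G n) : ∃ n, F ≤ G n := by
  obtain ⟨θ, hθ⟩ := Field.exists_primitive_element K F
  have hθc : (θ : AlgebraicClosure K) ∈ (⨆ n, G n : IntermediateField K (AlgebraicClosure K)) :=
    hF θ.2
  rw [← SetLike.mem_coe, IntermediateField.coe_iSup_of_directed hG.directed_le,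
    Set.mem_iUnion] at hθc
  obtain ⟨n, hn⟩ := hθc
  refine ⟨n, fun x hx => ?_⟩
  have h1 : (⟨x, hx⟩ : F) ∈ IntermediateField.adjoin K {θ} := by
    rw [hθ]
    trivial
  have h2 : IntermediateField.adjoin K {θ} ≤ (G n).comap F.val := by
    rw [IntermediateField.adjoin_le_iff]
    rintro _ rfl
    exact hn
  exact h2 h1

/-- The tower with cyclic groups. -/
theorem towerC (E : WeierstrassCurve K) [E.IsElliptic] (hbad : Bad posSet E)
    (M : ℕ → IntermediateField K (AlgebraicClosure K)) (hMmono : Monotone M)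
    (hMfin : ∀ n, FiniteDimensional K (M n)) (hMgal : ∀ n, IsGalois K (M n))
    (hMex : ∀ x, ∃ n, x ∈ M n) :
    ∃ Y : IntermediateField K (AlgebraicClosure K), PB E Y ∧
      (∀ n, IsCyclic (Y.fixingSubgroup.map
        (AlgEquiv.restrictNormalHom (M n) : Gal(AlgebraicClosure K/K) →* Gal(M n/K)))) ∧
      ∀ (L : IntermediateField K (AlgebraicClosure K)) (_ : FiniteDimensional K L)
        (_ : IsGalois K L) (m : ℕ), ∃ F : IntermediateField K (AlgebraicClosure K),
        FiniteDimensional K F ∧ F ≤ Y ∧ ∀ _ : NumberField F,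
          (∀ v : HeightOneSpectrum (𝓞 K), m * badDeg K L F v ≤ Module.finrank K F) ∧
          (∀ v : InfinitePlace K, m * badInf K L F v ≤ Module.finrank K F) := by
  obtain ⟨G, hG0, hGmono, hGbad, hGR⟩ := exists_tower (K := K) (BadAt posSet E)
    (fun n _ F' => IsCyclic (F'.fixingSubgroup.map
        (AlgEquiv.restrictNormalHom (M n) : Gal(AlgebraicClosure K/K) →* Gal(M n/K))) ∧
      ∀ _ : NumberField F',
        (∀ v : HeightOneSpectrum (𝓞 K), n * badDeg K (M n) F' v ≤ Module.finrank K F') ∧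
        (∀ v : InfinitePlace K, n * badInf K (M n) F' v ≤ Module.finrank K F'))
    (fun n F hF => stepC primes curves_S H7.minimal split_S H15.shareTower H15.shareIso E F (M n)
      hF n) ⊥ (badAt_bot hbad)
  have nf : ∀ n, NumberField (G n) := fun n => (hGbad n).choose
  refine ⟨⨆ n, G n, ?_, ?_, ?_⟩
  · intro F hF hFY
    obtain ⟨n, hn⟩ := le_of_le_iSup G hGmono F hFY
    exact ⟨G n, hn, le_iSup G n, hGbad n⟩
  · intro n
    exact cyclic_of_le (Subgroup.map_mono (IntermediateField.fixingSubgroup_le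
      (le_iSup G (n + 1)))) (hGR n).1
  · intro L hL hLG m
    obtain ⟨n₁, hn₁⟩ := le_of_exhaust M hMmono hMex L
    set n := max n₁ m with hn
    have hLM : L ≤ M n := hn₁ n (le_max_left _ _)
    have hmn : m ≤ n := le_max_right _ _
    have nfG := nf (n + 1)
    refine ⟨G (n + 1), Module.Finite.of_restrictScalars_finite ℚ K (G (n + 1)),
      le_iSup G (n + 1), fun nfG' => ?_⟩
    obtain ⟨h3, h4⟩ := (hGR n).2 nfG'
    have nfL : NumberField L := NumberField.of_module_finite K L
    have nfM : NumberField (M n) := NumberField.of_module_finite K (M n)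
    let _ : Algebra L (M n) := (IntermediateField.inclusion hLM).toRingHom.toAlgebra
    have tow : IsScalarTower K L (M n) := IsScalarTower.of_algebraMap_eq fun x => rfl
    obtain ⟨h5, h6⟩ := H15.shareMono K L (M n) (G (n + 1))
    exact ⟨fun v => (Nat.mul_le_mul hmn (h5 v)).trans (h3 v),
      fun v => (Nat.mul_le_mul hmn (h6 v)).trans (h4 v)⟩

/-- Primes: the exceptional primes lie over the place below `v₀`. -/
theorem loc_tower (σ : Gal(AlgebraicClosure K/K)) (v₀ : AbsoluteValue (AlgebraicClosure K) ℝ)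
    (hv₀ : ∀ w : AbsoluteValue (AlgebraicClosure K) ℝ, w.IsNontrivial → ¬ v₀.IsEquiv w →
      ∀ τ : Gal(AlgebraicClosure K/K), (∀ x, σ x = x → τ x = x) → (∀ x, w (τ x) = w x) → τ = 1)
    (T : ℕ → IntermediateField K (AlgebraicClosure K)) (hT : Monotone T)
    (hTσ : ∀ x, σ x = x → ∃ n, x ∈ T n)
    (F₁ : IntermediateField K (AlgebraicClosure K)) [FiniteDimensional K F₁]
    (M : IntermediateField K (AlgebraicClosure K)) [FiniteDimensional K M]
    (v : HeightOneSpectrum (𝓞 K)) :
    ∃ n₀ : ℕ, ∀ n, n₀ ≤ n → ∀ P : Ideal (𝓞 (AlgebraicClosure K)), P.IsPrime →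
      P.LiesOver v.asIdeal → (∀ x : 𝓞 (AlgebraicClosure K), (x : AlgebraicClosure K) ∈ F₁ →
        (x ∈ P ↔ v₀ (x : AlgebraicClosure K) < 1)) ∨ Loc (T n) M P := by
  obtain ⟨n₀, hn₀⟩ := loc_large T hT (fun P => ¬ ∀ x : 𝓞 (AlgebraicClosure K),
      (x : AlgebraicClosure K) ∈ F₁ → (x ∈ P ↔ v₀ (x : AlgebraicClosure K) < 1)) (by
    intro P₀
    refine isClosed_of_left F₁.fixingSubgroup (IntermediateField.fixingSubgroup_isOpen F₁) _ ?_
    intro a ha g hg hcon
    apply hg
    intro x hx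
    rw [← hcon x hx, mul_smul, Ideal.mem_pointwise_smul_iff_inv_smul_mem (a := a),
      mem_fixing_smul F₁ a⁻¹ (inv_mem ha) x hx]) (by
    intro P hP hPne hC τ hτ hτP
    obtain ⟨w, hw, w1, w2, w3⟩ := H7.bridge K P hP hPne
    refine hv₀ w hw ?_ τ ?_ (v_of_stab P w hw w1 w2 w3 τ hτP)
    · intro heq
      apply hC
      intro x _
      rw [heq.lt_one_iff]
      constructor
      · exact w1 x
      · intro h
        by_contra hx
        rw [w2 x hx] at h
        exact lt_irrefl _ h
    · intro x hx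
      obtain ⟨n, hn⟩ := hTσ x hx
      exact (IntermediateField.mem_fixingSubgroup_iff _ _).1 (hτ n) x hn) M v
  refine ⟨n₀, fun n hn P hP hPv => ?_⟩
  by_cases hC : ∀ x : 𝓞 (AlgebraicClosure K),
      (x : AlgebraicClosure K) ∈ F₁ → (x ∈ P ↔ v₀ (x : AlgebraicClosure K) < 1)
  · exact Or.inl hC
  · exact Or.inr (hn₀ n hn P hP hPv hC)

/-- Infinite places: the real places lie over the place below `v₀`. -/
theorem inf_tower (σ : Gal(AlgebraicClosure K/K)) (v₀ : AbsoluteValue (AlgebraicClosure K) ℝ)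
    (hv₀ : ∀ w : AbsoluteValue (AlgebraicClosure K) ℝ, w.IsNontrivial → ¬ v₀.IsEquiv w →
      ∀ τ : Gal(AlgebraicClosure K/K), (∀ x, σ x = x → τ x = x) → (∀ x, w (τ x) = w x) → τ = 1)
    (T : ℕ → IntermediateField K (AlgebraicClosure K)) (hT : Monotone T)
    (hTσ : ∀ x, σ x = x → ∃ n, x ∈ T n)
    (F₁ : IntermediateField K (AlgebraicClosure K)) [FiniteDimensional K F₁] :
    ∃ n₀ : ℕ, ∀ n, n₀ ≤ n → ∀ F : IntermediateField K (AlgebraicClosure K), T n ≤ F →
      ∀ w : InfinitePlace F, w.IsReal → BelowInf v₀ F₁ F w := by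
  obtain ⟨n₀, hn₀⟩ := locInf_large T hT (fun ψ => ¬ ∀ x ∈ F₁,
      (‖ψ x‖ < 1 ↔ v₀ (x : AlgebraicClosure K) < 1)) (by
    intro ψ
    refine isClosed_of_right F₁.fixingSubgroup (IntermediateField.fixingSubgroup_isOpen F₁) _ ?_
    intro a ha g hg hcon
    apply hg
    intro x hx
    rw [← hcon x hx]
    have h1 : a x = x := (IntermediateField.mem_fixingSubgroup_iff _ _).1 ha x hx
    change ‖ψ (g x)‖ < 1 ↔ ‖ψ ((g * a) x)‖ < 1
    rw [AlgEquiv.mul_apply, h1]) (by
    intro ψ hC c hc hcψ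
    have h1 : c = 1 := by
      refine hv₀ (absEmb ψ) (absEmb_nontrivial ψ) ?_ c ?_ ?_
      · intro heq
        apply hC
        intro x _
        rw [heq.lt_one_iff]
        exact Iff.rfl
      · intro x hx
        obtain ⟨n, hn⟩ := hTσ x hx
        exact (IntermediateField.mem_fixingSubgroup_iff _ _).1 (hc n) x hn
      · intro x
        rw [absEmb_apply, absEmb_apply, hcψ, RCLike.norm_conj]
    obtain ⟨i, hi⟩ := IsAlgClosed.exists_pow_nat_eq (-1 : AlgebraicClosure K) (n := 2) two_pos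
    have h3 : conj (ψ i) = ψ i := by
      rw [← hcψ, h1]
      rfl
    have h4 : ψ i ^ 2 = -1 := by rw [← map_pow, hi, map_neg, map_one]
    obtain ⟨r, hr⟩ := Complex.conj_eq_iff_real.1 h3
    rw [hr] at h4
    have h5 : r ^ 2 = -1 := by exact_mod_cast h4
    nlinarith [sq_nonneg r])
  refine ⟨n₀, fun n hn F hF w hw x y hyx => ?_⟩
  -- extension of the real embedding
  obtain ⟨ψ, hψ⟩ : ∃ ψ : AlgebraicClosure K →+* ℂ, ∀ x : F, ψ x = w.embedding x := by
    let _ : Algebra F ℂ := w.embedding.toAlgebra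
    have halg : Algebra.IsAlgebraic F (AlgebraicClosure K) :=
      Algebra.IsAlgebraic.tower_top (K := K) F
    let ψ : AlgebraicClosure K →ₐ[F] ℂ := IsAlgClosed.lift
    exact ⟨ψ.toRingHom, fun x => ψ.commutes x⟩
  have hreal : ∀ x ∈ F, conj (ψ x) = ψ x := by
    intro x hx
    have h1 : ComplexEmbedding.IsReal w.embedding := InfinitePlace.isReal_iff.1 hw
    have h2 := congrArg (fun f : F →+* ℂ => f ⟨x, hx⟩) h1
    have h3 := hψ ⟨x, hx⟩
    rw [h3]
    exact h2
  by_cases hC : ∀ x ∈ F₁, (‖ψ x‖ < 1 ↔ v₀ (x : AlgebraicClosure K) < 1)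
  · have h1 := hC x x.2
    rw [← h1, ← hyx, hψ, InfinitePlace.norm_embedding_eq]
  · obtain ⟨z, hz, hne⟩ := hn₀ n hn ψ hC
    exact (hne (hreal z (hF hz))).elim

omit [NumberField K] in
/-- The Galois group of `F L / F` is generated by `σ`. -/
theorem map_eq_zpowers (σ : Gal(AlgebraicClosure K/K))
    (F L : IntermediateField K (AlgebraicClosure K)) [FiniteDimensional K L] [Normal K L]
    (hL : ∀ x ∈ L, σ x = x → x ∈ F) (hFσ : ∀ x ∈ F, σ x = x) :
    F.fixingSubgroup.map
      (AlgEquiv.restrictNormalHom L : Gal(AlgebraicClosure K/K) →* Gal(L/K)) =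
        Subgroup.zpowers (AlgEquiv.restrictNormalHom L σ) := by
  apply le_antisymm
  · rintro _ ⟨ρ, hρ, rfl⟩
    rw [← IntermediateField.fixingSubgroup_fixedField (Subgroup.zpowers
        ((AlgEquiv.restrictNormalHom L : Gal(AlgebraicClosure K/K) →* Gal(L/K)) σ)),
      IntermediateField.mem_fixingSubgroup_iff]
    intro x hx
    rw [IntermediateField.mem_fixedField_iff] at hx
    have h1 := hx _ (Subgroup.mem_zpowers _)
    have h2 : σ (x : AlgebraicClosure K) = x := by
      rw [← AlgEquiv.restrictNormalHom_apply L σ x, h1]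
    apply Subtype.ext
    rw [AlgEquiv.restrictNormalHom_apply]
    exact (IntermediateField.mem_fixingSubgroup_iff _ _).1 hρ _ (hL x x.2 h2)
  · rw [Subgroup.zpowers_le]
    exact ⟨σ, (IntermediateField.mem_fixingSubgroup_iff _ _).2 hFσ, rfl⟩

/-- The theorem. -/
theorem cyclicMain (E : WeierstrassCurve K) [E.IsElliptic]
    (hbad : ∀ k : ℕ, 0 < k → ¬ PowerContinues E k) :
    ∃ (σ : Gal(AlgebraicClosure K/K)) (v₀ : AbsoluteValue (AlgebraicClosure K) ℝ),
      (∀ x, v₀ (σ x) = v₀ x) ∧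
      (∀ w : AbsoluteValue (AlgebraicClosure K) ℝ, w.IsNontrivial → ¬ v₀.IsEquiv w →
        ∀ τ : Gal(AlgebraicClosure K/K), (∀ x, σ x = x → τ x = x) → (∀ x, w (τ x) = w x) →
          τ = 1) ∧
      (∀ F : IntermediateField K (AlgebraicClosure K), FiniteDimensional K F →
        (∀ x ∈ F, σ x = x) → ∃ (F' : IntermediateField K (AlgebraicClosure K))
          (_ : NumberField F'), F ≤ F' ∧ (∀ x ∈ F', σ x = x) ∧
            ∀ k : ℕ, 0 < k → ¬ PowerContinues (E.map (algebraMap K F')) k) ∧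
      (∀ τ : Gal(AlgebraicClosure K/K), (∀ x, σ x = x → τ x = x) → (∃ x, τ x = x ∧ σ x ≠ x) →
        ∃ F₁ : IntermediateField K (AlgebraicClosure K), FiniteDimensional K F₁ ∧
          (∀ x ∈ F₁, τ x = x) ∧ ∀ (F : IntermediateField K (AlgebraicClosure K))
            (_ : NumberField F), F₁ ≤ F → (∀ x ∈ F, τ x = x) →
              ∃ k : ℕ, 0 < k ∧ PowerContinues (E.map (algebraMap K F)) k) ∧
      ∀ (M : IntermediateField K (AlgebraicClosure K)) (_ : FiniteDimensional K M)
        (_ : IsGalois K M) (m : ℕ) (v : HeightOneSpectrum (𝓞 K))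
        (F₁ : IntermediateField K (AlgebraicClosure K)), FiniteDimensional K F₁ →
        (∀ x ∈ F₁, σ x = x) → ∃ F₀ : IntermediateField K (AlgebraicClosure K),
          FiniteDimensional K F₀ ∧ (∀ x ∈ F₀, σ x = x) ∧
          ∀ (F : IntermediateField K (AlgebraicClosure K)) (_ : NumberField F), F₀ ≤ F →
            (∀ x ∈ F, σ x = x) →
            F.fixingSubgroup.map
              (AlgEquiv.restrictNormalHom M : Gal(AlgebraicClosure K/K) →* Gal(M/K)) =
                Subgroup.zpowers (AlgEquiv.restrictNormalHom M σ) ∧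
            (0 < m → m ∣ Module.finrank ℚ F) ∧
            (∀ u : HeightOneSpectrum (𝓞 K), m * badDeg K M F u ≤ Module.finrank K F) ∧
            (∀ u : InfinitePlace K, m * badInf K M F u ≤ Module.finrank K F) ∧
            (∀ w : HeightOneSpectrum (𝓞 F), w.asIdeal.LiesOver v.asIdeal →
              ¬ SplitsAt K M F w → Below v₀ F₁ F w) ∧
            (∀ w : HeightOneSpectrum (𝓞 F),
              ¬ H29.SemistableAt (E.map (algebraMap K F)) w → Below v₀ F₁ F w) ∧
            (∀ w : InfinitePlace F, w.IsReal → BelowInf v₀ F₁ F w) := by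
  classical
  obtain ⟨M, hM0, hMmono, hMfin, hMgal, hMex⟩ :=
    exists_exhaustion K (⊥ : IntermediateField K (AlgebraicClosure K))
  have := hMfin
  have := hMgal
  obtain ⟨Y, hYB, hYc, hYs⟩ := towerC E (fun k hk => hbad k hk) M hMmono hMfin hMgal hMex
  obtain ⟨X, hYX, hXB, hXmax⟩ := exists_max E Y hYB
  have hXc : ∀ n, IsCyclic (X.fixingSubgroup.map
      (AlgEquiv.restrictNormalHom (M n) : Gal(AlgebraicClosure K/K) →* Gal(M n/K))) := fun n =>
    cyclic_of_le (Subgroup.map_mono (IntermediateField.fixingSubgroup_le hYX)) (hYc n)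
  obtain ⟨σ, hσ⟩ := exists_sigma M hMmono hMex hMfin hMgal X hXc
  obtain ⟨v₀, hv₀σ, hv₀⟩ := exists_place σ
  have hle : ∀ F : IntermediateField K (AlgebraicClosure K), (∀ x ∈ F, σ x = x) → F ≤ X :=
    fun F hF x hx => (hσ x).1 (hF x hx)
  -- the exhausting tower
  let T : ℕ → IntermediateField K (AlgebraicClosure K) := fun n => M n ⊓ X
  have hTmono : Monotone T := fun a b hab => inf_le_inf (hMmono hab) le_rfl
  have hTfd : ∀ n, FiniteDimensional K (T n) := fun n =>
    Module.Finite.of_injective (IntermediateField.inclusion (inf_le_left : M n ⊓ X ≤ M n)).toLinearMap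
      (IntermediateField.inclusion (inf_le_left : M n ⊓ X ≤ M n)).injective
  have hTσ : ∀ x, σ x = x → ∃ n, x ∈ T n := by
    intro x hx
    obtain ⟨n, hn⟩ := hMex x
    exact ⟨n, hn, (hσ x).1 hx⟩
  have hTX : ∀ n, ∀ x ∈ T n, σ x = x := fun n x hx => (hσ x).2 hx.2
  have hTle : ∀ F : IntermediateField K (AlgebraicClosure K), FiniteDimensional K F → F ≤ X →
      ∃ n₀, ∀ n, n₀ ≤ n → F ≤ T n := by
    intro F hF hFX
    obtain ⟨n₀, hn₀⟩ := le_of_exhaust M hMmono hMex F
    exact ⟨n₀, fun n hn => le_inf (hn₀ n hn) hFX⟩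
  refine ⟨σ, v₀, hv₀σ, hv₀, ?_, ?_, ?_⟩
  · intro F hF hFσ
    obtain ⟨F', h1, h2, nf, h3⟩ := hXB F hF (hle F hFσ)
    exact ⟨F', nf, h1, fun x hx => (hσ x).2 (h2 hx), fun k hk => h3 k hk⟩
  · intro τ hτ hne
    obtain ⟨x, hx, hxσ⟩ := hne
    set Z : IntermediateField K (AlgebraicClosure K) :=
      IntermediateField.fixedField (Subgroup.zpowers τ) with hZ
    have hZmem : ∀ y, y ∈ Z ↔ τ y = y := by
      intro y
      rw [hZ, IntermediateField.mem_fixedField_iff]
      constructor
      · intro h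
        exact h τ (Subgroup.mem_zpowers τ)
      · intro h ρ hρ
        obtain ⟨m, rfl⟩ := Subgroup.mem_zpowers_iff.1 hρ
        have h4 : τ ∈ MulAction.stabilizer Gal(AlgebraicClosure K/K) y := h
        exact Subgroup.zpow_mem _ h4 m
    have hXZ : X ≤ Z := fun y hy => (hZmem y).2 (hτ y ((hσ y).2 hy))
    have hnot : ¬ PB E Z := by
      intro hPB
      exact hxσ ((hσ x).2 (hXmax Z hXZ hPB ((hZmem x).2 hx)))
    unfold PB at hnot
    push Not at hnot
    obtain ⟨F₁, hF₁, hF₁Z, hF₁'⟩ := hnot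
    refine ⟨F₁, hF₁, fun y hy => (hZmem y).1 (hF₁Z hy), fun F nf hF hFτ => ?_⟩
    have h1 := hF₁' F hF (fun y hy => (hZmem y).2 (hFτ y hy))
    by_contra hcon
    push Not at hcon
    exact h1 ⟨nf, fun k hk => hcon k hk⟩
  · intro L hL hLG m v F₁ hF₁ hF₁σ
    obtain ⟨Fs, hFs, hFsY, hFsh⟩ := hYs L hL hLG m
    obtain ⟨n₁, hn₁⟩ := hTle Fs hFs (hFsY.trans hYX)
    have hLXfd : FiniteDimensional K (L ⊓ X : IntermediateField K (AlgebraicClosure K)) :=
      Module.Finite.of_injective
        (IntermediateField.inclusion (inf_le_left : L ⊓ X ≤ L)).toLinearMap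
        (IntermediateField.inclusion (inf_le_left : L ⊓ X ≤ L)).injective
    obtain ⟨n₂, hn₂⟩ := hTle (L ⊓ X) hLXfd inf_le_right
    obtain ⟨n₃, hn₃⟩ := loc_tower σ v₀ hv₀ T hTmono hTσ F₁ L v
    obtain ⟨M', hM'fd, hM'⟩ := semistable_of_loc E
    choose n₄ hn₄ using fun u => loc_tower σ v₀ hv₀ T hTmono hTσ F₁ M' u
    obtain ⟨n₅, hn₅⟩ := inf_tower σ v₀ hv₀ T hTmono hTσ F₁
    have hfin := nonsemistable_finite E
    obtain ⟨n₆, hn₆⟩ : ∃ n₆ : ℕ, ∀ (F : IntermediateField K (AlgebraicClosure K))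
        (_ : NumberField F), T n₆ ≤ F → (∀ x ∈ F, σ x = x) → 0 < m →
        m ∣ Module.finrank ℚ F := by
      by_cases hm : 0 < m
      · obtain ⟨L', hL'fd, hL'G, hL'⟩ := dvd_finrank (K := K) m hm
        have hL'X : FiniteDimensional K (L' ⊓ X : IntermediateField K (AlgebraicClosure K)) :=
          Module.Finite.of_injective
            (IntermediateField.inclusion (inf_le_left : L' ⊓ X ≤ L')).toLinearMap
            (IntermediateField.inclusion (inf_le_left : L' ⊓ X ≤ L')).injective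
        obtain ⟨n₆, hn₆⟩ := hTle (L' ⊓ X) hL'X inf_le_right
        refine ⟨n₆, fun F nfF hF hFσ _ => hL' hL'fd hL'G F nfF ?_⟩
        rw [map_eq_zpowers σ F L' (fun x hx hxσ => hF (hn₆ n₆ le_rfl ⟨hx, (hσ _).1 hxσ⟩)) hFσ]
        infer_instance
      · exact ⟨0, fun _ _ _ _ h => (hm h).elim⟩
    set n := max (max (max n₁ n₂) (max n₃ (hfin.toFinset.sup n₄))) (max n₅ n₆) with hn
    have e1 : n₁ ≤ n := (le_max_left _ _).trans ((le_max_left _ _).trans (le_max_left _ _))
    have e2 : n₂ ≤ n := (le_max_right _ _).trans ((le_max_left _ _).trans (le_max_left _ _))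
    have e3 : n₃ ≤ n := (le_max_left _ _).trans ((le_max_right _ _).trans (le_max_left _ _))
    have e4 : hfin.toFinset.sup n₄ ≤ n :=
      (le_max_right _ _).trans ((le_max_right _ _).trans (le_max_left _ _))
    have e5 : n₅ ≤ n := (le_max_left _ _).trans (le_max_right _ _)
    have e6 : n₆ ≤ n := (le_max_right _ _).trans (le_max_right _ _)
    refine ⟨T n, hTfd n, hTX n, fun F nfF hF hFσ => ⟨?_, ?_, ?_, ?_, ?_, ?_, ?_⟩⟩
    · exact map_eq_zpowers σ F L (fun x hx hxσ => hF (hn₂ n e2 ⟨hx, (hσ _).1 hxσ⟩)) hFσ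
    · exact hn₆ F nfF ((hTmono e6).trans hF) hFσ
    · intro u
      have nfs : NumberField Fs := NumberField.of_module_finite K Fs
      exact (shareUp L Fs F ((hn₁ n e1).trans hF) m).1 u ((hFsh nfs).1 u)
    · intro u
      have nfs : NumberField Fs := NumberField.of_module_finite K Fs
      exact (shareUp L Fs F ((hn₁ n e1).trans hF) m).2 u ((hFsh nfs).2 u)
    · intro w hwv hns x y hyx
      by_contra hcon
      apply hns
      refine splitsAt_of_loc F L w fun P hP hPw => ?_
      have hPv : P.LiesOver v.asIdeal := by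
        refine ⟨?_⟩
        rw [hwv.over, ← hPw]
        ext z
        rfl
      rcases hn₃ n e3 P hP hPv with h1 | h1
      · exfalso
        apply hcon
        have h2 := h1 (algebraMap (𝓞 F₁) (𝓞 (AlgebraicClosure K)) x) (x : F₁).2
        have h3 : algebraMap (𝓞 F₁) (𝓞 (AlgebraicClosure K)) x =
            algebraMap (𝓞 F) (𝓞 (AlgebraicClosure K)) y := by
          apply NumberField.RingOfIntegers.ext
          exact hyx.symm
        rw [← hPw, Ideal.mem_comap, ← h3]
        exact h2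
      · exact h1.mono hF
    · intro w hns x y hyx
      by_contra hcon
      apply hns
      have hint := isIntegral_closure F
      obtain ⟨P, hP, hPw⟩ := Ideal.nonempty_primesOver (S := 𝓞 (AlgebraicClosure K)) w.asIdeal
      have hPw' : P.under (𝓞 F) = w.asIdeal := hPw.over.symm
      set u := H36.below K w with hu
      have hus : ¬ H29.SemistableAt E u := fun h =>
        hns (H29.semi_up E u w (H36.liesOver_below K w) h)
      have hPu : P.LiesOver u.asIdeal := by
        refine ⟨?_⟩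
        rw [(H36.liesOver_below K w).over, ← hPw']
        ext z
        rfl
      rcases hn₄ u n ((Finset.le_sup (by simpa using hus)).trans e4) P hP hPu with h1 | h1
      · exfalso
        apply hcon
        have h2 := h1 (algebraMap (𝓞 F₁) (𝓞 (AlgebraicClosure K)) x) (x : F₁).2
        have h3 : algebraMap (𝓞 F₁) (𝓞 (AlgebraicClosure K)) x =
            algebraMap (𝓞 F) (𝓞 (AlgebraicClosure K)) y := by
          apply NumberField.RingOfIntegers.ext
          exact hyx.symm
        rw [← hPw', Ideal.mem_comap, ← h3]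
        exact h2
      · exact hM' F nfF w P hP hPw' (h1.mono hF)
    · intro w hw
      exact hn₅ n e5 F hF w hw

end

end Pool.Agent.MP_0d9be2.H39
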