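import Pool.Agent.Lib.MP_0d9be2_nt.H39.Global0
import Pool.Agent.Lib.MP_0d9be2_nt.H39.Closure
import Pool.Agent.Lib.MP_0d9be2_nt.H39.Degree
import Pool.Agent.Lib.MP_0d9be2_nt.H15.Main2

/-!
# MP_0d9be2_nt: reduction to one curve for each `j`-invariant and to small mod `N` image
-/

set_option autoImplicit false

open scoped NumberField
open IsDedekindDomain

namespace Pool.Agent.MP_0d9be2

/-- `F` is a finite extension of `K` and `E` a curve over `F` such that for some prime `p` and some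
finite extension `M` of `F`, Galois over `K` and containing `M₀`, the group of `M/F` is
`p`-hyper-elementary, all points of `E` killed by `N` are rational over `M`, and `n` divides
`p ^ k * [F : ℚ]` for some `k`. -/
def SmallImage (K M₀ : Type) [Field K] [NumberField K] [Field M₀] [NumberField M₀] [Algebra K M₀]
    (N n : ℕ) (F : Type) [Field F] [NumberField F] [Algebra K F] (E : WeierstrassCurve F) : Prop :=
  ∃ (p : ℕ) (M : Type) (_ : Field M) (_ : NumberField M) (_ : Algebra K M) (_ : Algebra F M)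
    (_ : IsScalarTower K F M), p.Prime ∧ IsGalois K M ∧ Nonempty (M₀ →ₐ[K] M) ∧
    H36.IsPHyper p Gal(M/F) ∧ FullTorsion (E.map (algebraMap F M)) N ∧
    ∃ k : ℕ, n ∣ p ^ k * Module.finrank ℚ F

/-- The reduction. -/
def Reduction_S : Prop :=
  ∀ (K : Type) [Field K] [NumberField K] (E : WeierstrassCurve K) [E.IsElliptic], E.j ≠ 0 →
    E.j ≠ 1728 → ∀ (M₀ : Type) [Field M₀] [NumberField M₀] [Algebra K M₀] (N n : ℕ), 0 < N →
    0 < n →
    (∀ (F : Type) [Field F] [NumberField F] [Algebra K F],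
      SmallImage K M₀ N n F (WeierstrassCurve.ofJNe0Or1728 (algebraMap K F E.j)) →
      Continues (WeierstrassCurve.ofJNe0Or1728 (algebraMap K F E.j))) → Continues E

namespace H39

theorem ofJ_map {K F : Type} [Field K] [Field F] (f : K →+* F) (j : K) :
    (WeierstrassCurve.ofJNe0Or1728 j).map f = WeierstrassCurve.ofJNe0Or1728 (f j) := by
  have h1 : f 1728 = 1728 := map_ofNat f 1728
  have h2 : f 36 = 36 := map_ofNat f 36
  unfold WeierstrassCurve.ofJNe0Or1728 WeierstrassCurve.map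
  simp [h1, h2]

theorem main2 : Main2_S := H15.main2 main half

theorem reduction (hJ : SameJ_S) : Reduction_S := by
  intro K _ _ E _ hj0 hj1 M₀ _ _ _ N n hN hn H
  have hu0 : IsUnit E.j := hj0.isUnit
  have hu1 : IsUnit (E.j - 1728) := (sub_ne_zero.mpr hj1).isUnit
  have f0 : Fact (IsUnit E.j) := ⟨hu0⟩
  have f1 : Fact (IsUnit (E.j - 1728)) := ⟨hu1⟩
  have hj := WeierstrassCurve.ofJNe0Or1728_j E.j
  obtain ⟨d, hd, htw⟩ := hJ K (WeierstrassCurve.ofJNe0Or1728 E.j) E hj (by rw [hj]; exact hj0)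
    (by rw [hj]; exact hj1)
  obtain ⟨m, hm, hroot⟩ := exists_root_order n hn
  obtain ⟨M, _, _, _, hGal, hM₀, htor, ⟨ζ, hζ⟩, hx⟩ :=
    exists_closure K (WeierstrassCurve.ofJNe0Or1728 E.j) N hN m hm d M₀
  refine main2 K M (WeierstrassCurve.ofJNe0Or1728 E.j) E d hd htw hx fun F hF => ?_
  obtain ⟨p, hp, hF⟩ := (H15.isHyper_iff _).mp hF
  rw [ofJ_map]
  refine H F ⟨p, M, inferInstance, inferInstance, inferInstance, inferInstance, inferInstance, hp,
    hGal, hM₀, hF, ?_, ?_⟩
  · rw [← ofJ_map, WeierstrassCurve.map_map, ← IsScalarTower.algebraMap_eq K F M]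
    exact htor
  · have hne : NeZero m := ⟨hm.ne'⟩
    obtain ⟨k, hk⟩ := totient_dvd (F := F) p hF m ζ hζ
    refine ⟨k, hroot _ ?_⟩
    rw [← mul_assoc]
    exact hk

end H39

end Pool.Agent.MP_0d9be2
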