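import Pool.Agent.Lib.MP_0d9be2_nt.H39.TwistLocal
import Pool.Agent.Lib.MP_0d9be2_nt.H7.Square
import Pool.Agent.Lib.MP_0d9be2_nt.H15.Half
import Pool.Agent.Lib.MP_0d9be2_nt.H29.ChangeS
import Pool.Agent.Lib.MP_0d9be2_nt.H36.Same
import Pool.Agent.Lib.MP_0d9be2_nt.Solomon

/-!
# MP_0d9be2_nt: assembly of the main theorem and of the twist step
-/

set_option autoImplicit false

open scoped NumberField
open IsDedekindDomain

namespace Pool.Agent.MP_0d9be2.H39

open Pool.Agent.MP_0d9be2

theorem quad : Quad_S := by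
  intro k k' _ _ _ _ _ W _ _ h2
  have h : (cnt (W.map (algebraMap k k')) : ℤ) + 1 = (cnt W + 1) * (2 * Nat.card k + 1 - cnt W) :=
    H7.aff_square h2 W
  rw [h]
  ring

theorem curves : Curves_S := H7.curves H29.change H36.same

theorem main : Main_S := H15.main Pool.Agent.Lib.MP_0d9be2_nt.solomon_S primes curves H7.minimal

theorem half : Half_S := H15.half H7.minimal (localTwist H29.change H36.same quad)

end Pool.Agent.MP_0d9be2.H39
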