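import Pool.Agent.Lib.MP_0d9be2_nt.H36.Second
import Pool.Agent.Lib.MP_0d9be2_nt.H15.Share
import Pool.Agent.Lib.MP_0d9be2_nt.H63.Step

/-!
# Complete splitting and decomposition groups in the algebraic closure
-/

set_option autoImplicit false

open scoped NumberField Pointwise ComplexConjugate
open IsDedekindDomain NumberField

namespace Pool.Agent.MP_0d9be2.H39

open Pool.Agent.MP_0d9be2.H36 (exists_lift_at)
open Pool.Agent.MP_0d9be2.H63

section

variable {K : Type} [Field K] [NumberField K]

/-- The decomposition group of `P` over `F` acts trivially on `M`. -/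
def Loc (F M : IntermediateField K (AlgebraicClosure K)) (P : Ideal (𝓞 (AlgebraicClosure K))) :
    Prop :=
  ∀ τ ∈ F.fixingSubgroup, (∀ x : 𝓞 (AlgebraicClosure K), τ • x ∈ P ↔ x ∈ P) →
    ∀ x ∈ M, τ x = x

/-- The same for a complex embedding. -/
def LocInf (F M : IntermediateField K (AlgebraicClosure K)) (ψ : AlgebraicClosure K →+* ℂ) :
    Prop :=
  (∀ x ∈ F, conj (ψ x) = ψ x) → ∀ x ∈ M, conj (ψ x) = ψ x

omit [NumberField K] in
theorem Loc.mono {F F' M : IntermediateField K (AlgebraicClosure K)}
    {P : Ideal (𝓞 (AlgebraicClosure K))} (h : F ≤ F') (hF : Loc F M P) : Loc F' M P :=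
  fun τ hτ => hF τ (IntermediateField.fixingSubgroup_le h hτ)

omit [NumberField K] in
theorem LocInf.mono {F F' M : IntermediateField K (AlgebraicClosure K)}
    {ψ : AlgebraicClosure K →+* ℂ} (h : F ≤ F') (hF : LocInf F M ψ) : LocInf F' M ψ :=
  fun hψ => hF fun x hx => hψ x (h hx)

section comp

variable (F M : IntermediateField K (AlgebraicClosure K)) [NumberField F]
  [FiniteDimensional K M] [IsGalois K M] (L : Type) [Field L] [NumberField L] [Algebra K L]
  [Algebra M L] [Algebra F L]

theorem compositum_mem (hc : IsCompositum K M F L) (ι : L →ₐ[F] AlgebraicClosure K) :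
    (∀ y : M, ι (algebraMap M L y) ∈ M) ∧ (∀ m ∈ M, ∃ y : M, ι (algebraMap M L y) = m) := by
  have t1 := hc.1
  have t2 := hc.2.1
  let f : M →ₐ[K] AlgebraicClosure K :=
    { (ι : L →+* AlgebraicClosure K).comp (algebraMap M L) with
      commutes' := fun k => by
        change ι (algebraMap M L (algebraMap K M k)) = _
        rw [← IsScalarTower.algebraMap_apply K M L, IsScalarTower.algebraMap_apply K F L,
          AlgHom.commutes]
        rfl }
  have hf : ∀ y : M, f y = ι (algebraMap M L y) := fun y => rfl
  have h1 : f.fieldRange = M := AlgHom.fieldRange_of_normal f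
  constructor
  · intro y
    have h3 : f y ∈ f.fieldRange := ⟨y, rfl⟩
    exact h1.le h3
  · intro m hm
    rw [← h1] at hm
    obtain ⟨y, hy⟩ := hm
    exact ⟨y, hy⟩

theorem compositum_galois (hc : IsCompositum K M F L) (ι : L →ₐ[F] AlgebraicClosure K) :
    IsGalois F L := by
  obtain ⟨h1, h2⟩ := compositum_mem F M L hc ι
  have hG : IsGalois F (comp F M) := isGalois_comp F M
  have hr : ι.fieldRange = comp F M := by
    apply le_antisymm
    · rintro _ ⟨z, rfl⟩
      have hz : z ∈ Algebra.adjoin F (Set.range (algebraMap M L)) := by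
        rw [hc.2.2]
        exact Algebra.mem_top
      induction hz using Algebra.adjoin_induction with
      | mem x hx =>
        obtain ⟨y, rfl⟩ := hx
        exact (le_sup_right : M ≤ F ⊔ M) (h1 y)
      | algebraMap r =>
        change ι (algebraMap F L r) ∈ _
        rw [AlgHom.commutes]
        exact (comp F M).algebraMap_mem r
      | add x y _ _ hx hy =>
        change ι (x + y) ∈ _
        rw [map_add]
        exact add_mem hx hy
      | mul x y _ _ hx hy =>
        change ι (x * y) ∈ _
        rw [map_mul]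
        exact mul_mem hx hy
    · intro x hx
      have h3 : F ⊔ M ≤ ι.fieldRange.restrictScalars K := by
        refine sup_le ?_ ?_
        · intro y hy
          exact ⟨algebraMap F L ⟨y, hy⟩, ι.commutes _⟩
        · intro m hm
          obtain ⟨y, hy⟩ := h2 m hm
          exact ⟨algebraMap M L y, hy⟩
      exact h3 hx
  have hG' : IsGalois F ι.fieldRange := by
    rw [hr]
    exact hG
  let e : L ≃ₐ[F] ι.fieldRange := AlgEquiv.ofInjectiveField ι
  exact IsGalois.of_algEquiv e.symm

end comp

variable (F M : IntermediateField K (AlgebraicClosure K)) [NumberField F]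
  [FiniteDimensional K M] [IsGalois K M]

/-- Complete splitting from decomposition groups. -/
theorem splitsAt_of_loc (w : HeightOneSpectrum (𝓞 F))
    (h : ∀ P : Ideal (𝓞 (AlgebraicClosure K)), P.IsPrime → P.under (𝓞 F) = w.asIdeal →
      Loc F M P) : SplitsAt K M F w := by
  intro L _ _ _ _ _ hc W hW
  have : FiniteDimensional F L := Module.Finite.of_restrictScalars_finite ℚ F L
  let ι : L →ₐ[F] AlgebraicClosure K := IsAlgClosed.lift
  obtain ⟨h1, h2⟩ := compositum_mem F M L hc ι
  have hG : IsGalois F L := compositum_galois F M L hc ι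
  let _ : Algebra L (AlgebraicClosure K) := ι.toRingHom.toAlgebra
  have tow : IsScalarTower F L (AlgebraicClosure K) :=
    IsScalarTower.of_algebraMap_eq fun x => (ι.commutes x).symm
  have hint : Algebra.IsIntegral (𝓞 L) (𝓞 (AlgebraicClosure K)) := by
    constructor
    intro x
    have h1 : IsIntegral ℤ x := by
      have h2 : IsIntegral ℤ (algebraMap (𝓞 (AlgebraicClosure K)) (AlgebraicClosure K) x) := x.2
      exact (isIntegral_algebraMap_iff NumberField.RingOfIntegers.coe_injective).1 h2
    exact h1.tower_top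
  obtain ⟨P, hP, hPW⟩ := Ideal.nonempty_primesOver (S := 𝓞 (AlgebraicClosure K)) W.asIdeal
  have hPw : P.under (𝓞 F) = w.asIdeal := by
    rw [hW.over, hPW.over]
    ext x
    rw [Ideal.mem_comap, Ideal.mem_comap, Ideal.mem_comap]
    have h3 : algebraMap (𝓞 L) (𝓞 (AlgebraicClosure K)) (algebraMap (𝓞 F) (𝓞 L) x) =
        algebraMap (𝓞 F) (𝓞 (AlgebraicClosure K)) x := by
      apply NumberField.RingOfIntegers.ext
      exact ι.commutes (x : F)
    rw [h3]
  have hloc := h P hP hPw
  have hstab : Nat.card (MulAction.stabilizer Gal(L/F) W.asIdeal) = 1 := by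
    rw [Nat.card_eq_one_iff_unique]
    refine ⟨⟨?_⟩, ⟨1⟩⟩
    have hone : ∀ τ : MulAction.stabilizer Gal(L/F) W.asIdeal, τ = 1 := by
      rintro ⟨τ, hτ⟩
      have hclos : IsAlgClosure F (AlgebraicClosure K) :=
        ⟨inferInstance, Algebra.IsAlgebraic.tower_top (K := K) F⟩
      have hN : Normal F (AlgebraicClosure K) := IsAlgClosure.normal F (AlgebraicClosure K)
      have hGal : IsGalois F (AlgebraicClosure K) := { }
      obtain ⟨σ, hσP, hσ⟩ := exists_lift_at (Ω := AlgebraicClosure K) τ P (by
        rw [← hPW.over]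
        exact hτ)
      have h3 : ∀ x ∈ M, (σ.restrictScalars K) x = x := by
        refine hloc (σ.restrictScalars K)
          ((IntermediateField.mem_fixingSubgroup_iff _ _).2 fun x hx =>
            σ.commutes (⟨x, hx⟩ : F)) ?_
        intro x
        have h4 : (σ.restrictScalars K) • x = σ • x := by
          apply NumberField.RingOfIntegers.ext
          rfl
        rw [h4]
        conv_lhs => rw [← hσP]
        exact Ideal.smul_mem_pointwise_smul_iff
      apply Subtype.ext
      change τ = 1
      have h5 : ∀ z : L, τ z = z := by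
        intro z
        have hz : z ∈ Algebra.adjoin F (Set.range (algebraMap M L)) := by
          rw [hc.2.2]
          exact Algebra.mem_top
        induction hz using Algebra.adjoin_induction with
        | mem x hx =>
          obtain ⟨y, rfl⟩ := hx
          apply ι.injective
          have h6 := hσ (algebraMap M L y)
          have h7 := h3 _ (h1 y)
          exact h6.symm.trans h7
        | algebraMap r => exact τ.commutes r
        | add x y _ _ hx hy => rw [map_add, hx, hy]
        | mul x y _ _ hx hy => rw [map_mul, hx, hy]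
      exact AlgEquiv.ext h5
    intro a b
    rw [hone a, hone b]
  rw [H15.card_stab] at hstab
  exact ⟨Nat.eq_one_of_mul_eq_one_right hstab, Nat.eq_one_of_mul_eq_one_left hstab⟩

/-- Decomposition groups from complete splitting. -/
theorem loc_of_splitsAt (w : HeightOneSpectrum (𝓞 F)) (h : SplitsAt K M F w)
    (P : Ideal (𝓞 (AlgebraicClosure K))) (hP : P.IsPrime) (hPw : P.under (𝓞 F) = w.asIdeal) :
    Loc F M P := by
  intro τ hτ hτP x hx
  have nfM : NumberField M := NumberField.of_module_finite K M
  have nf : NumberField (comp F M) := numberField_comp F M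
  have hG : IsGalois F (comp F M) := isGalois_comp F M
  let _ : Algebra M (comp F M) := (inclM F M).toAlgebra
  have hc : IsCompositum K M F (comp F M) := isCompositum_comp F M
  have hWw : (P.under (𝓞 (comp F M))).under (𝓞 F) = w.asIdeal := by
    rw [← hPw]
    ext x
    rfl
  let W : HeightOneSpectrum (𝓞 (comp F M)) :=
    ⟨P.under (𝓞 (comp F M)), inferInstance, by
      intro h
      apply w.ne_bot
      rw [← hWw, h]
      rw [eq_bot_iff]
      intro x hx
      rw [Ideal.mem_comap, Ideal.mem_bot] at hx
      rw [Ideal.mem_bot]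
      exact (FaithfulSMul.algebraMap_injective (𝓞 F) (𝓞 (comp F M)))
        (by rw [hx, map_zero])⟩
  obtain ⟨he, hf⟩ := h (comp F M) hc W ⟨hWw.symm⟩
  have hcard := H15.card_stab (k := F) W
  rw [he, hf, mul_one, Nat.card_eq_one_iff_unique] at hcard
  have hsub := hcard.1
  let τF : Gal(AlgebraicClosure K/F) := IntermediateField.fixingSubgroupEquiv F ⟨τ, hτ⟩
  have hτFx : ∀ y, τF y = τ y := fun y => rfl
  have hclos : IsAlgClosure F (AlgebraicClosure K) :=
    ⟨inferInstance, Algebra.IsAlgebraic.tower_top (K := K) F⟩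
  let g : Gal((comp F M)/F) := AlgEquiv.restrictNormalHom (comp F M) τF
  have hg : ∀ y : comp F M, ((g y : comp F M) : AlgebraicClosure K) = τ y := fun y =>
    AlgEquiv.restrictNormalHom_apply (comp F M) τF y
  have hgW : g ∈ MulAction.stabilizer Gal((comp F M)/F) W.asIdeal := by
    rw [MulAction.mem_stabilizer_iff]
    ext y
    rw [Ideal.mem_pointwise_smul_iff_inv_smul_mem]
    have h1 : ∀ z : 𝓞 (comp F M), z ∈ W.asIdeal ↔
        algebraMap (𝓞 (comp F M)) (𝓞 (AlgebraicClosure K)) z ∈ P := fun z => Iff.rfl
    rw [h1, h1]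
    have h2 : algebraMap (𝓞 (comp F M)) (𝓞 (AlgebraicClosure K)) y =
        τ • algebraMap (𝓞 (comp F M)) (𝓞 (AlgebraicClosure K)) (g⁻¹ • y) := by
      apply NumberField.RingOfIntegers.ext
      have h3 := hg ((g⁻¹ • y : 𝓞 (comp F M)) : comp F M)
      have h4 : g ((g⁻¹ • y : 𝓞 (comp F M)) : comp F M) = (y : comp F M) := by
        have h5 : g • (g⁻¹ • y) = y := smul_inv_smul g y
        exact congrArg (fun t : 𝓞 (comp F M) => (t : comp F M)) h5
      rw [h4] at h3
      exact h3
    rw [h2]
    exact (hτP _).symm
  have hg1 : g = 1 := congrArg Subtype.val (hsub.elim ⟨g, hgW⟩ 1)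
  have h6 := hg ⟨x, (le_sup_right : M ≤ F ⊔ M) hx⟩
  rw [hg1] at h6
  exact h6.symm

end

end Pool.Agent.MP_0d9be2.H39
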