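import Pool.Agent.Lib.MP_0d9be2_nt.H39.StepC

/-!
# From the tower to one automorphism
-/

set_option autoImplicit false

open scoped NumberField Pointwise
open IsDedekindDomain NumberField

namespace Pool.Agent.MP_0d9be2.H39

open Pool.Agent.MP_0d9be2.H36 Pool.Agent.MP_0d9be2.H63

section

variable {K : Type} [Field K] [NumberField K]

omit [NumberField K] in
/-- An automorphism which fixes everything fixed by `σ` is a power of `σ` on every finite Galois
extension. -/
theorem mem_zpowers_restrict (σ τ : Gal(AlgebraicClosure K/K)) (h : ∀ x, σ x = x → τ x = x)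
    (M : IntermediateField K (AlgebraicClosure K)) [FiniteDimensional K M] [Normal K M] :
    (AlgEquiv.restrictNormalHom M : Gal(AlgebraicClosure K/K) →* Gal(M/K)) τ ∈
      Subgroup.zpowers
        ((AlgEquiv.restrictNormalHom M : Gal(AlgebraicClosure K/K) →* Gal(M/K)) σ) := by
  rw [← IntermediateField.fixingSubgroup_fixedField (Subgroup.zpowers
        ((AlgEquiv.restrictNormalHom M : Gal(AlgebraicClosure K/K) →* Gal(M/K)) σ)),
    IntermediateField.mem_fixingSubgroup_iff]
  intro x hx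
  rw [IntermediateField.mem_fixedField_iff] at hx
  have h1 := hx _ (Subgroup.mem_zpowers _)
  have h2 : σ (x : AlgebraicClosure K) = x := by
    rw [← AlgEquiv.restrictNormalHom_apply M σ x, h1]
  apply Subtype.ext
  rw [AlgEquiv.restrictNormalHom_apply]
  exact h _ h2

omit [NumberField K] in
theorem exists_zpow (σ τ : Gal(AlgebraicClosure K/K)) (h : ∀ x, σ x = x → τ x = x)
    (M : IntermediateField K (AlgebraicClosure K)) [FiniteDimensional K M] [Normal K M] :
    ∃ k : ℤ, ∀ x ∈ M, τ x = (σ ^ k) x := by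
  obtain ⟨k, hk⟩ := Subgroup.mem_zpowers_iff.1 (mem_zpowers_restrict σ τ h M)
  refine ⟨k, fun x hx => ?_⟩
  have h1 := AlgEquiv.restrictNormalHom_apply M τ ⟨x, hx⟩
  rw [← hk, ← map_zpow, AlgEquiv.restrictNormalHom_apply] at h1
  exact h1.symm

/-- The automorphism. -/
theorem exists_sigma (M : ℕ → IntermediateField K (AlgebraicClosure K)) (hmono : Monotone M)
    (hMex : ∀ x, ∃ n, x ∈ M n) (hfd : ∀ n, FiniteDimensional K (M n))
    (hG : ∀ n, IsGalois K (M n)) (X : IntermediateField K (AlgebraicClosure K))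
    (hcyc : ∀ n, IsCyclic (X.fixingSubgroup.map
      (AlgEquiv.restrictNormalHom (M n) : Gal(AlgebraicClosure K/K) →* Gal(M n/K)))) :
    ∃ σ : Gal(AlgebraicClosure K/K), ∀ x, σ x = x ↔ x ∈ X := by
  let r : (n : ℕ) → Gal(AlgebraicClosure K/K) →* Gal(M n/K) := fun n =>
    AlgEquiv.restrictNormalHom (M n)
  have hr : ∀ n (τ : Gal(AlgebraicClosure K/K)) (x : M n),
      ((r n τ x : M n) : AlgebraicClosure K) = τ x := fun n τ x =>
    AlgEquiv.restrictNormalHom_apply (M n) τ x
  let C : ℕ → Set Gal(AlgebraicClosure K/K) := fun n => {τ | τ ∈ X.fixingSubgroup ∧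
    ∀ ρ ∈ X.fixingSubgroup, r n ρ ∈ Subgroup.zpowers (r n τ)}
  have hCcl : ∀ n, IsClosed (C n) := by
    intro n
    have e1 : IsClosed {τ : Gal(AlgebraicClosure K/K) | τ ∈ X.fixingSubgroup} :=
      InfiniteGalois.fixingSubgroup_isClosed X
    have e2 : IsClosed {τ : Gal(AlgebraicClosure K/K) |
        ∀ ρ ∈ X.fixingSubgroup, r n ρ ∈ Subgroup.zpowers (r n τ)} := by
      have hc : Continuous (r n) := InfiniteGalois.restrictNormalHom_continuous (M n)
      have hd : IsClosed {g : Gal(M n/K) | ∀ ρ ∈ X.fixingSubgroup,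
        r n ρ ∈ Subgroup.zpowers g} := isClosed_discrete _
      exact hd.preimage hc
    exact e1.inter e2
  have hCne : ∀ n, (C n).Nonempty := by
    intro n
    obtain ⟨⟨_, τ, hτ, rfl⟩, hg⟩ := (hcyc n).exists_generator
    refine ⟨τ, hτ, fun ρ hρ => ?_⟩
    obtain ⟨k, hk⟩ := Subgroup.mem_zpowers_iff.1 (hg ⟨r n ρ, ρ, hρ, rfl⟩)
    refine Subgroup.mem_zpowers_iff.2 ⟨k, ?_⟩
    have := congrArg Subtype.val hk
    simpa using this
  have hCanti : ∀ n, C (n + 1) ⊆ C n := by
    rintro n τ ⟨h1, h2⟩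
    refine ⟨h1, fun ρ hρ => ?_⟩
    obtain ⟨k, hk⟩ := Subgroup.mem_zpowers_iff.1 (h2 ρ hρ)
    refine Subgroup.mem_zpowers_iff.2 ⟨k, ?_⟩
    ext x
    rw [← map_zpow, hr, hr]
    have h3 := hr (n + 1) ρ ⟨x, hmono (Nat.le_succ n) x.2⟩
    rw [← hk, ← map_zpow, hr] at h3
    exact h3
  obtain ⟨σ, hσ⟩ := IsCompact.nonempty_iInter_of_sequence_nonempty_isCompact_isClosed
    C hCanti hCne ((hCcl 0).isCompact) hCcl
  rw [Set.mem_iInter] at hσ
  refine ⟨σ, fun x => ⟨fun hx => ?_, fun hx => ?_⟩⟩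
  · rw [← InfiniteGalois.fixedField_fixingSubgroup X, IntermediateField.mem_fixedField_iff]
    intro ρ hρ
    obtain ⟨n, hn⟩ := hMex x
    obtain ⟨k, hk⟩ := Subgroup.mem_zpowers_iff.1 ((hσ n).2 ρ hρ)
    have h1 := hr n ρ ⟨x, hn⟩
    rw [← hk, ← map_zpow, hr] at h1
    rw [← h1]
    have h4 : σ ∈ MulAction.stabilizer Gal(AlgebraicClosure K/K) x := hx
    exact Subgroup.zpow_mem _ h4 k
  · exact (IntermediateField.mem_fixingSubgroup_iff _ _).1 (hσ 0).1 x hx

/-- The bad number fields are cofinal in `X`. -/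
def PB (E : WeierstrassCurve K) (X : IntermediateField K (AlgebraicClosure K)) : Prop :=
  ∀ F : IntermediateField K (AlgebraicClosure K), FiniteDimensional K F → F ≤ X →
    ∃ F' : IntermediateField K (AlgebraicClosure K), F ≤ F' ∧ F' ≤ X ∧ BadAt posSet E F'

/-- A maximal field in which the bad number fields are cofinal. -/
theorem exists_max (E : WeierstrassCurve K) (X₀ : IntermediateField K (AlgebraicClosure K))
    (h₀ : PB E X₀) : ∃ X : IntermediateField K (AlgebraicClosure K), X₀ ≤ X ∧ PB E X ∧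
      ∀ Y : IntermediateField K (AlgebraicClosure K), X ≤ Y → PB E Y → Y ≤ X := by
  obtain ⟨X, hX, hXm⟩ := zorn_le_nonempty₀ {X | PB E X} (fun c hc hch y hy => by
    refine ⟨sSup c, ?_, fun z hz => le_sSup hz⟩
    intro F hF hFc
    obtain ⟨θ, hθ⟩ := Field.exists_primitive_element K F
    have hθc : (θ : AlgebraicClosure K) ∈ sSup c := hFc θ.2
    have hne : Nonempty c := ⟨⟨y, hy⟩⟩
    rw [sSup_eq_iSup', ← SetLike.mem_coe, IntermediateField.coe_iSup_of_directed
      hch.directedOn.directed_val, Set.mem_iUnion] at hθc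
    obtain ⟨⟨Y, hY⟩, hθY⟩ := hθc
    have hFY : F ≤ Y := by
      intro x hx
      have h1 : (⟨x, hx⟩ : F) ∈ IntermediateField.adjoin K {θ} := by
        rw [hθ]
        trivial
      have h2 : IntermediateField.adjoin K {θ} ≤ Y.comap F.val := by
        rw [IntermediateField.adjoin_le_iff]
        rintro _ rfl
        exact hθY
      exact h2 h1
    obtain ⟨F', h1, h2, h3⟩ := hc hY F hF hFY
    exact ⟨F', h1, h2.trans (le_sSup hY), h3⟩) X₀ h₀
  exact ⟨X, hX, hXm.1, fun Y hXY hY => hXm.2 hY hXY⟩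

end

end Pool.Agent.MP_0d9be2.H39
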