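import Pool.Agent.Lib.MP_0d9be2_nt.H39.ShareC
import Pool.Agent.Lib.MP_0d9be2_nt.H39.SigmaC
import Pool.Agent.Lib.MP_0d9be2_nt.H63.D4

/-!
# Compactness for the places, and the local alternative for commuting automorphisms
-/

set_option autoImplicit false

open scoped NumberField Pointwise ComplexConjugate
open IsDedekindDomain NumberField

namespace Pool.Agent.MP_0d9be2.H39

open Pool.Agent.MP_0d9be2.H63

section closed

variable {G : Type*} [Group G] [TopologicalSpace G] [IsTopologicalGroup G]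

theorem isClosed_of_left (H : Subgroup G) (hH : IsOpen (H : Set G)) (S : Set G)
    (h : ∀ a ∈ H, ∀ g ∈ S, a * g ∈ S) : IsClosed S := by
  rw [← isOpen_compl_iff, isOpen_iff_forall_mem_open]
  intro g hg
  refine ⟨(fun q : G => q * g⁻¹) ⁻¹' (H : Set G), ?_, hH.preimage (by fun_prop), ?_⟩
  · intro q hq hqS
    apply hg
    have h1 := h (q * g⁻¹)⁻¹ (H.inv_mem hq) q hqS
    simpa using h1
  · change g * g⁻¹ ∈ H
    rw [mul_inv_cancel]
    exact H.one_mem

theorem isClosed_of_right (H : Subgroup G) (hH : IsOpen (H : Set G)) (S : Set G)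
    (h : ∀ a ∈ H, ∀ g ∈ S, g * a ∈ S) : IsClosed S := by
  rw [← isOpen_compl_iff, isOpen_iff_forall_mem_open]
  intro g hg
  refine ⟨(fun q : G => g⁻¹ * q) ⁻¹' (H : Set G), ?_, hH.preimage (by fun_prop), ?_⟩
  · intro q hq hqS
    apply hg
    have h1 := h (g⁻¹ * q)⁻¹ (H.inv_mem hq) q hqS
    simpa using h1
  · change g⁻¹ * g ∈ H
    rw [inv_mul_cancel]
    exact H.one_mem

end closed

section

variable {K : Type} [Field K] [NumberField K]

omit [NumberField K] in
theorem mem_fixing_smul (F : IntermediateField K (AlgebraicClosure K))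
    (τ : Gal(AlgebraicClosure K/K)) (hτ : τ ∈ F.fixingSubgroup) (x : 𝓞 (AlgebraicClosure K))
    (hx : (x : AlgebraicClosure K) ∈ F) : τ • x = x := by
  apply NumberField.RingOfIntegers.ext
  exact (IntermediateField.mem_fixingSubgroup_iff _ _).1 hτ _ hx

/-- Compactness, with a closed condition on the prime. -/
theorem loc_large (F : ℕ → IntermediateField K (AlgebraicClosure K)) (hmono : Monotone F)
    (C : Ideal (𝓞 (AlgebraicClosure K)) → Prop)
    (hC : ∀ P₀ : Ideal (𝓞 (AlgebraicClosure K)),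
      IsClosed {g : Gal(AlgebraicClosure K/K) | C (g • P₀)})
    (hall : ∀ P : Ideal (𝓞 (AlgebraicClosure K)), P.IsPrime → P ≠ ⊥ → C P →
      ∀ σ : Gal(AlgebraicClosure K/K), (∀ n, σ ∈ (F n).fixingSubgroup) →
      (∀ x : 𝓞 (AlgebraicClosure K), σ • x ∈ P ↔ x ∈ P) → σ = 1)
    (M : IntermediateField K (AlgebraicClosure K)) [FiniteDimensional K M]
    (v : HeightOneSpectrum (𝓞 K)) :
    ∃ n₀ : ℕ, ∀ n, n₀ ≤ n → ∀ P : Ideal (𝓞 (AlgebraicClosure K)), P.IsPrime →
      P.LiesOver v.asIdeal → C P → Loc (F n) M P := by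
  by_contra hcon
  unfold Loc at hcon
  push Not at hcon
  -- a primitive element
  obtain ⟨θ', hθ'⟩ := Field.exists_primitive_element K M
  let θ : AlgebraicClosure K := M.val θ'
  have hgen : ∀ τ : Gal(AlgebraicClosure K/K), τ θ = θ → ∀ x ∈ M, τ x = x := by
    intro τ hτ x hx
    have h1 : (⟨x, hx⟩ : M) ∈ IntermediateField.adjoin K {θ'} := by
      rw [hθ']
      trivial
    have h2 : IntermediateField.adjoin K {θ'} ≤
        (IntermediateField.fixedField (Subgroup.zpowers τ)).comap M.val := by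
      rw [IntermediateField.adjoin_le_iff]
      rintro _ rfl
      change θ ∈ IntermediateField.fixedField (Subgroup.zpowers τ)
      rw [IntermediateField.mem_fixedField_iff]
      intro ρ hρ
      rw [Subgroup.mem_zpowers_iff] at hρ
      obtain ⟨m, rfl⟩ := hρ
      have h4 : τ ∈ MulAction.stabilizer Gal(AlgebraicClosure K/K) θ := hτ
      exact Subgroup.zpow_mem _ h4 m
    have h3 : x ∈ IntermediateField.fixedField (Subgroup.zpowers τ) := h2 h1
    rw [IntermediateField.mem_fixedField_iff] at h3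
    exact h3 τ (Subgroup.mem_zpowers τ)
  obtain ⟨_, _, P₀, hP₀, hP₀v, _⟩ := hcon 0
  -- topology
  let G := Gal(AlgebraicClosure K/K)
  let _ : TopologicalSpace (𝓞 (AlgebraicClosure K)) := ⊥
  have hdisc : DiscreteTopology (𝓞 (AlgebraicClosure K)) := ⟨rfl⟩
  have hcs : ContinuousSMul G (𝓞 (AlgebraicClosure K)) := by
    rw [continuousSMul_iff_stabilizer_isOpen]
    intro x
    have h1 := stabilizer_isOpen_of_isIntegral (K := K) (L := AlgebraicClosure K)
      (x : AlgebraicClosure K)
    convert h1 using 1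
    ext g
    simp only [SetLike.mem_coe, MulAction.mem_stabilizer_iff]
    constructor
    · intro h
      exact congrArg (fun y : 𝓞 (AlgebraicClosure K) => (y : AlgebraicClosure K)) h
    · intro h
      exact NumberField.RingOfIntegers.ext h
  have hinv := isInvariant_closure (K := K)
  have hcomm : SMulCommClass G (𝓞 K) (𝓞 (AlgebraicClosure K)) := by
    constructor
    intro g a b
    apply NumberField.RingOfIntegers.ext
    rw [Algebra.smul_def, Algebra.smul_def]
    change g (algebraMap K (AlgebraicClosure K) (a : K) * (b : AlgebraicClosure K)) =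
      algebraMap K (AlgebraicClosure K) (a : K) * g (b : AlgebraicClosure K)
    rw [map_mul, AlgEquiv.commutes]
  let B : ℕ → Set (G × G) := fun n => {q | q.2 ∈ (F n).fixingSubgroup ∧
    (∀ x : 𝓞 (AlgebraicClosure K), (q.1⁻¹ • (q.2 • x) ∈ P₀ ↔ q.1⁻¹ • x ∈ P₀)) ∧
    q.2 θ ≠ θ ∧ C (q.1 • P₀)}
  have hBanti : ∀ n, B (n + 1) ⊆ B n := by
    rintro n q ⟨h1, h2, h3⟩
    refine ⟨?_, h2, h3⟩
    exact IntermediateField.fixingSubgroup_le (hmono (Nat.le_succ n)) h1
  have hBanti' : Antitone B := antitone_nat_of_succ_le hBanti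
  have hBcl : ∀ n, IsClosed (B n) := by
    intro n
    have e1 : IsClosed {q : G × G | q.2 ∈ (F n).fixingSubgroup} :=
      (InfiniteGalois.fixingSubgroup_isClosed (F n)).preimage continuous_snd
    have e2 : IsClosed {q : G × G | ∀ x : 𝓞 (AlgebraicClosure K),
        (q.1⁻¹ • (q.2 • x) ∈ P₀ ↔ q.1⁻¹ • x ∈ P₀)} := by
      rw [Set.ofPred_forall]
      refine isClosed_iInter fun x => ?_
      have hc : Continuous fun q : G × G => (q.1⁻¹ • (q.2 • x), q.1⁻¹ • x) := by
        fun_prop
      have hd : IsClosed {z : 𝓞 (AlgebraicClosure K) × 𝓞 (AlgebraicClosure K) |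
          z.1 ∈ P₀ ↔ z.2 ∈ P₀} := isClosed_discrete _
      exact hd.preimage hc
    have e3 : IsClosed {q : G × G | q.2 θ ≠ θ} := by
      have h1 := stabilizer_isOpen_of_isIntegral (K := K) (L := AlgebraicClosure K) θ
      have h2 := (h1.preimage (continuous_snd (X := G) (Y := G))).isClosed_compl
      exact h2
    have e4 : IsClosed {q : G × G | C (q.1 • P₀)} := (hC P₀).preimage continuous_fst
    have : B n = {q : G × G | q.2 ∈ (F n).fixingSubgroup} ∩
        ({q : G × G | ∀ x : 𝓞 (AlgebraicClosure K),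
        (q.1⁻¹ • (q.2 • x) ∈ P₀ ↔ q.1⁻¹ • x ∈ P₀)} ∩
        ({q : G × G | q.2 θ ≠ θ} ∩ {q : G × G | C (q.1 • P₀)})) := rfl
    rw [this]
    exact e1.inter (e2.inter (e3.inter e4))
  have hBne : ∀ n, (B n).Nonempty := by
    intro n
    obtain ⟨n', hn', P, hP, hPv, hCP, σ, hσ, hPσ, x, hx, hne⟩ := hcon n
    obtain ⟨g, hg⟩ := Algebra.IsInvariant.exists_smul_of_under_eq_of_profinite
      (A := 𝓞 K) (G := G) P₀ P (hP₀v.over.symm.trans hPv.over)
    refine ⟨(g, σ), hBanti' hn' ⟨hσ, ?_, ?_, ?_⟩⟩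
    · intro x
      have h1 : ∀ y : 𝓞 (AlgebraicClosure K), g⁻¹ • y ∈ P₀ ↔ y ∈ P := by
        intro y
        rw [hg, Ideal.mem_pointwise_smul_iff_inv_smul_mem]
      rw [h1, h1]
      exact hPσ x
    · intro h
      exact hne (hgen _ h x hx)
    · change C (g • P₀)
      rw [← hg]
      exact hCP
  obtain ⟨⟨g, σ⟩, hgσ⟩ := IsCompact.nonempty_iInter_of_sequence_nonempty_isCompact_isClosed
    B hBanti hBne ((hBcl 0).isCompact) hBcl
  rw [Set.mem_iInter] at hgσ
  have hσfix : ∀ n, σ ∈ (F n).fixingSubgroup := fun n => (hgσ n).1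
  have hσstab := (hgσ 0).2.1
  have hσθ := (hgσ 0).2.2.1
  have hCP := (hgσ 0).2.2.2
  let P : Ideal (𝓞 (AlgebraicClosure K)) := g • P₀
  have hPmem : ∀ y : 𝓞 (AlgebraicClosure K), g⁻¹ • y ∈ P₀ ↔ y ∈ P := by
    intro y
    exact (Ideal.mem_pointwise_smul_iff_inv_smul_mem).symm
  have hPprime : P.IsPrime := by
    have := hP₀
    exact inferInstanceAs (g • P₀).IsPrime
  have hPne : P ≠ ⊥ := by
    intro h
    have h1 : P₀ = ⊥ := by
      rw [eq_bot_iff]
      intro x hx
      have h2 : g • x ∈ P := (hPmem _).1 (by rwa [inv_smul_smul])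
      rw [h, Ideal.mem_bot] at h2
      have h3 : x = 0 := by
        have := congrArg (fun y => g⁻¹ • y) h2
        simpa using this
      rw [h3]
      exact Submodule.zero_mem _
    apply v.ne_bot
    rw [hP₀v.over, h1]
    rw [eq_bot_iff]
    intro x hx
    rw [Ideal.mem_comap, Ideal.mem_bot] at hx
    rw [Ideal.mem_bot]
    exact (FaithfulSMul.algebraMap_injective (𝓞 K) (𝓞 (AlgebraicClosure K))) (by rw [hx, map_zero])
  have hσP : ∀ x : 𝓞 (AlgebraicClosure K), σ • x ∈ P ↔ x ∈ P := by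
    intro x
    rw [← hPmem, ← hPmem]
    exact hσstab x
  have hσ1 : σ = 1 := hall P hPprime hPne hCP σ hσfix hσP
  apply hσθ
  change σ θ = θ
  rw [hσ1]
  rfl

/-- Compactness for the infinite places, with a closed condition on the embedding. -/
theorem locInf_large (F : ℕ → IntermediateField K (AlgebraicClosure K)) (hmono : Monotone F)
    (C : (AlgebraicClosure K →+* ℂ) → Prop)
    (hC : ∀ ψ : AlgebraicClosure K →+* ℂ, IsClosed {g : Gal(AlgebraicClosure K/K) |
      C (ψ.comp (g : AlgebraicClosure K →+* AlgebraicClosure K))})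
    (hall : ∀ ψ : AlgebraicClosure K →+* ℂ, C ψ → ∀ c : Gal(AlgebraicClosure K/K),
      (∀ n, c ∈ (F n).fixingSubgroup) → (∀ x, ψ (c x) = conj (ψ x)) → False) :
    ∃ n₀ : ℕ, ∀ n, n₀ ≤ n → ∀ ψ : AlgebraicClosure K →+* ℂ, C ψ →
      ∃ x ∈ F n, conj (ψ x) ≠ ψ x := by
  classical
  let G := Gal(AlgebraicClosure K/K)
  have hext : ∀ τ : K →+* ℂ, ∃ φ : AlgebraicClosure K →+* ℂ,
      ∀ x : K, φ (algebraMap K (AlgebraicClosure K) x) = τ x := by
    intro τ
    let _ : Algebra K ℂ := τ.toAlgebra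
    let φ : AlgebraicClosure K →ₐ[K] ℂ := IsAlgClosed.lift
    exact ⟨φ.toRingHom, fun x => φ.commutes x⟩
  choose φ hφ using hext
  -- automorphisms from pairs of embeddings
  have haut : ∀ (τ : K →+* ℂ) (ψ₁ ψ₂ : AlgebraicClosure K →+* ℂ),
      (∀ x : K, ψ₁ (algebraMap K (AlgebraicClosure K) x) = τ x) →
      (∀ x : K, ψ₂ (algebraMap K (AlgebraicClosure K) x) = τ x) →
      ∃ g : G, ∀ x, ψ₁ (g x) = ψ₂ x := by
    intro τ ψ₁ ψ₂ h1 h2
    let _ : Algebra K ℂ := τ.toAlgebra
    let _ : Algebra (AlgebraicClosure K) ℂ := ψ₁.toAlgebra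
    have tow : IsScalarTower K (AlgebraicClosure K) ℂ :=
      IsScalarTower.of_algebraMap_eq fun x => (h1 x).symm
    let ψ : AlgebraicClosure K →ₐ[K] ℂ := { ψ₂ with commutes' := h2 }
    refine ⟨Normal.algHomEquivAut K ℂ (AlgebraicClosure K) ψ, fun x => ?_⟩
    have h3 := (Normal.algHomEquivAut K ℂ (AlgebraicClosure K)).symm_apply_apply ψ
    exact congrArg (fun f : AlgebraicClosure K →ₐ[K] ℂ => f x) h3
  let B : (K →+* ℂ) → ℕ → Set G := fun τ n =>
    {g | ∀ x ∈ F n, conj (φ τ (g x)) = φ τ (g x)} ∩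
    {g | C ((φ τ).comp (g : AlgebraicClosure K →+* AlgebraicClosure K))}
  have hBanti : ∀ τ n, B τ (n + 1) ⊆ B τ n := by
    intro τ n g hg
    exact ⟨fun x hx => hg.1 x (hmono (Nat.le_succ n) hx), hg.2⟩
  have hBcl : ∀ τ n, IsClosed (B τ n) := by
    intro τ n
    refine IsClosed.inter ?_ (hC (φ τ))
    have h0 : {g : G | ∀ x ∈ F n, conj (φ τ (g x)) = φ τ (g x)} =
        ⋂ (x : AlgebraicClosure K) (_ : x ∈ F n),
        {g : G | conj (φ τ (g x)) = φ τ (g x)} := by
      ext g
      simp only [Set.mem_iInter]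
      rfl
    rw [h0]
    refine isClosed_iInter fun x => isClosed_iInter fun _ => ?_
    have h1 := stabilizer_isOpen_of_isIntegral (K := K) (L := AlgebraicClosure K) x
    refine isClosed_of_right (MulAction.stabilizer G x) h1 _ ?_
    intro a ha g hg
    have h2 : a x = x := ha
    change conj (φ τ ((g * a) x)) = φ τ ((g * a) x)
    rw [AlgEquiv.mul_apply, h2]
    exact hg
  -- the limit
  have hlim : ∀ τ : K →+* ℂ, ∃ n, ¬ (B τ n).Nonempty := by
    intro τ
    by_contra hcon
    push Not at hcon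
    obtain ⟨g, hg⟩ := IsCompact.nonempty_iInter_of_sequence_nonempty_isCompact_isClosed
      (B τ) (hBanti τ) hcon ((hBcl τ 0).isCompact) (hBcl τ)
    rw [Set.mem_iInter] at hg
    let ψ : AlgebraicClosure K →+* ℂ := (φ τ).comp (g : AlgebraicClosure K →+* AlgebraicClosure K)
    have hψ : ∀ x, ψ x = φ τ (g x) := fun x => rfl
    have hψK : ∀ x : K, ψ (algebraMap K (AlgebraicClosure K) x) = τ x := by
      intro x
      rw [hψ, AlgEquiv.commutes, hφ]
    have hτ : ∀ x : K, conj (τ x) = τ x := by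
      intro x
      have := (hg 0).1 (algebraMap K (AlgebraicClosure K) x) ((F 0).algebraMap_mem x)
      rwa [← hψ, hψK] at this
    obtain ⟨c, hc⟩ := haut τ ψ ((starRingEnd ℂ).comp ψ) hψK (fun x => by
      rw [RingHom.comp_apply, hψK, hτ])
    have hc' : ∀ x, ψ (c x) = conj (ψ x) := hc
    have hcfix : ∀ n, c ∈ (F n).fixingSubgroup := by
      intro n
      rw [IntermediateField.mem_fixingSubgroup_iff]
      intro x hx
      apply ψ.injective
      rw [hc', hψ]
      exact (hg n).1 x hx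
    exact hall ψ (hg 0).2 c hcfix hc'
  choose n hn using hlim
  refine ⟨Finset.univ.sup n, fun m hm ψ hψC => ?_⟩
  by_contra hw
  push Not at hw
  let τ : K →+* ℂ := ψ.comp (algebraMap K (AlgebraicClosure K))
  obtain ⟨g, hg⟩ := haut τ (φ τ) ψ (hφ τ) (fun x => rfl)
  apply hn τ
  have h0 : (φ τ).comp (g : AlgebraicClosure K →+* AlgebraicClosure K) = ψ := by
    ext x
    exact hg x
  refine ⟨g, fun x hx => ?_, ?_⟩
  · have hx' : x ∈ F m := hmono ((Finset.le_sup (Finset.mem_univ τ)).trans hm) hx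
    rw [hg]
    exact hw x hx'
  · change C ((φ τ).comp (g : AlgebraicClosure K →+* AlgebraicClosure K))
    rw [h0]
    exact hψC

/-- Semistability from the decomposition group. -/
theorem semistable_of_loc (E : WeierstrassCurve K) [E.IsElliptic] :
    ∃ (M : IntermediateField K (AlgebraicClosure K)), FiniteDimensional K M ∧
      ∀ (F : IntermediateField K (AlgebraicClosure K)) (_ : NumberField F)
        (w : HeightOneSpectrum (𝓞 F)) (P : Ideal (𝓞 (AlgebraicClosure K))), P.IsPrime →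
        P.under (𝓞 F) = w.asIdeal → Loc F M P →
        H29.SemistableAt (E.map (algebraMap K F)) w := by
  obtain ⟨M, hM, hfd, hMG, hss⟩ := H29.potential E
  refine ⟨M, hfd, fun F nfF w P hP hw hloc => ?_⟩
  have hMG' := hMG
  have hN : NumberField (comp F M) := numberField_comp F M
  have hNG : IsGalois F (comp F M) := isGalois_comp F M
  have hWw : (P.under (𝓞 (comp F M))).under (𝓞 F) = w.asIdeal := by
    rw [← hw]
    ext x
    rfl
  let W : HeightOneSpectrum (𝓞 (comp F M)) :=
    ⟨P.under (𝓞 (comp F M)), inferInstance, by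
      intro h
      apply w.ne_bot
      rw [← hWw, h]
      rw [eq_bot_iff]
      intro x hx
      rw [Ideal.mem_comap, Ideal.mem_bot] at hx
      rw [Ideal.mem_bot]
      exact (FaithfulSMul.algebraMap_injective (𝓞 F) (𝓞 (comp F M)))
        (by rw [hx, map_zero])⟩
  have hW : W.asIdeal.LiesOver w.asIdeal := ⟨hWw.symm⟩
  have hclos : IsAlgClosure F (AlgebraicClosure K) :=
    ⟨inferInstance, Algebra.IsAlgebraic.tower_top (K := K) F⟩
  have hNor : Normal F (AlgebraicClosure K) := IsAlgClosure.normal F (AlgebraicClosure K)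
  have hGal : IsGalois F (AlgebraicClosure K) := { }
  have hG : ∃ k, Nat.card (MulAction.stabilizer (comp F M ≃ₐ[F] comp F M) W.asIdeal) =
      5 ^ k := by
    refine ⟨0, ?_⟩
    rw [pow_zero, Nat.card_eq_one_iff_unique]
    refine ⟨⟨?_⟩, ⟨1⟩⟩
    have hone : ∀ τ : MulAction.stabilizer (comp F M ≃ₐ[F] comp F M) W.asIdeal,
        τ = 1 := by
      rintro ⟨τ, hτ⟩
      obtain ⟨σ, hσP, hσ⟩ := H36.exists_lift_at (Ω := AlgebraicClosure K) τ P hτ
      have h1 : ∀ x ∈ M, (σ.restrictScalars K) x = x := by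
        refine hloc (σ.restrictScalars K)
          ((IntermediateField.mem_fixingSubgroup_iff _ _).2 fun x hx =>
            σ.commutes (⟨x, hx⟩ : F)) ?_
        intro x
        have h2 : (σ.restrictScalars K) • x = σ • x := by
          apply NumberField.RingOfIntegers.ext
          rfl
        rw [h2]
        conv_lhs => rw [← hσP]
        exact Ideal.smul_mem_pointwise_smul_iff
      have h2 : σ.restrictScalars K ∈ (F ⊔ M).fixingSubgroup := by
        rw [IntermediateField.fixingSubgroup_sup]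
        constructor
        · refine (IntermediateField.mem_fixingSubgroup_iff _ _).2 fun x hx => ?_
          exact σ.commutes (⟨x, hx⟩ : F)
        · exact (IntermediateField.mem_fixingSubgroup_iff M _).2 h1
      apply Subtype.ext
      change τ = 1
      ext x
      have h3 := hσ x
      have h4 : σ (x : AlgebraicClosure K) = x :=
        (IntermediateField.mem_fixingSubgroup_iff _ _).1 h2 x.1 x.2
      exact h3.symm.trans h4
    intro a b
    rw [hone a, hone b]
  -- semistability over the compositum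
  let _ : Algebra M (comp F M) := (inclM F M).toAlgebra
  have hssW : H29.SemistableAt ((E.map (algebraMap K F)).map
      (algebraMap F (comp F M))) W := by
    have h1 := H29.semi_up (F := comp F M) (E.map (algebraMap K M)) (H36.below M W) W
      (H36.liesOver_below M W) (hss _)
    rw [WeierstrassCurve.map_map] at h1 ⊢
    exact h1
  exact H36.semistable_descent (E.map (algebraMap K F)) w W hW (p := 5) (by norm_num)
    le_rfl hG hssW

/-- The primes where the curve is not semistable. -/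
theorem nonsemistable_finite (E : WeierstrassCurve K) [E.IsElliptic] :
    {v : HeightOneSpectrum (𝓞 K) | ¬ H29.SemistableAt E v}.Finite := by
  obtain ⟨W₀, hW₀⟩ := H7.exists_model E
  refine (H7.finite_dvd (H7.model_disc_ne_zero hW₀)).subset ?_
  intro v hv
  by_contra hv'
  exact hv ⟨W₀, hW₀, Or.inl hv'⟩

end

section local_alt

variable {K : Type} [Field K] [NumberField K]

theorem orbit_finite (σ : Gal(AlgebraicClosure K/K)) (x : AlgebraicClosure K) :
    ∃ r : ℕ, 0 < r ∧ ((σ : AlgebraicClosure K ≃ₐ[K] AlgebraicClosure K).toRingEquiv ^ r) x = x := by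
  obtain ⟨r, hr, hrx⟩ := finite_orbit σ x
  refine ⟨r, hr, ?_⟩
  have h1 : ∀ (m : ℕ) (y : AlgebraicClosure K),
      ((σ : AlgebraicClosure K ≃ₐ[K] AlgebraicClosure K).toRingEquiv ^ m) y = (σ ^ m) y := by
    intro m
    induction m with
    | zero => intro y; rfl
    | succ m ih =>
      intro y
      rw [pow_succ, pow_succ]
      exact ih (σ y)
  rw [h1]
  exact hrx

/-- Two inequivalent absolute values are not both preserved by a nontrivial automorphism. -/
theorem schmidt_gal (σ : Gal(AlgebraicClosure K/K)) (v w : AbsoluteValue (AlgebraicClosure K) ℝ)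
    (hv : v.IsNontrivial) (hw : w.IsNontrivial) (hne : ¬ v.IsEquiv w)
    (hσv : ∀ x, v (σ x) = v x) (hσw : ∀ x, w (σ x) = w x) : σ = 1 := by
  ext x
  exact schmidt (σ : AlgebraicClosure K ≃ₐ[K] AlgebraicClosure K).toRingEquiv
    (orbit_finite σ) v w hv hw hne hσv hσw x

/-- If a nontrivial automorphism preserves an absolute value then so does every automorphism which
commutes with it. -/
theorem preserved_of_commute (σ τ : Gal(AlgebraicClosure K/K)) (hτ : τ ≠ 1)
    (hcomm : σ * τ = τ * σ) (v : AbsoluteValue (AlgebraicClosure K) ℝ) (hv : v.IsNontrivial)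
    (hτv : ∀ x, v (τ x) = v x) (x : AlgebraicClosure K) : v (σ x) = v x := by
  set w : AbsoluteValue (AlgebraicClosure K) ℝ :=
    v.comp (f := (σ : AlgebraicClosure K ≃ₐ[K] AlgebraicClosure K).toRingEquiv.toRingHom)
      σ.injective with hw
  have hwx : ∀ x, w x = v (σ x) := fun x => rfl
  have hwn : w.IsNontrivial := by
    obtain ⟨y, hy0, hy1⟩ := hv
    refine ⟨σ⁻¹ y, ?_, ?_⟩
    · intro h
      apply hy0
      rwa [map_eq_zero] at h
    · rw [hwx, ← AlgEquiv.mul_apply, mul_inv_cancel, AlgEquiv.one_apply]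
      exact hy1
  have hτw : ∀ x, w (τ x) = w x := by
    intro x
    rw [hwx, hwx, ← AlgEquiv.mul_apply, hcomm, AlgEquiv.mul_apply, hτv]
  have heq : v.IsEquiv w := by
    by_contra hne
    exact hτ (schmidt_gal τ v w hv hwn hne hτv hτw)
  refine eq_of_isEquiv (k := K) σ v (fun y z => ?_) x
  have := heq.lt_iff_lt (x := y) (y := z)
  rw [hwx, hwx] at this
  exact this

open Classical in
/-- The local alternative for the closure of a cyclic group. -/
theorem exists_place (σ : Gal(AlgebraicClosure K/K)) :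
    ∃ v₀ : AbsoluteValue (AlgebraicClosure K) ℝ, (∀ x, v₀ (σ x) = v₀ x) ∧
      ∀ w : AbsoluteValue (AlgebraicClosure K) ℝ, w.IsNontrivial → ¬ v₀.IsEquiv w →
        ∀ τ : Gal(AlgebraicClosure K/K), (∀ x, σ x = x → τ x = x) → (∀ x, w (τ x) = w x) →
          τ = 1 := by
  -- the automorphisms in question commute with each other
  have hcomm : ∀ τ τ' : Gal(AlgebraicClosure K/K), (∀ x, σ x = x → τ x = x) →
      (∀ x, σ x = x → τ' x = x) → τ * τ' = τ' * τ := by
    intro τ τ' h h'
    ext x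
    obtain ⟨M, hxM, hfd, hG⟩ := exists_galois (k := K) x
    have := hfd
    have := hG
    obtain ⟨a, ha⟩ := exists_zpow σ τ h M
    obtain ⟨b, hb⟩ := exists_zpow σ τ' h' M
    have hstab : ∀ (ρ : Gal(AlgebraicClosure K/K)), ρ x ∈ M := by
      intro ρ
      have h1 := AlgEquiv.restrictNormalHom_apply M ρ ⟨x, hxM⟩
      rw [← h1]
      exact ((AlgEquiv.restrictNormalHom M ρ) ⟨x, hxM⟩).2
    rw [AlgEquiv.mul_apply, AlgEquiv.mul_apply, ha _ (hstab τ'), hb _ (hstab τ), hb x hxM, ha x hxM,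
      ← AlgEquiv.mul_apply, ← AlgEquiv.mul_apply, ← zpow_add, ← zpow_add, add_comm]
  by_cases hcase : ∃ (τ : Gal(AlgebraicClosure K/K)) (v : AbsoluteValue (AlgebraicClosure K) ℝ),
      (∀ x, σ x = x → τ x = x) ∧ τ ≠ 1 ∧ v.IsNontrivial ∧ ∀ x, v (τ x) = v x
  · obtain ⟨τ, v, hτ, hτ1, hv, hτv⟩ := hcase
    have hall : ∀ ρ : Gal(AlgebraicClosure K/K), (∀ x, σ x = x → ρ x = x) →
        ∀ x, v (ρ x) = v x := fun ρ hρ x =>
      preserved_of_commute ρ τ hτ1 (hcomm ρ τ hρ hτ) v hv hτv x
    refine ⟨v, hall σ fun x hx => hx, fun w hw hne ρ hρ hρw => ?_⟩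
    exact schmidt_gal ρ v w hv hw hne (hall ρ hρ) hρw
  · refine ⟨AbsoluteValue.trivial, ?_, ?_⟩
    · intro x
      by_cases hx : x = 0
      · rw [hx, map_zero]
      · rw [AbsoluteValue.trivial_apply hx, AbsoluteValue.trivial_apply]
        rwa [ne_eq, map_eq_zero]
    · intro w hw _ τ hτ hτw
      by_contra h1
      exact hcase ⟨τ, w, hτ, h1, hw, hτw⟩

end local_alt

end Pool.Agent.MP_0d9be2.H39
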