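import Pool.Agent.Lib.MP_0d9be2_nt.H39.LocC

/-!
# The share of the places that do not split does not grow in towers
-/

set_option autoImplicit false

open scoped NumberField Pointwise ComplexConjugate
open IsDedekindDomain NumberField

namespace Pool.Agent.MP_0d9be2.H39

open Pool.Agent.MP_0d9be2.H63

section

variable {K : Type} [Field K] [NumberField K]

omit [NumberField K] in
theorem isIntegral_closure (F : IntermediateField K (AlgebraicClosure K)) :
    Algebra.IsIntegral (𝓞 F) (𝓞 (AlgebraicClosure K)) := by
  constructor
  intro x
  have h1 : IsIntegral ℤ x := by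
    have h2 : IsIntegral ℤ (algebraMap (𝓞 (AlgebraicClosure K)) (AlgebraicClosure K) x) := x.2
    exact (isIntegral_algebraMap_iff NumberField.RingOfIntegers.coe_injective).1 h2
  exact h1.tower_top

section inf

variable (F M : IntermediateField K (AlgebraicClosure K)) [NumberField F]
  [FiniteDimensional K M] [IsGalois K M]

/-- Complete splitting at the infinite places. -/
theorem splitsAtInf_of_loc (w : InfinitePlace F)
    (h : ∀ ψ : AlgebraicClosure K →+* ℂ,
      InfinitePlace.mk (ψ.comp (algebraMap F (AlgebraicClosure K))) = w → LocInf F M ψ) :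
    SplitsAtInf K M F w := by
  intro L _ _ _ _ _ hc W hW
  have : FiniteDimensional F L := Module.Finite.of_restrictScalars_finite ℚ F L
  let ι : L →ₐ[F] AlgebraicClosure K := IsAlgClosed.lift
  obtain ⟨h1, h2⟩ := compositum_mem F M L hc ι
  rw [InfinitePlace.isUnramified_iff]
  by_cases hw : w.IsReal
  · left
    let _ : Algebra L (AlgebraicClosure K) := ι.toRingHom.toAlgebra
    let _ : Algebra L ℂ := W.embedding.toAlgebra
    have tow : IsScalarTower F L (AlgebraicClosure K) :=
      IsScalarTower.of_algebraMap_eq fun x => (ι.commutes x).symm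
    have halg : Algebra.IsAlgebraic L (AlgebraicClosure K) :=  by
      have h3 : Algebra.IsAlgebraic F (AlgebraicClosure K) :=
        Algebra.IsAlgebraic.tower_top (K := K) F
      exact Algebra.IsAlgebraic.tower_top (K := F) L
    let ψ : AlgebraicClosure K →ₐ[L] ℂ := IsAlgClosed.lift
    have hψ : ∀ x : L, ψ (ι x) = W.embedding x := fun x => ψ.commutes x
    have hψF : ∀ x : F, ψ (x : AlgebraicClosure K) = W.embedding (algebraMap F L x) := by
      intro x
      rw [← hψ, AlgHom.commutes]
      rfl
    have hmk : InfinitePlace.mk ((ψ : AlgebraicClosure K →+* ℂ).comp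
        (algebraMap F (AlgebraicClosure K))) = w := by
      rw [← hW, ← W.mk_embedding, InfinitePlace.comap_mk]
      congr 1
      ext x
      rw [RingHom.comp_apply, RingHom.comp_apply]
      exact hψF x
    have hreal : ∀ x ∈ F, conj (ψ x) = ψ x := by
      intro x hx
      have h3 : InfinitePlace.IsReal (InfinitePlace.mk ((ψ : AlgebraicClosure K →+* ℂ).comp
        (algebraMap F (AlgebraicClosure K)))) := by
        rw [hmk]
        exact hw
      rw [InfinitePlace.isReal_mk_iff] at h3
      exact congrArg (fun f : F →+* ℂ => f ⟨x, hx⟩) h3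
    have hM := h ψ hmk hreal
    rw [← W.mk_embedding, InfinitePlace.isReal_mk_iff]
    ext z
    rw [ComplexEmbedding.conjugate_coe_eq]
    have hz : z ∈ Algebra.adjoin F (Set.range (algebraMap M L)) := by
      rw [hc.2.2]
      exact Algebra.mem_top
    induction hz using Algebra.adjoin_induction with
    | mem x hx =>
      obtain ⟨y, rfl⟩ := hx
      rw [← hψ]
      exact hM _ (h1 y)
    | algebraMap r =>
      rw [← hψF]
      exact hreal _ r.2
    | add x y _ _ hx hy => rw [map_add, map_add, hx, hy]
    | mul x y _ _ hx hy => rw [map_mul, map_mul, hx, hy]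
  · right
    rw [hW]
    exact InfinitePlace.not_isReal_iff_isComplex.1 hw

omit [IsGalois K M] in
theorem loc_of_splitsAtInf (w : InfinitePlace F) (h : SplitsAtInf K M F w)
    (ψ : AlgebraicClosure K →+* ℂ)
    (hψ : InfinitePlace.mk (ψ.comp (algebraMap F (AlgebraicClosure K))) = w) : LocInf F M ψ := by
  intro hF x hx
  have nfM : NumberField M := NumberField.of_module_finite K M
  have nf : NumberField (comp F M) := numberField_comp F M
  let _ : Algebra M (comp F M) := (inclM F M).toAlgebra
  have hc : IsCompositum K M F (comp F M) := isCompositum_comp F M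
  have hW : (InfinitePlace.mk (ψ.comp (algebraMap (comp F M) (AlgebraicClosure K)))).comap
      (algebraMap F (comp F M)) = w := by
    rw [InfinitePlace.comap_mk, ← hψ]
    rfl
  have h1 := h (comp F M) hc _ hW
  rw [InfinitePlace.isUnramified_iff, hW, ← hψ] at h1
  rcases h1 with h1 | h1
  · rw [InfinitePlace.isReal_mk_iff] at h1
    exact congrArg (fun f : comp F M →+* ℂ => f ⟨x, (le_sup_right : M ≤ F ⊔ M) hx⟩) h1
  · exfalso
    rw [InfinitePlace.isComplex_mk_iff] at h1
    apply h1
    ext y
    exact hF _ y.2

end inf

/-- The share of the bad places does not grow. -/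
theorem shareUp (M F F' : IntermediateField K (AlgebraicClosure K)) (hle : F ≤ F')
    [FiniteDimensional K M] [IsGalois K M] [NumberField F] [NumberField F'] (m : ℕ) :
    (∀ v : HeightOneSpectrum (𝓞 K), m * badDeg K M F v ≤ Module.finrank K F →
      m * badDeg K M F' v ≤ Module.finrank K F') ∧
    (∀ v : InfinitePlace K, m * badInf K M F v ≤ Module.finrank K F →
      m * badInf K M F' v ≤ Module.finrank K F') := by
  classical
  let _ : Algebra F F' := (IntermediateField.inclusion hle).toRingHom.toAlgebra
  have tow : IsScalarTower K F F' := IsScalarTower.of_algebraMap_eq fun x => rfl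
  have fd1 : FiniteDimensional K F := Module.Finite.of_restrictScalars_finite ℚ K F
  have fd2 : FiniteDimensional F F' := Module.Finite.of_restrictScalars_finite ℚ F F'
  have hfin : Module.finrank K F * Module.finrank F F' = Module.finrank K F' :=
    Module.finrank_mul_finrank K F F'
  constructor
  · intro v hv
    have h1 : badDeg K M F' v ≤ badDeg K M F v * Module.finrank F F' := by
      unfold badDeg
      have hmaps : ∀ w ∈ (H15.fib F' v).filter (fun w => ¬ SplitsAt K M F' w),
          HeightOneSpectrum.under (𝓞 F) w ∈ (H15.fib F v).filter (fun w => ¬ SplitsAt K M F w) := by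
        intro w hw
        rw [Finset.mem_filter, H15.mem_fib] at hw
        rw [Finset.mem_filter, H15.mem_fib]
        have := hw.1
        refine ⟨Ideal.LiesOver.tower_bot w.asIdeal (w.asIdeal.under (𝓞 F)) v.asIdeal, fun hs => ?_⟩
        apply hw.2
        refine splitsAt_of_loc F' M w fun P hP hPw => ?_
        have h2 : P.under (𝓞 F) = (HeightOneSpectrum.under (𝓞 F) w).asIdeal := by
          change P.under (𝓞 F) = w.asIdeal.under (𝓞 F)
          rw [← hPw]
          ext x
          rfl
        exact (loc_of_splitsAt F M _ hs P hP h2).mono hle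
      rw [← Finset.sum_fiberwise_of_maps_to hmaps, Finset.sum_mul]
      refine Finset.sum_le_sum fun u hu => ?_
      calc ∑ w ∈ ((H15.fib F' v).filter (fun w => ¬ SplitsAt K M F' w)).filter
            (fun w => HeightOneSpectrum.under (𝓞 F) w = u),
            w.asIdeal.ramificationIdx (𝓞 K) * w.asIdeal.inertiaDeg (𝓞 K)
          = ∑ w ∈ ((H15.fib F' v).filter (fun w => ¬ SplitsAt K M F' w)).filter
            (fun w => HeightOneSpectrum.under (𝓞 F) w = u),
            (u.asIdeal.ramificationIdx (𝓞 K) * u.asIdeal.inertiaDeg (𝓞 K)) *
              (w.asIdeal.ramificationIdx (𝓞 F) * w.asIdeal.inertiaDeg (𝓞 F)) := by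
            refine Finset.sum_congr rfl fun w hw => ?_
            rw [Finset.mem_filter] at hw
            have hwu : w.asIdeal.LiesOver u.asIdeal := (H15.under_eq_iff w u).mp hw.2
            rw [Ideal.ramificationIdx_tower u.asIdeal w.asIdeal,
              Ideal.inertiaDeg_tower u.asIdeal w.asIdeal]
            ring
        _ ≤ ∑ w ∈ H15.fib F' u,
            (u.asIdeal.ramificationIdx (𝓞 K) * u.asIdeal.inertiaDeg (𝓞 K)) *
              (w.asIdeal.ramificationIdx (𝓞 F) * w.asIdeal.inertiaDeg (𝓞 F)) := by
            refine Finset.sum_le_sum_of_subset ?_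
            intro w hw
            rw [Finset.mem_filter] at hw
            rw [H15.mem_fib]
            exact (H15.under_eq_iff w u).mp hw.2
        _ = _ := by
            rw [← Finset.mul_sum, H15.sum_ef]
    calc m * badDeg K M F' v ≤ m * (badDeg K M F v * Module.finrank F F') :=
          Nat.mul_le_mul_left _ h1
      _ = (m * badDeg K M F v) * Module.finrank F F' := by ring
      _ ≤ Module.finrank K F * Module.finrank F F' := Nat.mul_le_mul_right _ hv
      _ = Module.finrank K F' := hfin
  · intro v hv
    have hmap : ∀ w : {w : InfinitePlace F' // w.comap (algebraMap K F') = v ∧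
        ¬ SplitsAtInf K M F' w}, (w.1.comap (algebraMap F F')).comap (algebraMap K F) = v ∧
          ¬ SplitsAtInf K M F (w.1.comap (algebraMap F F')) := by
      intro w
      refine ⟨?_, fun hs => ?_⟩
      · rw [← InfinitePlace.comap_comp, ← IsScalarTower.algebraMap_eq K F F']
        exact w.2.1
      · apply w.2.2
        refine splitsAtInf_of_loc F' M w.1 fun ψ hψ => ?_
        refine (loc_of_splitsAtInf F M _ hs ψ ?_).mono hle
        rw [← hψ, InfinitePlace.comap_mk]
        rfl
    let g : {w : InfinitePlace F' // w.comap (algebraMap K F') = v ∧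
        ¬ SplitsAtInf K M F' w} → {w : InfinitePlace F // w.comap (algebraMap K F) = v ∧
        ¬ SplitsAtInf K M F w} := fun w => ⟨w.1.comap (algebraMap F F'), hmap w⟩
    have h1 : badInf K M F' v ≤ badInf K M F v * Module.finrank F F' := by
      unfold badInf
      calc Nat.card {w : InfinitePlace F' // w.comap (algebraMap K F') = v ∧
            ¬ SplitsAtInf K M F' w}
          ≤ Nat.card (Σ u : {w : InfinitePlace F // w.comap (algebraMap K F) = v ∧
            ¬ SplitsAtInf K M F w}, {w : InfinitePlace F' //
              w.comap (algebraMap F F') = u.1}) := by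
            refine Nat.card_le_card_of_injective (fun w => ⟨g w, ⟨w.1, rfl⟩⟩) ?_
            intro w w' hww
            apply Subtype.ext
            exact congrArg (fun z : (Σ u : {w : InfinitePlace F // w.comap (algebraMap K F) = v ∧
              ¬ SplitsAtInf K M F w}, {w : InfinitePlace F' //
              w.comap (algebraMap F F') = u.1}) => z.2.1) hww
        _ ≤ _ := by
            rw [Nat.card_sigma]
            calc ∑ u : {w : InfinitePlace F // w.comap (algebraMap K F) = v ∧
                  ¬ SplitsAtInf K M F w}, Nat.card {w : InfinitePlace F' //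
                  w.comap (algebraMap F F') = u.1}
                ≤ ∑ u : {w : InfinitePlace F // w.comap (algebraMap K F) = v ∧
                  ¬ SplitsAtInf K M F w}, Module.finrank F F' :=
                  Finset.sum_le_sum fun u _ => H15.card_inf_le F F' u.1
              _ = _ := by
                  rw [Finset.sum_const, Finset.card_univ, smul_eq_mul, Nat.card_eq_fintype_card]
    calc m * badInf K M F' v ≤ m * (badInf K M F v * Module.finrank F F') :=
          Nat.mul_le_mul_left _ h1
      _ = (m * badInf K M F v) * Module.finrank F F' := by ring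
      _ ≤ Module.finrank K F * Module.finrank F F' := Nat.mul_le_mul_right _ hv
      _ = Module.finrank K F' := hfin

end

end Pool.Agent.MP_0d9be2.H39
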