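import Pool.Agent.Lib.MP_0d9be2_nt.H63.Step
import Pool.Agent.Lib.MP_0d9be2_nt.H39.Artin

/-!
# The step of the tower, with cyclic groups
-/

set_option autoImplicit false

open scoped NumberField Pointwise
open IsDedekindDomain NumberField

namespace Pool.Agent.MP_0d9be2.H39

open Pool.Agent.MP_0d9be2.H36 Pool.Agent.MP_0d9be2.H63

theorem cyclic_of_le {G : Type*} [Group G] {H K : Subgroup G} (h : H ≤ K) (hK : IsCyclic K) :
    IsCyclic H :=
  isCyclic_of_injective (Subgroup.inclusion h) (Subgroup.inclusion_injective h)

theorem cyclic_of_ker_le {D X Y : Type*} [Group D] [Group X] [Group Y]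
    (f : D →* X) (g : D →* Y) (hg : Function.Surjective g) (hker : f.ker ≤ g.ker)
    (hX : IsCyclic f.range) : IsCyclic Y := by
  have hf : Function.Surjective f.rangeRestrict := f.rangeRestrict_surjective
  have hker' : f.rangeRestrict.ker ≤ g.ker := by
    rw [MonoidHom.ker_rangeRestrict]
    exact hker
  let q : f.range →* Y := f.rangeRestrict.liftOfSurjective hf ⟨g, hker'⟩
  have hq : ∀ d, q (f.rangeRestrict d) = g d := by
    intro d
    exact MonoidHom.liftOfRightInverse_comp_apply _ _ _ ⟨g, hker'⟩ d
  refine isCyclic_of_surjective q (fun y => ?_)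
  obtain ⟨d, rfl⟩ := hg y
  exact ⟨f.rangeRestrict d, hq d⟩

theorem pHyper_of_cyclic {p : ℕ} (hp : p.Prime) {H : Type*} [Group H] [Finite H]
    (hH : IsCyclic H) : IsPHyper p H := by
  obtain ⟨g, hg⟩ := hH.exists_generator
  have h0 : Nat.card H ≠ 0 := Nat.card_pos.ne'
  obtain ⟨a, m, hm, ham⟩ := Nat.exists_eq_pow_mul_and_not_dvd h0 p hp.ne_one
  have hord : orderOf g = p ^ a * m := by
    rw [← ham]
    exact orderOf_eq_card_of_forall_mem_zpowers hg
  have hcard : Nat.card (Subgroup.zpowers (g ^ p ^ a)) = m := by
    rw [Nat.card_zpowers, orderOf_pow, hord, Nat.gcd_eq_right (Dvd.intro m rfl),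
      Nat.mul_div_cancel_left _ (pow_pos hp.pos a)]
  refine ⟨Subgroup.zpowers (g ^ p ^ a), ?_, inferInstance, ?_, a, ?_⟩
  · have hcomm : ∀ x y : H, x * y = y * x := by
      intro x y
      exact (IsCyclic.commGroup (α := H)).mul_comm x y
    constructor
    intro x hx y
    rw [hcomm y x, mul_assoc, mul_inv_cancel, mul_one]
    exact hx
  · rw [hcard]
    exact hm
  · have h1 := Subgroup.card_mul_index (Subgroup.zpowers (g ^ p ^ a))
    rw [hcard, ham, mul_comm (p ^ a) m] at h1
    have hm0 : 0 < m := by
      rcases Nat.eq_zero_or_pos m with h | h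
      · exact (hm (h ▸ dvd_zero p)).elim
      · exact h
    exact Nat.eq_of_mul_eq_mul_left hm0 h1

section

variable {K : Type} [Field K] [NumberField K]

/-- The exponents `k ≥ 1`. -/
def posSet : Set ℕ := {k | 0 < k}

/-- The step of the tower, with cyclic groups. -/
theorem stepC (hP : Primes_S) (hC : Curves_S) (hMin : Minimal_S) (hSplit : Split_S)
    (hT : ShareTower_S) (hI : ShareIso_S) (E : WeierstrassCurve K)
    [E.IsElliptic] (F M : IntermediateField K (AlgebraicClosure K)) [FiniteDimensional K M]
    [IsGalois K M] (hF : BadAt posSet E F) (m : ℕ) :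
    ∃ F' : IntermediateField K (AlgebraicClosure K), F ≤ F' ∧ BadAt posSet E F' ∧
      IsCyclic (F'.fixingSubgroup.map
        (AlgEquiv.restrictNormalHom M : Gal(AlgebraicClosure K/K) →* Gal(M/K))) ∧
      ∀ _ : NumberField F',
        (∀ v : HeightOneSpectrum (𝓞 K), m * badDeg K M F' v ≤ Module.finrank K F') ∧
        (∀ v : InfinitePlace K, m * badInf K M F' v ≤ Module.finrank K F') := by
  obtain ⟨nfF, hbad⟩ := hF
  have nf1 : NumberField M := NumberField.of_module_finite K M
  have nf2 : NumberField (comp F M) := numberField_comp F M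
  have gal2 : IsGalois F (comp F M) := isGalois_comp F M
  obtain ⟨N, _, _, _, _, _, _, hN⟩ := hSplit F (comp F M) m
  have : FiniteDimensional F N := Module.Finite.of_restrictScalars_finite ℚ F N
  obtain ⟨T, n, hT', hrel⟩ := artin Gal(N/F)
  -- a bad subgroup
  obtain ⟨H, hHT, hHbad⟩ : ∃ H ∈ T, Bad posSet
      ((E.map (algebraMap K F)).map (algebraMap F (IntermediateField.fixedField H))) := by
    by_contra hcon
    push Not at hcon
    have hcon' : ∀ H ∈ T, ∃ k : ℕ, 0 < k ∧ PowerContinues
        ((E.map (algebraMap K F)).map (algebraMap F (IntermediateField.fixedField H))) k := by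
      intro H hH
      have := hcon H hH
      unfold Bad at this
      push Not at this
      exact this
    choose! k hk hkc using hcon'
    have h1 := power_prod hP hC hMin F N (E.map (algebraMap K F)) T n (Nat.card Gal(N/F)) hrel k hkc
    refine hbad _ ?_ h1
    exact Nat.mul_pos Nat.card_pos (Finset.prod_pos hk)
  have hH : IsCyclic H := hT' H hHT
  -- the embedding
  have alg1 : Algebra.IsAlgebraic (comp F M) N := by
    have : Module.Finite (comp F M) N := Module.Finite.of_restrictScalars_finite ℚ _ _
    exact Algebra.IsAlgebraic.of_finite _ _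
  let ι : N →ₐ[comp F M] AlgebraicClosure K := IsAlgClosed.lift
  let ιF : N →ₐ[F] AlgebraicClosure K := ι.restrictScalars F
  let X : IntermediateField F (AlgebraicClosure K) := (IntermediateField.fixedField H).map ιF
  let F' : IntermediateField K (AlgebraicClosure K) := X.restrictScalars K
  let e : IntermediateField.fixedField H ≃ₐ[F] X := IntermediateField.equivMap _ ιF
  have nfX : NumberField X := NumberField.of_ringEquiv _ _ e.toRingEquiv
  have nfF' : NumberField F' := nfX
  have hFF' : F ≤ F' := fun x hx => X.algebraMap_mem ⟨x, hx⟩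
  refine ⟨F', hFF', ⟨nfF', ?_⟩, ?_, ?_⟩
  · intro k hk hcont
    let e' : F' ≃+* IntermediateField.fixedField H := e.symm.toRingEquiv
    have h1 := powerContinues_map e' _ k hcont
    have h2 : (E.map (algebraMap K F')).map e'.toRingHom =
        (E.map (algebraMap K F)).map (algebraMap F (IntermediateField.fixedField H)) := by
      rw [WeierstrassCurve.map_map, WeierstrassCurve.map_map]
      congr 1
      ext x
      have h3 : e.symm (algebraMap F X (algebraMap K F x)) =
        algebraMap F (IntermediateField.fixedField H) (algebraMap K F x) := e.symm.commutes _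
      exact congrArg _ h3
    rw [h2] at h1
    exact hHbad k hk h1
  · -- the Galois group
    let algN : Algebra N (AlgebraicClosure K) := ιF.toRingHom.toAlgebra
    have tow1 : IsScalarTower F N (AlgebraicClosure K) := IsScalarTower.of_algebraMap_eq fun x =>
      (ιF.commutes x).symm
    let j : ↥F'.fixingSubgroup →* ↥F.fixingSubgroup :=
      Subgroup.inclusion (IntermediateField.fixingSubgroup_le hFF')
    let f : ↥F'.fixingSubgroup →* Gal(N/F) :=
      (AlgEquiv.restrictNormalHom N).comp
        ((IntermediateField.fixingSubgroupEquiv F).toMonoidHom.comp j)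
    have hf : ∀ (σ : ↥F'.fixingSubgroup) (x : N), ιF (f σ x) = σ.1 (ιF x) := by
      intro σ x
      exact AlgEquiv.restrictNormal_commutes
        (IntermediateField.fixingSubgroupEquiv F (j σ)) N x
    refine cyclic_of_ker_le f
      ((AlgEquiv.restrictNormalHom M : Gal(AlgebraicClosure K/K) →* Gal(M/K)).subgroupMap
        F'.fixingSubgroup) (MonoidHom.subgroupMap_surjective _ _) ?_ ?_
    · intro σ hσ
      rw [MonoidHom.mem_ker] at hσ ⊢
      apply Subtype.ext
      change AlgEquiv.restrictNormalHom M σ.1 = 1
      ext y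
      rw [AlgEquiv.restrictNormalHom_apply]
      have h1 : ιF (algebraMap (comp F M) N (inclM F M y)) = (y : AlgebraicClosure K) :=
        ι.commutes (inclM F M y)
      have h2 := hf σ (algebraMap (comp F M) N (inclM F M y))
      rw [hσ] at h2
      rw [AlgEquiv.one_apply, h1] at h2
      exact h2.symm
    · refine cyclic_of_le ?_ hH
      rintro _ ⟨σ, rfl⟩
      rw [← IntermediateField.fixingSubgroup_fixedField H,
        IntermediateField.mem_fixingSubgroup_iff]
      intro x hx
      apply ιF.injective
      refine (hf σ x).trans ?_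
      have h3 : ιF x ∈ F' := ⟨x, hx, rfl⟩
      exact (IntermediateField.mem_fixingSubgroup_iff _ _).1 σ.2 _ h3
  · intro nfF''
    let _ : Algebra M (comp F M) := (inclM F M).toAlgebra
    obtain ⟨hfin, hinf⟩ := hN 2 Nat.prime_two H (pHyper_of_cyclic Nat.prime_two hH)
    have hfr : Module.finrank F (IntermediateField.fixedField H) = Module.finrank F X :=
      e.toLinearEquiv.finrank_eq
    have hiso := hI F (comp F M) (IntermediateField.fixedField H) X e
    have htow := hT K M F (comp F M) X (isCompositum_comp F M) m
    let e2 : X ≃ₐ[K] F' := AlgEquiv.refl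
    have hiso2 := hI K M X F' e2
    have hfr2 : Module.finrank K X = Module.finrank K F' := e2.toLinearEquiv.finrank_eq
    refine ⟨fun v => ?_, fun v => ?_⟩
    · rw [hiso2.1, ← hfr2]
      refine htow.1 (fun u => ?_) v
      rw [hiso.1, ← hfr]
      exact hfin u
    · rw [hiso2.2, ← hfr2]
      refine htow.2 (fun u => ?_) v
      rw [hiso.2, ← hfr]
      exact hinf u

end

end Pool.Agent.MP_0d9be2.H39
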