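import Mathlib

/-!
# The `N`-torsion of an elliptic curve over a field of characteristic zero is finite

For `W` over a field `K` of characteristic `0` and `N ≥ 1` there is a nonzero polynomial `Q` over
`K` such that `Q(x(P)) = 0` for every point `P ≠ 0` with `N P = 0` over every extension field.
-/

set_option autoImplicit false

open Polynomial WeierstrassCurve WeierstrassCurve.Affine

namespace Pool.Agent.MP_0d9be2.H39

section formulas

variable {Ω : Type} [Field Ω]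

theorem prod_identity (V : Affine Ω) {x₁ y₁ x₂ y₂ : Ω} (h₁ : V.Equation x₁ y₁)
    (h₂ : V.Equation x₂ y₂) (hx : x₁ ≠ x₂) :
    V.addX x₁ x₂ ((y₁ - y₂) / (x₁ - x₂)) * V.addX x₁ x₂ ((y₁ - V.negY x₂ y₂) / (x₁ - x₂)) *
      (x₁ - x₂) ^ 2 = (x₁ * x₂) ^ 2 - V.b₄ * (x₁ * x₂) - V.b₆ * (x₁ + x₂) - V.b₈ := by
  have e₁ := (V.equation_iff x₁ y₁).mp h₁
  have e₂ := (V.equation_iff x₂ y₂).mp h₂
  have hne : x₁ - x₂ ≠ 0 := sub_ne_zero.mpr hx
  set δ := x₁ - x₂ with hδ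
  set S := y₁ - y₂ with hS
  set T := y₁ - V.negY x₂ y₂ with hT
  set u := x₁ ^ 2 + x₁ * x₂ + x₂ ^ 2 + V.a₂ * (x₁ + x₂) + V.a₄ - V.a₁ * y₁ with hu
  set h := V.a₂ + x₁ + x₂ with hh
  have hT' : T = y₁ + y₂ + V.a₁ * x₂ + V.a₃ := by
    rw [hT, negY]
    ring
  have hST : S * T = δ * u := by
    rw [hT', hS, hδ, hu]
    linear_combination e₁ - e₂
  have hN : (S ^ 2 + V.a₁ * S * δ - h * δ ^ 2) * (T ^ 2 + V.a₁ * T * δ - h * δ ^ 2) =
      δ ^ 2 * (u ^ 2 + V.a₁ * u * (S + T) + V.a₁ ^ 2 * u * δ + 2 * h * δ * u - h * (S + T) ^ 2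
        - V.a₁ * h * δ * (S + T) + h ^ 2 * δ ^ 2) := by
    linear_combination (S * T + δ * u + V.a₁ * δ * (S + T) + V.a₁ ^ 2 * δ ^ 2 + 2 * h * δ ^ 2) * hST
  have hX : V.addX x₁ x₂ (S / δ) = (S ^ 2 + V.a₁ * S * δ - h * δ ^ 2) / δ ^ 2 := by
    rw [addX, hh]
    field_simp
    ring
  have hX' : V.addX x₁ x₂ (T / δ) = (T ^ 2 + V.a₁ * T * δ - h * δ ^ 2) / δ ^ 2 := by
    rw [addX, hh]
    field_simp
    ring
  rw [hX, hX', div_mul_div_comm, hN]
  have h4 : δ ^ 2 * (u ^ 2 + V.a₁ * u * (S + T) + V.a₁ ^ 2 * u * δ + 2 * h * δ * u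
      - h * (S + T) ^ 2 - V.a₁ * h * δ * (S + T) + h ^ 2 * δ ^ 2) / (δ ^ 2 * δ ^ 2) * δ ^ 2
      = u ^ 2 + V.a₁ * u * (S + T) + V.a₁ ^ 2 * u * δ + 2 * h * δ * u
      - h * (S + T) ^ 2 - V.a₁ * h * δ * (S + T) + h ^ 2 * δ ^ 2 := by
    field_simp
  rw [h4, hT', hS, hδ, hu, hh]
  simp only [b₄, b₆, b₈]
  linear_combination (-(V.a₁ ^ 2 + 4 * (V.a₂ + x₁ + x₂))) * e₁

variable [DecidableEq Ω] {V : Affine Ω}

theorem prod_formula {x₁ y₁ x₂ y₂ : Ω} (h₁ : V.Nonsingular x₁ y₁) (h₂ : V.Nonsingular x₂ y₂)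
    (hx : x₁ ≠ x₂) : ∃ (X Y X' Y' : Ω) (h : V.Nonsingular X Y) (h' : V.Nonsingular X' Y'),
      Point.some x₁ y₁ h₁ + Point.some x₂ y₂ h₂ = Point.some X Y h ∧
      Point.some x₁ y₁ h₁ - Point.some x₂ y₂ h₂ = Point.some X' Y' h' ∧
      X * X' * (x₁ - x₂) ^ 2 = (x₁ * x₂) ^ 2 - V.b₄ * (x₁ * x₂) - V.b₆ * (x₁ + x₂) - V.b₈ := by
  have h₂' : V.Nonsingular x₂ (V.negY x₂ y₂) := (V.nonsingular_neg x₂ y₂).mpr h₂
  refine ⟨V.addX x₁ x₂ (V.slope x₁ x₂ y₁ y₂), V.addY x₁ x₂ y₁ (V.slope x₁ x₂ y₁ y₂),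
    V.addX x₁ x₂ (V.slope x₁ x₂ y₁ (V.negY x₂ y₂)),
    V.addY x₁ x₂ y₁ (V.slope x₁ x₂ y₁ (V.negY x₂ y₂)),
    nonsingular_add h₁ h₂ fun hxy => hx hxy.1, nonsingular_add h₁ h₂' fun hxy => hx hxy.1,
    Point.add_of_X_ne hx, ?_, ?_⟩
  · rw [sub_eq_add_neg, Point.neg_some]
    exact Point.add_of_X_ne hx
  · rw [slope_of_X_ne hx, slope_of_X_ne hx]
    exact prod_identity V h₁.1 h₂.1 hx

theorem dup_formula {x y : Ω} (h : V.Nonsingular x y)
    (hy : 4 * x ^ 3 + V.b₂ * x ^ 2 + 2 * V.b₄ * x + V.b₆ ≠ 0) :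
    ∃ (X Y : Ω) (h' : V.Nonsingular X Y), Point.some x y h + Point.some x y h = Point.some X Y h' ∧
      X * (4 * x ^ 3 + V.b₂ * x ^ 2 + 2 * V.b₄ * x + V.b₆)
        = x ^ 4 - V.b₄ * x ^ 2 - 2 * V.b₆ * x - V.b₈ := by
  have e := (V.equation_iff x y).mp h.1
  have hsq : (y - V.negY x y) ^ 2 = 4 * x ^ 3 + V.b₂ * x ^ 2 + 2 * V.b₄ * x + V.b₆ := by
    simp only [negY, b₂, b₄, b₆]
    linear_combination 4 * e
  have hne : y ≠ V.negY x y := by
    intro h0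
    rw [← hsq, ← h0, sub_self] at hy
    exact hy (by ring)
  have hne' : y - V.negY x y ≠ 0 := sub_ne_zero.mpr hne
  refine ⟨_, _, _, Point.add_self_of_Y_ne hne, ?_⟩
  rw [← hsq, slope_of_Y_ne rfl hne]
  have hd : y - V.negY x y = 2 * y + V.a₁ * x + V.a₃ := by
    rw [negY]
    ring
  rw [hd] at hne' ⊢
  set D := 2 * y + V.a₁ * x + V.a₃ with hD
  set n := 3 * x ^ 2 + 2 * V.a₂ * x + V.a₄ - V.a₁ * y with hn
  have hX : V.addX x x (n / D) * D ^ 2 = n ^ 2 + V.a₁ * n * D - (V.a₂ + 2 * x) * D ^ 2 := by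
    rw [addX]
    field_simp
    ring
  rw [hX, hn, hD]
  simp only [b₄, b₆, b₈]
  linear_combination (-(V.a₁ ^ 2 + 4 * V.a₂ + 8 * x)) * e

end formulas

/-! ### Polynomials with a given top coefficient -/

section top

variable {K : Type} [Field K]

/-- `p` has degree at most `n` and coefficient `c` at `X ^ n`. -/
def HasTop (p : K[X]) (n : ℕ) (c : K) : Prop := p.natDegree ≤ n ∧ p.coeff n = c

theorem HasTop.mul {p q : K[X]} {n m : ℕ} {c d : K} (hp : HasTop p n c) (hq : HasTop q m d) :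
    HasTop (p * q) (n + m) (c * d) :=
  ⟨natDegree_mul_le_of_le hp.1 hq.1, by rw [coeff_mul_add_eq_of_natDegree_le hp.1 hq.1, hp.2, hq.2]⟩

theorem HasTop.sub {p q : K[X]} {n : ℕ} {c d : K} (hp : HasTop p n c) (hq : HasTop q n d) :
    HasTop (p - q) n (c - d) :=
  ⟨(natDegree_sub_le_of_le hp.1 hq.1).trans (by simp), by rw [coeff_sub, hp.2, hq.2]⟩

theorem HasTop.add {p q : K[X]} {n : ℕ} {c d : K} (hp : HasTop p n c) (hq : HasTop q n d) :
    HasTop (p + q) n (c + d) :=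
  ⟨(natDegree_add_le_of_le hp.1 hq.1).trans (by simp), by rw [coeff_add, hp.2, hq.2]⟩

theorem HasTop.low {p : K[X]} {n m : ℕ} {c : K} (hp : HasTop p n c) (h : n < m) :
    HasTop p m 0 :=
  ⟨hp.1.trans h.le, coeff_eq_zero_of_natDegree_lt (lt_of_le_of_lt hp.1 h)⟩

theorem hasTop_C (c : K) : HasTop (C c) 0 c := ⟨by simp, by simp⟩

theorem hasTop_X : HasTop (X : K[X]) 1 1 := ⟨natDegree_X_le, by simp⟩

theorem HasTop.ne_zero {p : K[X]} {n : ℕ} {c : K} (hp : HasTop p n c) (hc : c ≠ 0) : p ≠ 0 := by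
  rintro rfl
  exact hc (by rw [← hp.2, coeff_zero])

/-- The property proved by induction: outside the zeros of a polynomial `Q` in `x(P)`, `m P` is not
zero and its `x`-coordinate is `A(x(P)) / B(x(P))`. -/
def Good (W : WeierstrassCurve K) (m : ℕ) : Prop :=
  ∃ (A B Q : K[X]) (a : ℕ) (α : K), α ≠ 0 ∧ HasTop A (a + 1) α ∧ HasTop B a (α * (m : K) ^ 2) ∧
    Q ≠ 0 ∧ ∀ (Ω : Type) [Field Ω] [DecidableEq Ω] [Algebra K Ω] (x y : Ω)
      (h : (W.map (algebraMap K Ω)).toAffine.Nonsingular x y), aeval x Q ≠ 0 →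
      ∃ (X' Y' : Ω) (h' : (W.map (algebraMap K Ω)).toAffine.Nonsingular X' Y'),
        m • Point.some x y h = Point.some X' Y' h' ∧ X' * aeval x B = aeval x A ∧
          aeval x B ≠ 0

theorem good_one (W : WeierstrassCurve K) : Good W 1 := by
  refine ⟨X, C 1, C 1, 0, 1, one_ne_zero, hasTop_X, ?_, ?_, ?_⟩
  · simpa using hasTop_C (1 : K)
  · simp
  · intro Ω _ _ _ x y h _
    exact ⟨x, y, h, one_nsmul _, by simp, by simp⟩

theorem good_two (W : WeierstrassCurve K) [CharZero K] : Good W 2 := by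
  have hX2 : HasTop (X * X : K[X]) 2 1 := by simpa using hasTop_X.mul (hasTop_X (K := K))
  have hX3 : HasTop (X * X * X : K[X]) 3 1 := by simpa using hX2.mul (hasTop_X (K := K))
  have hX4 : HasTop (X * X * X * X : K[X]) 4 1 := by simpa using hX3.mul (hasTop_X (K := K))
  have hA : HasTop (X * X * X * X - C W.b₄ * (X * X) - C (2 * W.b₆) * X - C W.b₈ : K[X]) 4 1 := by
    have h1 : HasTop (C W.b₄ * (X * X)) 4 0 := ((hasTop_C W.b₄).mul hX2).low (by norm_num)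
    have h2 : HasTop (C (2 * W.b₆) * X) 4 0 :=
      ((hasTop_C (2 * W.b₆)).mul hasTop_X).low (by norm_num)
    have h3 : HasTop (C W.b₈) 4 0 := (hasTop_C W.b₈).low (by norm_num)
    simpa using ((hX4.sub h1).sub h2).sub h3
  have hB : HasTop (C 4 * (X * X * X) + C W.b₂ * (X * X) + C (2 * W.b₄) * X + C W.b₆ : K[X]) 3 4 := by
    have h0 : HasTop (C 4 * (X * X * X) : K[X]) 3 4 := by simpa using (hasTop_C (4 : K)).mul hX3
    have h1 : HasTop (C W.b₂ * (X * X)) 3 0 := ((hasTop_C W.b₂).mul hX2).low (by norm_num)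
    have h2 : HasTop (C (2 * W.b₄) * X) 3 0 :=
      ((hasTop_C (2 * W.b₄)).mul hasTop_X).low (by norm_num)
    have h3 : HasTop (C W.b₆) 3 0 := (hasTop_C W.b₆).low (by norm_num)
    simpa using ((h0.add h1).add h2).add h3
  have hB' : HasTop (C 4 * (X * X * X) + C W.b₂ * (X * X) + C (2 * W.b₄) * X + C W.b₆ : K[X]) 3
      (1 * ((2 : ℕ) : K) ^ 2) := by
    convert hB using 1
    norm_num
  refine ⟨_, _, _, 3, 1, one_ne_zero, hA, hB', hB.ne_zero (by norm_num), ?_⟩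
  · intro Ω _ _ _ x y h hQ
    have hev : aeval x (C 4 * (X * X * X) + C W.b₂ * (X * X) + C (2 * W.b₄) * X + C W.b₆ : K[X])
        = 4 * x ^ 3 + (W.map (algebraMap K Ω)).b₂ * x ^ 2 + 2 * (W.map (algebraMap K Ω)).b₄ * x
          + (W.map (algebraMap K Ω)).b₆ := by
      simp only [map_add, map_mul, aeval_C, aeval_X, map_ofNat, WeierstrassCurve.map_b₂,
        WeierstrassCurve.map_b₄, WeierstrassCurve.map_b₆]
      ring
    have hev2 : aeval x (X * X * X * X - C W.b₄ * (X * X) - C (2 * W.b₆) * X - C W.b₈ : K[X])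
        = x ^ 4 - (W.map (algebraMap K Ω)).b₄ * x ^ 2 - 2 * (W.map (algebraMap K Ω)).b₆ * x
          - (W.map (algebraMap K Ω)).b₈ := by
      simp only [map_sub, map_mul, aeval_C, aeval_X, map_ofNat, WeierstrassCurve.map_b₈,
        WeierstrassCurve.map_b₄, WeierstrassCurve.map_b₆]
      ring
    rw [hev] at hQ
    obtain ⟨X', Y', h', e1, e2⟩ := dup_formula h hQ
    refine ⟨X', Y', h', by rw [two_nsmul, e1], ?_, ?_⟩
    · rw [hev, hev2, e2]
    · rw [hev]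
      exact hQ

theorem good_step (W : WeierstrassCurve K) [CharZero K] (m : ℕ) (hm : 0 < m) (h0 : Good W m)
    (h1 : Good W (m + 1)) : Good W (m + 2) := by
  obtain ⟨A', B', Q', a', α', hα', hA', hB', hQ', H'⟩ := h0
  obtain ⟨A, B, Q, a, α, hα, hA, hB, hQ, H⟩ := h1
  have hm0 : (m : K) ≠ 0 := by exact_mod_cast hm.ne'
  have hm2 : (m : K) + 2 ≠ 0 := by exact_mod_cast (by omega : m + 2 ≠ 0)
  have hXB : HasTop (X * B) (a + 1) (α * ((m + 1 : ℕ) : K) ^ 2) := by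
    have := hasTop_X.mul hB
    rwa [add_comm 1 a, one_mul] at this
  have hD : HasTop (A - X * B) (a + 1) (α - α * ((m + 1 : ℕ) : K) ^ 2) := hA.sub hXB
  have hD0 : α - α * ((m + 1 : ℕ) : K) ^ 2 ≠ 0 := by
    have : α - α * ((m + 1 : ℕ) : K) ^ 2 = -(α * (m : K) * ((m : K) + 2)) := by
      push_cast
      ring
    rw [this]
    exact neg_ne_zero.mpr (mul_ne_zero (mul_ne_zero hα hm0) hm2)
  have hAX : HasTop (A * X) (a + 2) α := by simpa using hA.mul (hasTop_X (K := K))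
  have hG : HasTop ((A * X) * (A * X) - C W.b₄ * (A * X * B) - C W.b₆ * ((A + X * B) * B)
      - C W.b₈ * (B * B)) (a + 2 + (a + 2)) (α * α) := by
    have g1 : HasTop (C W.b₄ * (A * X * B)) (a + 2 + (a + 2)) 0 :=
      ((hasTop_C W.b₄).mul (hAX.mul hB)).low (by omega)
    have g2 : HasTop (C W.b₆ * ((A + X * B) * B)) (a + 2 + (a + 2)) 0 :=
      ((hasTop_C W.b₆).mul ((hA.add hXB).mul hB)).low (by omega)
    have g3 : HasTop (C W.b₈ * (B * B)) (a + 2 + (a + 2)) 0 :=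
      ((hasTop_C W.b₈).mul (hB.mul hB)).low (by omega)
    simpa using (((hAX.mul hAX).sub g1).sub g2).sub g3
  refine ⟨((A * X) * (A * X) - C W.b₄ * (A * X * B) - C W.b₆ * ((A + X * B) * B)
      - C W.b₈ * (B * B)) * B', (A - X * B) * (A - X * B) * A',
      Q * Q' * (A - X * B) * A', 2 * a + a' + 3, α * α * (α' * (m : K) ^ 2), ?_, ?_, ?_, ?_, ?_⟩
  · exact mul_ne_zero (mul_ne_zero hα hα) (mul_ne_zero hα' (pow_ne_zero 2 hm0))
  · have := hG.mul hB'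
    have e : a + 2 + (a + 2) + a' = 2 * a + a' + 3 + 1 := by ring
    rwa [e] at this
  · have := (hD.mul hD).mul hA'
    have e : a + 1 + (a + 1) + (a' + 1) = 2 * a + a' + 3 := by ring
    rw [e] at this
    convert this using 1
    push_cast
    ring
  · exact mul_ne_zero (mul_ne_zero (mul_ne_zero hQ hQ') (hD.ne_zero hD0)) (hA'.ne_zero hα')
  · intro Ω _ _ _ x y h hx
    simp only [map_mul, mul_ne_zero_iff] at hx
    obtain ⟨⟨⟨q1, q2⟩, q3⟩, q4⟩ := hx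
    obtain ⟨X₁, Y₁, n₁, e₁, f₁, g₁⟩ := H Ω x y h q1
    obtain ⟨X₀, Y₀, n₀, e₀, f₀, g₀⟩ := H' Ω x y h q2
    have hdiff : (X₁ - x) * aeval x B = aeval x (A - X * B) := by
      rw [map_sub, map_mul, aeval_X, sub_mul, f₁]
    have hne : X₁ ≠ x := by
      intro h2
      rw [h2, sub_self, zero_mul] at hdiff
      exact q3 hdiff.symm
    obtain ⟨X₂, Y₂, X₃, Y₃, n₂, n₃, p₂, p₃, p₄⟩ := prod_formula n₁ h hne
    have h5 : (m + 2) • Point.some x y h = Point.some X₂ Y₂ n₂ := by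
      rw [← p₂, ← e₁, ← succ_nsmul]
    have h6 : Point.some X₀ Y₀ n₀ = Point.some X₃ Y₃ n₃ := by
      rw [← p₃, ← e₁, ← e₀, succ_nsmul, add_sub_cancel_right]
    have h7 : X₀ = X₃ := by
      injection h6
    refine ⟨X₂, Y₂, n₂, h5, ?_, ?_⟩
    · rw [← h7] at p₄
      simp only [map_mul, map_sub, map_add, aeval_X, aeval_C, WeierstrassCurve.map_b₄,
        WeierstrassCurve.map_b₆, WeierstrassCurve.map_b₈] at p₄ hdiff ⊢
      rw [← hdiff, ← f₀, ← f₁]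
      linear_combination (aeval x B) ^ 2 * (aeval x B') * p₄
    · simp only [map_mul]
      exact mul_ne_zero (mul_ne_zero q3 q3) q4

theorem good (W : WeierstrassCurve K) [CharZero K] (m : ℕ) (hm : 0 < m) : Good W m := by
  induction m using Nat.strong_induction_on with
  | _ m ih =>
    match m, hm with
    | 1, _ => exact good_one W
    | 2, _ => exact good_two W
    | k + 3, _ =>
      exact good_step W (k + 1) (Nat.succ_pos k) (ih (k + 1) (by omega) (Nat.succ_pos k))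
        (ih (k + 2) (by omega) (by omega))

/-- The `N`-torsion points have `x`-coordinate a root of a fixed nonzero polynomial. -/
theorem exists_torsion_poly (W : WeierstrassCurve K) [CharZero K] (N : ℕ) (hN : 0 < N) :
    ∃ Q : K[X], Q ≠ 0 ∧ ∀ (Ω : Type) [Field Ω] [DecidableEq Ω] [Algebra K Ω] (x y : Ω)
      (h : (W.map (algebraMap K Ω)).toAffine.Nonsingular x y),
      N • Point.some x y h = 0 → aeval x Q = 0 := by
  obtain ⟨A, B, Q, a, α, -, -, -, hQ, H⟩ := good W N hN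
  refine ⟨Q, hQ, fun Ω _ _ _ x y h h0 => ?_⟩
  by_contra hcon
  obtain ⟨X', Y', h', e, -, -⟩ := H Ω x y h hcon
  rw [h0] at e
  exact Point.some_ne_zero h' e.symm

end top

end Pool.Agent.MP_0d9be2.H39
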