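import Pool.Agent.Lib.MP_0d9be2_nt.Defs2

/-!
# MP_0d9be2_nt, PART 5.2: points of a curve and of its quadratic twist over a finite field
-/

set_option autoImplicit false

open Finset

namespace Pool.Agent.MP_0d9be2.H39

open Pool.Agent.MP_0d9be2

theorem short_eq {R : Type} [CommRing R] (A B x y : R) :
    (short A B).toAffine.Equation x y ↔ y ^ 2 = x ^ 3 + A * x + B := by
  rw [WeierstrassCurve.Affine.equation_iff]
  simp [short]

theorem short_map {R S : Type} [CommRing R] [CommRing S] (f : R →+* S) (A B : R) :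
    (short A B).map f = short (f A) (f B) := by
  simp [short, WeierstrassCurve.map]

theorem short_disc {R : Type} [CommRing R] (A B : R) :
    (short A B).Δ = -16 * (4 * A ^ 3 + 27 * B ^ 2) := by
  simp only [short, WeierstrassCurve.Δ, WeierstrassCurve.b₂, WeierstrassCurve.b₄,
    WeierstrassCurve.b₆, WeierstrassCurve.b₈]
  ring

section

variable {k : Type} [Field k] [Fintype k] [DecidableEq k]

theorem cnt_short (h2 : ringChar k ≠ 2) (A B : k) :
    (cnt (short A B) : ℤ) = Fintype.card k + ∑ x : k, quadraticChar k (x ^ 3 + A * x + B) := by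
  classical
  have h1 : cnt (short A B) = ∑ x : k, #{y : k | y ^ 2 = x ^ 3 + A * x + B}.toFinset := by
    unfold cnt
    have e : {xy : k × k // (short A B).toAffine.Equation xy.1 xy.2} ≃
        Σ x : k, {y : k // y ^ 2 = x ^ 3 + A * x + B} :=
      { toFun := fun p => ⟨p.1.1, p.1.2, (short_eq A B _ _).mp p.2⟩
        invFun := fun p => ⟨(p.1, p.2.1), (short_eq A B _ _).mpr p.2.2⟩
        left_inv := fun p => rfl
        right_inv := fun p => rfl }
    rw [Nat.card_congr e, Nat.card_eq_fintype_card, Fintype.card_sigma]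
    refine Finset.sum_congr rfl fun x _ => ?_
    rw [Set.toFinset_card]
    rfl
  rw [h1]
  push_cast
  rw [Finset.sum_congr rfl fun x _ => quadraticChar_card_sqrts h2 (x ^ 3 + A * x + B),
    Finset.sum_add_distrib]
  simp [add_comm]

theorem cnt_twist (h2 : ringChar k ≠ 2) (A B d : k) (hd : d ≠ 0) :
    (cnt (short (d ^ 2 * A) (d ^ 3 * B)) : ℤ) = Fintype.card k
      + quadraticChar k d * ∑ x : k, quadraticChar k (x ^ 3 + A * x + B) := by
  rw [cnt_short h2]
  congr 1
  rw [Finset.mul_sum]
  refine (Fintype.sum_equiv (Equiv.mulLeft₀ d hd) _ _ fun x => ?_).symm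
  rw [Equiv.mulLeft₀_apply]
  have : (d * x) ^ 3 + d ^ 2 * A * (d * x) + d ^ 3 * B = d ^ 2 * (d * (x ^ 3 + A * x + B)) := by
    ring
  rw [this, map_mul, map_mul, quadraticChar_sq_one' hd, one_mul]

end

theorem cnt_twist_square {k : Type} [Field k] [Finite k] (h2 : (2 : k) ≠ 0) (A B d : k)
    (hd : d ≠ 0) (hsq : IsSquare d) :
    cnt (short (d ^ 2 * A) (d ^ 3 * B)) = cnt (short A B) := by
  classical
  haveI := Fintype.ofFinite k
  have hc : ringChar k ≠ 2 := fun h => h2 (by
    have := ringChar.Nat.cast_ringChar (R := k)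
    rw [h] at this
    exact_mod_cast this)
  have h1 := cnt_twist hc A B d hd
  have h3 := cnt_short hc A B
  rw [(quadraticChar_one_iff_isSquare hd).mpr hsq, one_mul, ← h3] at h1
  exact_mod_cast h1

theorem cnt_twist_nonsquare {k : Type} [Field k] [Finite k] (h2 : (2 : k) ≠ 0) (A B d : k)
    (hsq : ¬ IsSquare d) :
    (cnt (short (d ^ 2 * A) (d ^ 3 * B)) : ℤ) + cnt (short A B) = 2 * Nat.card k := by
  classical
  haveI := Fintype.ofFinite k
  have hc : ringChar k ≠ 2 := fun h => h2 (by
    have := ringChar.Nat.cast_ringChar (R := k)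
    rw [h] at this
    exact_mod_cast this)
  have hd : d ≠ 0 := by
    rintro rfl
    exact hsq (IsSquare.zero)
  have h1 := cnt_twist hc A B d hd
  have h3 := cnt_short hc A B
  rw [quadraticChar_neg_one_iff_not_isSquare.mpr hsq] at h1
  rw [h1, h3, Nat.card_eq_fintype_card]
  ring

/-- The algebra of the Euler factors. -/
theorem factor_algebra (q a T : ℂ) :
    (1 - a * T + q * T ^ 2) * (1 + a * T + q * T ^ 2)
      = 1 - (a ^ 2 - 2 * q) * T ^ 2 + q ^ 2 * (T ^ 2) ^ 2 := by
  ring

end Pool.Agent.MP_0d9be2.H39
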