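import Pool.Agent.Lib.MP_0d9be2_nt.Defs2
import Pool.Agent.Lib.MP_0d9be2_nt.H39.PrimesNF

/-!
# MP_0d9be2_nt, PART 5.2: primes in a quadratic extension `K(√d)`
-/

set_option autoImplicit false

open scoped NumberField Pointwise
open IsDedekindDomain Ideal

namespace Pool.Agent.MP_0d9be2.H39

open Pool.Agent.MP_0d9be2

section

variable {K F : Type} [Field K] [NumberField K] [Field F] [NumberField F] [Algebra K F]

theorem sum_fib (v : HeightOneSpectrum (𝓞 K)) :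
    ∑ w ∈ H15.fib F v, w.asIdeal.ramificationIdx (𝓞 K) * w.asIdeal.inertiaDeg (𝓞 K)
      = Module.finrank K F := by
  classical
  have hfin : (primesOver v.asIdeal (𝓞 F)).Finite := Algebra.QuasiFinite.finite_primesOver _
  let _ : Fintype (v.asIdeal.primesOver (𝓞 F)) := hfin.fintype
  have h1 := Ideal.sum_ramification_inertia_eq_finrank v.asIdeal (𝓞 F)
  have h2 : Module.finrank (𝓞 K) (𝓞 F) = Module.finrank K F :=
    (IsFractionRing.finrank_eq (𝓞 K) K (𝓞 F) F).symm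
  rw [← h2, ← h1]
  refine Finset.sum_bij (fun w hw => ⟨w.asIdeal, w.isPrime, (H15.mem_fib v w).mp hw⟩)
    (fun _ _ => Finset.mem_univ _) ?_ ?_ (fun _ _ => rfl)
  · intro w _ w' _ h
    exact HeightOneSpectrum.ext (congrArg Subtype.val h)
  · rintro ⟨P, hP, hPv⟩ _
    exact ⟨⟨P, hP, Ideal.ne_bot_of_liesOver_of_ne_bot v.ne_bot P⟩, (H15.mem_fib v _).mpr hPv, rfl⟩

theorem fib_nonempty (v : HeightOneSpectrum (𝓞 K)) : (H15.fib F v).Nonempty := by
  obtain ⟨⟨Q, hQp, hQv⟩⟩ := (inferInstance : Nonempty (v.asIdeal.primesOver (𝓞 F)))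
  exact ⟨⟨Q, hQp, Ideal.ne_bot_of_liesOver_of_ne_bot v.ne_bot Q⟩, (H15.mem_fib v _).mpr hQv⟩

theorem term_pos (w : HeightOneSpectrum (𝓞 F)) :
    0 < w.asIdeal.ramificationIdx (𝓞 K) * w.asIdeal.inertiaDeg (𝓞 K) :=
  Nat.mul_pos (Ideal.ramificationIdx_pos _ _) (Ideal.inertiaDeg_pos _ _)

/-- If there are two primes over `v` in a quadratic extension, then both have degree one. -/
theorem fib_pair (h2 : Module.finrank K F = 2) (v : HeightOneSpectrum (𝓞 K))
    (w₁ w₂ : HeightOneSpectrum (𝓞 F)) (h₁ : w₁ ∈ H15.fib F v) (h₂ : w₂ ∈ H15.fib F v)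
    (hne : w₁ ≠ w₂) : (∀ g : HeightOneSpectrum (𝓞 F) → ℂ,
      ∏ w ∈ H15.fib F v, g w = g w₁ * g w₂) ∧ w₁.asIdeal.inertiaDeg (𝓞 K) = 1 ∧
      w₂.asIdeal.inertiaDeg (𝓞 K) = 1 := by
  classical
  have hsum := sum_fib (F := F) v
  rw [h2] at hsum
  have hsub : ({w₁, w₂} : Finset (HeightOneSpectrum (𝓞 F))) ⊆ H15.fib F v := by
    intro w hw
    rw [Finset.mem_insert, Finset.mem_singleton] at hw
    rcases hw with rfl | rfl <;> assumption
  rw [← Finset.sum_sdiff hsub, Finset.sum_pair hne] at hsum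
  have p₁ := term_pos (K := K) w₁
  have p₂ := term_pos (K := K) w₂
  have hz : ∑ w ∈ H15.fib F v \ {w₁, w₂}, w.asIdeal.ramificationIdx (𝓞 K) *
      w.asIdeal.inertiaDeg (𝓞 K) = 0 := by omega
  have t₁ : w₁.asIdeal.ramificationIdx (𝓞 K) * w₁.asIdeal.inertiaDeg (𝓞 K) = 1 := by omega
  have t₂ : w₂.asIdeal.ramificationIdx (𝓞 K) * w₂.asIdeal.inertiaDeg (𝓞 K) = 1 := by omega
  refine ⟨fun g => ?_, Nat.dvd_one.mp ⟨_, by rw [mul_comm]; exact t₁.symm⟩,
    Nat.dvd_one.mp ⟨_, by rw [mul_comm]; exact t₂.symm⟩⟩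
  rw [← Finset.prod_pair hne]
  congr 1
  refine Finset.Subset.antisymm ?_ hsub
  intro w hw
  by_contra hcon
  have hw' : w ∈ H15.fib F v \ {w₁, w₂} := Finset.mem_sdiff.mpr ⟨hw, hcon⟩
  have := Finset.sum_eq_zero_iff.mp hz w hw'
  exact (term_pos (K := K) w).ne' this

/-- If no prime over `v` has degree one, then there is one prime of degree two. -/
theorem fib_single (h2 : Module.finrank K F = 2) (v : HeightOneSpectrum (𝓞 K))
    (hdeg : ∀ w ∈ H15.fib F v, w.asIdeal.inertiaDeg (𝓞 K) ≠ 1) :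
    ∃ w, H15.fib F v = {w} ∧ w.asIdeal.inertiaDeg (𝓞 K) = 2 := by
  classical
  have hsum := sum_fib (F := F) v
  rw [h2] at hsum
  obtain ⟨w, hw⟩ := fib_nonempty (F := F) v
  have hge : ∀ w' ∈ H15.fib F v, 2 ≤ w'.asIdeal.ramificationIdx (𝓞 K) *
      w'.asIdeal.inertiaDeg (𝓞 K) := by
    intro w' hw'
    have h3 : 0 < w'.asIdeal.ramificationIdx (𝓞 K) := Ideal.ramificationIdx_pos _ _
    have h4 : 0 < w'.asIdeal.inertiaDeg (𝓞 K) := Ideal.inertiaDeg_pos _ _
    have h5 := hdeg w' hw'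
    calc 2 ≤ w'.asIdeal.inertiaDeg (𝓞 K) := by omega
      _ ≤ _ := Nat.le_mul_of_pos_left _ h3
  have hcard : (H15.fib F v).card * 2 ≤ 2 := by
    have h5 := Finset.card_nsmul_le_sum _ _ _ hge
    rw [hsum, smul_eq_mul] at h5
    exact h5
  have hc1 : (H15.fib F v).card = 1 := by
    have : 0 < (H15.fib F v).card := Finset.card_pos.mpr ⟨w, hw⟩
    omega
  obtain ⟨w₀, hw₀⟩ := Finset.card_eq_one.mp hc1
  refine ⟨w₀, hw₀, ?_⟩
  have h6 := hge w₀ (by rw [hw₀]; exact Finset.mem_singleton_self _)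
  rw [hw₀, Finset.sum_singleton] at hsum
  have h7 := hdeg w₀ (by rw [hw₀]; exact Finset.mem_singleton_self _)
  have h3 : 0 < w₀.asIdeal.ramificationIdx (𝓞 K) := Ideal.ramificationIdx_pos _ _
  have h4 : 0 < w₀.asIdeal.inertiaDeg (𝓞 K) := Ideal.inertiaDeg_pos _ _
  have h8 : w₀.asIdeal.inertiaDeg (𝓞 K) ∣ 2 := ⟨_, by rw [mul_comm]; exact hsum.symm⟩
  rcases (Nat.dvd_prime Nat.prime_two).mp h8 with h9 | h9
  · exact absurd h9 h7
  · exact h9

/-- The residue extension of a prime of degree one is trivial. -/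
theorem surjective_of_deg_one (v : HeightOneSpectrum (𝓞 K)) (w : HeightOneSpectrum (𝓞 F))
    (hw : w.asIdeal.LiesOver v.asIdeal) (hdeg : w.asIdeal.inertiaDeg (𝓞 K) = 1) :
    Function.Surjective (algebraMap (𝓞 K ⧸ v.asIdeal) (𝓞 F ⧸ w.asIdeal)) := by
  have hv : v.asIdeal.IsMaximal := v.isMaximal
  have hw' : w.asIdeal.IsMaximal := w.isMaximal
  rw [Ideal.inertiaDeg_eq_of_isMaximal v.asIdeal w.asIdeal] at hdeg
  let _ : Field (𝓞 K ⧸ v.asIdeal) := Quotient.field v.asIdeal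
  let _ : Field (𝓞 F ⧸ w.asIdeal) := Quotient.field w.asIdeal
  intro y
  obtain ⟨c, hc⟩ := (finrank_eq_one_iff_of_nonzero' (K := 𝓞 K ⧸ v.asIdeal)
    (1 : 𝓞 F ⧸ w.asIdeal) one_ne_zero).mp hdeg y
  exact ⟨c, by rw [← hc, Algebra.smul_def, mul_one]⟩

/-- Splitting of primes in `K(√d)`. -/
theorem split_or_inert (d : 𝓞 K) (h2 : Module.finrank K F = 2)
    (hx : ∃ x : F, x ^ 2 = algebraMap K F (algebraMap (𝓞 K) K d))
    (hd : ¬ ∃ x : K, x ^ 2 = algebraMap (𝓞 K) K d) (v : HeightOneSpectrum (𝓞 K))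
    (h2v : (2 : 𝓞 K) ∉ v.asIdeal) (hdv : d ∉ v.asIdeal) :
    (IsSquare (Ideal.Quotient.mk v.asIdeal d) ∧ ∃ w₁ w₂ : HeightOneSpectrum (𝓞 F),
      w₁ ∈ H15.fib F v ∧ w₂ ∈ H15.fib F v ∧ (∀ g : HeightOneSpectrum (𝓞 F) → ℂ,
      ∏ w ∈ H15.fib F v, g w = g w₁ * g w₂) ∧ w₁.asIdeal.inertiaDeg (𝓞 K) = 1 ∧
        w₂.asIdeal.inertiaDeg (𝓞 K) = 1) ∨
    (¬ IsSquare (Ideal.Quotient.mk v.asIdeal d) ∧ ∃ w : HeightOneSpectrum (𝓞 F),
      H15.fib F v = {w} ∧ w.asIdeal.inertiaDeg (𝓞 K) = 2) := by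
  classical
  obtain ⟨x, hx⟩ := hx
  have hint : IsIntegral ℤ x := by
    have h3 : IsIntegral ℤ (x ^ 2) := by
      rw [hx]
      exact (d.isIntegral_coe.map (algebraMap K F).toIntAlgHom : _)
    exact IsIntegral.of_pow two_pos h3
  set x₀ : 𝓞 F := ⟨x, hint⟩ with hx₀
  have hx₀2 : x₀ ^ 2 = algebraMap (𝓞 K) (𝓞 F) d := by
    apply NumberField.RingOfIntegers.ext
    exact hx
  by_cases hsq : IsSquare (Ideal.Quotient.mk v.asIdeal d)
  · left
    refine ⟨hsq, ?_⟩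
    obtain ⟨c', hc'⟩ := hsq
    obtain ⟨c, rfl⟩ := Ideal.Quotient.mk_surjective c'
    have hc : d - c * c ∈ v.asIdeal := by
      rw [← Ideal.Quotient.eq, hc', map_mul]
    -- the conjugation
    have hquad : Algebra.IsQuadraticExtension K F := { finrank_eq_two' := h2 }
    have hgal : IsGalois K F := inferInstance
    have hcard : Nat.card Gal(F/K) = 2 := by rw [IsGalois.card_aut_eq_finrank, h2]
    have hσ : ∃ σ : Gal(F/K), σ x ≠ x := by
      by_contra hcon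
      push Not at hcon
      have h4 : x ∈ (⊥ : IntermediateField K F) := (IsGalois.mem_bot_iff_fixed x).mpr hcon
      obtain ⟨y, hy⟩ := IntermediateField.mem_bot.mp h4
      apply hd
      refine ⟨y, (algebraMap K F).injective ?_⟩
      rw [map_pow, hy, hx]
    obtain ⟨σ, hσ⟩ := hσ
    have hσx : σ x = -x := by
      have h5 : (σ x) ^ 2 = x ^ 2 := by
        rw [← map_pow, hx, AlgEquiv.commutes]
      rcases sq_eq_sq_iff_eq_or_eq_neg.mp h5 with h6 | h6
      · exact absurd h6 hσ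
      · exact h6
    have hσx₀ : σ • x₀ = -x₀ := by
      apply NumberField.RingOfIntegers.ext
      exact hσx
    -- two distinct primes
    obtain ⟨w, hw⟩ := fib_nonempty (F := F) v
    have hwv := (H15.mem_fib v w).mp hw
    have hmem : ∀ a : 𝓞 K, algebraMap (𝓞 K) (𝓞 F) a ∈ w.asIdeal ↔ a ∈ v.asIdeal := by
      intro a
      rw [hwv.over, Ideal.mem_comap]
    let w' : HeightOneSpectrum (𝓞 F) := ⟨σ • w.asIdeal, inferInstance, by
      have : (σ • w.asIdeal).LiesOver v.asIdeal := inferInstance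
      exact Ideal.ne_bot_of_liesOver_of_ne_bot v.ne_bot _⟩
    have hw'v : w'.asIdeal.LiesOver v.asIdeal := (inferInstance : (σ • w.asIdeal).LiesOver v.asIdeal)
    have hmem' : ∀ a : 𝓞 K, algebraMap (𝓞 K) (𝓞 F) a ∈ w'.asIdeal ↔ a ∈ v.asIdeal := by
      intro a
      rw [hw'v.over, Ideal.mem_comap]
    have hprod : (x₀ - algebraMap (𝓞 K) (𝓞 F) c) * (x₀ + algebraMap (𝓞 K) (𝓞 F) c) ∈
        w.asIdeal := by
      have : (x₀ - algebraMap (𝓞 K) (𝓞 F) c) * (x₀ + algebraMap (𝓞 K) (𝓞 F) c)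
          = algebraMap (𝓞 K) (𝓞 F) (d - c * c) := by
        rw [map_sub, map_mul, ← hx₀2]
        ring
      rw [this, hmem]
      exact hc
    have hsm : ∀ y : 𝓞 F, y ∈ w.asIdeal → σ • y ∈ w'.asIdeal := fun y hy =>
      Ideal.smul_mem_pointwise_smul σ y w.asIdeal hy
    have hne : w ≠ w' := by
      intro heq
      have h2c : algebraMap (𝓞 K) (𝓞 F) (2 * c) ∈ w.asIdeal := by
        rcases w.isPrime.mem_or_mem hprod with h7 | h7
        · have h8 := hsm _ h7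
          rw [smul_sub, hσx₀, smul_algebraMap, ← heq] at h8
          have h9 := w.asIdeal.neg_mem (w.asIdeal.add_mem h7 h8)
          have h10 : -(x₀ - algebraMap (𝓞 K) (𝓞 F) c + (-x₀ - algebraMap (𝓞 K) (𝓞 F) c))
              = algebraMap (𝓞 K) (𝓞 F) (2 * c) := by
            rw [map_mul, map_ofNat]
            ring
          rwa [h10] at h9
        · have h8 := hsm _ h7
          rw [smul_add, hσx₀, smul_algebraMap, ← heq] at h8
          have h9 := w.asIdeal.add_mem h7 h8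
          have h10 : x₀ + algebraMap (𝓞 K) (𝓞 F) c + (-x₀ + algebraMap (𝓞 K) (𝓞 F) c)
              = algebraMap (𝓞 K) (𝓞 F) (2 * c) := by
            rw [map_mul, map_ofNat]
            ring
          rwa [h10] at h9
      rw [hmem] at h2c
      rcases v.isPrime.mem_or_mem h2c with h11 | h11
      · exact h2v h11
      · apply hdv
        have h12 := v.asIdeal.add_mem hc (v.asIdeal.mul_mem_left c h11)
        rwa [sub_add_cancel] at h12
    refine ⟨w, w', hw, (H15.mem_fib v w').mpr hw'v, ?_⟩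
    exact fib_pair h2 v w w' hw ((H15.mem_fib v w').mpr hw'v) hne
  · right
    refine ⟨hsq, ?_⟩
    refine fib_single h2 v fun w hw hdeg => hsq ?_
    have hwv := (H15.mem_fib v w).mp hw
    obtain ⟨c', hc'⟩ := surjective_of_deg_one v w hwv hdeg (Ideal.Quotient.mk w.asIdeal x₀)
    obtain ⟨c, rfl⟩ := Ideal.Quotient.mk_surjective c'
    refine ⟨Ideal.Quotient.mk v.asIdeal c, ?_⟩
    rw [← map_mul, Ideal.Quotient.eq]
    have h14 : Ideal.Quotient.mk w.asIdeal (algebraMap (𝓞 K) (𝓞 F) c)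
        = Ideal.Quotient.mk w.asIdeal x₀ := hc'
    have h13 : algebraMap (𝓞 K) (𝓞 F) (d - c * c) ∈ w.asIdeal := by
      rw [← Ideal.Quotient.eq_zero_iff_mem, map_sub, map_mul, ← hx₀2, map_sub, map_pow, map_mul,
        h14]
      ring
    rwa [hwv.over, Ideal.mem_comap]

end

end Pool.Agent.MP_0d9be2.H39
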