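import Pool.Agent.Lib.MP_0d9be2_nt.H39.TwistCount
import Pool.Agent.Lib.MP_0d9be2_nt.H39.TwistSplit
import Pool.Agent.Lib.MP_0d9be2_nt.H7.Curves

/-!
# MP_0d9be2_nt, PART 5.2: the local identity for quadratic twists
-/

set_option autoImplicit false

open scoped NumberField
open IsDedekindDomain

namespace Pool.Agent.MP_0d9be2.H39

open Pool.Agent.MP_0d9be2

/-- A minimal model at a prime of good reduction of a given model. -/
theorem good_model (hC : Change_S) {F : Type} [Field F] [NumberField F] {E : WeierstrassCurve F}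
    [E.IsElliptic] {W W₀ : WeierstrassCurve (𝓞 F)} {w : HeightOneSpectrum (𝓞 F)}
    (hW : IsMinimalAt E W w) (h0 : IsModel E W₀) (hΔ : W₀.Δ ∉ w.asIdeal) :
    W.Δ ∉ w.asIdeal ∧ affPts W w = affPts W₀ w := by
  have h2 : W.Δ ∉ w.asIdeal := by
    intro h
    have := hW.2 _ h0 1 (by rwa [pow_one])
    rw [pow_one] at this
    exact hΔ this
  exact ⟨h2, hC F E W W₀ w hW.1 h0 h2 hΔ⟩

theorem factor_good {F : Type} [Field F] [NumberField F] {W : WeierstrassCurve (𝓞 F)}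
    {w : HeightOneSpectrum (𝓞 F)} (h : W.Δ ∉ w.asIdeal) (s : ℂ) :
    factor W w s = (1 - ((Ideal.absNorm w.asIdeal : ℂ) - (affPts W w : ℂ))
      * (Ideal.absNorm w.asIdeal : ℂ) ^ (-s) + (Ideal.absNorm w.asIdeal : ℂ)
        * ((Ideal.absNorm w.asIdeal : ℂ) ^ (-s)) ^ 2)⁻¹ := by
  unfold factor
  rw [if_neg h]
  have : -2 * s = ((2 : ℕ) : ℂ) * (-s) := by
    push_cast
    ring
  rw [this, Complex.cpow_nat_mul]

theorem affPts_eq {K : Type} [Field K] [NumberField K] (W : WeierstrassCurve (𝓞 K))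
    (v : HeightOneSpectrum (𝓞 K)) :
    affPts W v = cnt (W.map (Ideal.Quotient.mk v.asIdeal)) := rfl

theorem map_map_quot {K F : Type} [Field K] [NumberField K] [Field F] [NumberField F] [Algebra K F]
    (W : WeierstrassCurve (𝓞 K)) (v : HeightOneSpectrum (𝓞 K)) (w : HeightOneSpectrum (𝓞 F))
    [w.asIdeal.LiesOver v.asIdeal] :
    (W.map (algebraMap (𝓞 K) (𝓞 F))).map (Ideal.Quotient.mk w.asIdeal)
      = (W.map (Ideal.Quotient.mk v.asIdeal)).map
        (algebraMap (𝓞 K ⧸ v.asIdeal) (𝓞 F ⧸ w.asIdeal)) := by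
  rw [WeierstrassCurve.map_map, WeierstrassCurve.map_map]
  rfl

/-- PART 5.2 -/
theorem localTwist (hC : Change_S) (hS : Same_S) (hQ : Quad_S) : LocalTwist_S := by
  classical
  intro K F _ _ _ _ _ A B d hAB hdeg hx hd
  have hd0 : d ≠ 0 := by
    rintro rfl
    exact hd ⟨0, by simp⟩
  have h20 : (2 : 𝓞 K) ≠ 0 := two_ne_zero
  refine ⟨{v | 2 * d * (4 * A ^ 3 + 27 * B ^ 2) ∈ v.asIdeal},
    H7.finite_dvd (mul_ne_zero (mul_ne_zero h20 hd0) hAB), fun v hv W W' V hW hW' hV s => ?_⟩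
  have hv' : 2 * d * (4 * A ^ 3 + 27 * B ^ 2) ∉ v.asIdeal := hv
  have h2v : (2 : 𝓞 K) ∉ v.asIdeal := fun h => hv' (by
    rw [mul_assoc]; exact v.asIdeal.mul_mem_right _ h)
  have hdv : d ∉ v.asIdeal := fun h => hv' (by
    exact v.asIdeal.mul_mem_right _ (v.asIdeal.mul_mem_left _ h))
  have hABv : 4 * A ^ 3 + 27 * B ^ 2 ∉ v.asIdeal := fun h => hv' (v.asIdeal.mul_mem_left _ h)
  have h16 : (16 : 𝓞 K) ∉ v.asIdeal := fun h => h2v (v.isPrime.mem_of_pow_mem 4 (by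
    have : (2 : 𝓞 K) ^ 4 = 16 := by norm_num
    rw [this]; exact h))
  have hΔ : (short A B).Δ ∉ v.asIdeal := by
    rw [short_disc, neg_mul, neg_mem_iff]
    intro h
    rcases v.isPrime.mem_or_mem h with h | h
    · exact h16 h
    · exact hABv h
  have hΔd : (short (d ^ 2 * A) (d ^ 3 * B)).Δ ∉ v.asIdeal := by
    rw [short_disc]
    have : -16 * (4 * (d ^ 2 * A) ^ 3 + 27 * (d ^ 3 * B) ^ 2)
        = d ^ 6 * (-16 * (4 * A ^ 3 + 27 * B ^ 2)) := by ring
    rw [this, ← short_disc]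
    intro h
    rcases v.isPrime.mem_or_mem h with h | h
    · exact hdv (v.isPrime.mem_of_pow_mem 6 h)
    · exact hΔ h
  -- elliptic curves
  have hne : ∀ (R : Type) [Field R] [NumberField R] (U : WeierstrassCurve (𝓞 R)), U.Δ ≠ 0 →
      (U.map (algebraMap (𝓞 R) R)).IsElliptic := by
    intro R _ _ U hU
    refine ⟨?_⟩
    rw [WeierstrassCurve.map_Δ, isUnit_iff_ne_zero]
    rwa [Ne, FaithfulSMul.algebraMap_eq_zero_iff]
  have hΔ0 : (short A B).Δ ≠ 0 := fun h => hΔ (by rw [h]; exact v.asIdeal.zero_mem)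
  have hΔd0 : (short (d ^ 2 * A) (d ^ 3 * B)).Δ ≠ 0 := fun h => hΔd (by
    rw [h]; exact v.asIdeal.zero_mem)
  have hE := hne K _ hΔ0
  have hE' := hne K _ hΔd0
  have hEF : (((short A B).map (algebraMap (𝓞 K) K)).map (algebraMap K F)).IsElliptic :=
    inferInstance
  have hm : IsModel ((short A B).map (algebraMap (𝓞 K) K)) (short A B) := ⟨1, one_smul _ _⟩
  have hm' : IsModel ((short (d ^ 2 * A) (d ^ 3 * B)).map (algebraMap (𝓞 K) K))
    (short (d ^ 2 * A) (d ^ 3 * B)) := ⟨1, one_smul _ _⟩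
  obtain ⟨g1, c1⟩ := good_model hC hW hm hΔ
  obtain ⟨g2, c2⟩ := good_model hC hW' hm' hΔd
  have hmF := H7.isModel_map (F := F) hm
  have hgood : ∀ w ∈ H15.fib F v, (V w).Δ ∉ w.asIdeal ∧
      affPts (V w) w = affPts ((short A B).map (algebraMap (𝓞 K) (𝓞 F))) w := by
    intro w hw
    refine good_model hC (hV w) hmF ?_
    rw [WeierstrassCurve.map_Δ, H7.mem_of_liesOver v w ((H15.mem_fib v w).mp hw)]
    exact hΔ
  obtain ⟨N, hN⟩ := hS K v (short A B)
  have hself : v.asIdeal.LiesOver v.asIdeal := ⟨by simp [Ideal.under]⟩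
  have hdeg1 : v.asIdeal.inertiaDeg (𝓞 K) = 1 := by
    have h1 := Ideal.inertiaDeg_tower (R := 𝓞 K) (S := 𝓞 K) (T := 𝓞 K) v.asIdeal v.asIdeal
    have h2 : 0 < v.asIdeal.inertiaDeg (𝓞 K) := Ideal.inertiaDeg_pos _ _
    exact (Nat.eq_of_mul_eq_mul_left h2 (by rw [mul_one]; exact h1)).symm
  have hN1 : affPts (short A B) v = N 1 := by
    have h3 : affPts ((short A B).map (algebraMap (𝓞 K) (𝓞 K))) v
        = N (v.asIdeal.inertiaDeg (𝓞 K)) := (hN K v hself).1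
    rw [hdeg1, Algebra.algebraMap_self, WeierstrassCurve.map_id] at h3
    exact h3
  set q : ℕ := Ideal.absNorm v.asIdeal with hq
  rw [factor_good g1, factor_good g2, c1, c2]
  have hA1 : affPts (short A B) v = cnt (short (Ideal.Quotient.mk v.asIdeal A)
      (Ideal.Quotient.mk v.asIdeal B)) := by rw [affPts_eq, short_map]
  have hA2 : affPts (short (d ^ 2 * A) (d ^ 3 * B)) v = cnt (short
      ((Ideal.Quotient.mk v.asIdeal d) ^ 2 * Ideal.Quotient.mk v.asIdeal A)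
      ((Ideal.Quotient.mk v.asIdeal d) ^ 3 * Ideal.Quotient.mk v.asIdeal B)) := by
    rw [affPts_eq, short_map, map_mul, map_mul, map_pow, map_pow]
  have hvm : v.asIdeal.IsMaximal := v.isMaximal
  let _ : Field (𝓞 K ⧸ v.asIdeal) := Ideal.Quotient.field v.asIdeal
  have hfin : Finite (𝓞 K ⧸ v.asIdeal) := Ring.HasFiniteQuotients.finiteQuotient v.ne_bot
  have h2q : (2 : 𝓞 K ⧸ v.asIdeal) ≠ 0 := by
    intro h
    apply h2v
    rw [← Ideal.Quotient.eq_zero_iff_mem, map_ofNat]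
    exact h
  have hdq : (Ideal.Quotient.mk v.asIdeal d) ≠ 0 := by
    intro h
    exact hdv (Ideal.Quotient.eq_zero_iff_mem.mp h)
  rcases split_or_inert d hdeg hx hd v h2v hdv with ⟨hsq, w₁, w₂, hw₁, hw₂, hprod, d₁, d₂⟩ |
    ⟨hsq, w, hw, dw⟩
  · -- split
    rw [hprod, factor_good (hgood w₁ hw₁).1, factor_good (hgood w₂ hw₂).1, (hgood w₁ hw₁).2,
      (hgood w₂ hw₂).2]
    obtain ⟨e1, f1⟩ := hN F w₁ ((H15.mem_fib v w₁).mp hw₁)
    obtain ⟨e2, f2⟩ := hN F w₂ ((H15.mem_fib v w₂).mp hw₂)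
    rw [e1, f1, e2, f2, d₁, d₂, pow_one]
    have h4 : affPts (short (d ^ 2 * A) (d ^ 3 * B)) v = N 1 := by
      rw [hA2, ← hN1, hA1]
      exact cnt_twist_square h2q _ _ _ hdq hsq
    rw [h4, hN1]
  · -- inert
    rw [hw, Finset.prod_singleton]
    have hwf : w ∈ H15.fib F v := by rw [hw]; exact Finset.mem_singleton_self _
    have hwv := (H15.mem_fib v w).mp hwf
    rw [factor_good (hgood w hwf).1, (hgood w hwf).2]
    obtain ⟨-, f1⟩ := hN F w hwv
    have hwm : w.asIdeal.IsMaximal := w.isMaximal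
    let _ : Field (𝓞 F ⧸ w.asIdeal) := Ideal.Quotient.field w.asIdeal
    have hfinw : Finite (𝓞 F ⧸ w.asIdeal) := Ring.HasFiniteQuotients.finiteQuotient w.ne_bot
    have hE2 : ((short A B).map (Ideal.Quotient.mk v.asIdeal)).IsElliptic := by
      refine ⟨?_⟩
      rw [WeierstrassCurve.map_Δ, isUnit_iff_ne_zero]
      intro h
      exact hΔ (Ideal.Quotient.eq_zero_iff_mem.mp h)
    have hfr : Module.finrank (𝓞 K ⧸ v.asIdeal) (𝓞 F ⧸ w.asIdeal) = 2 := by
      rw [← dw, Ideal.inertiaDeg_eq_of_isMaximal v.asIdeal w.asIdeal]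
    have h5 := hQ (𝓞 K ⧸ v.asIdeal) (𝓞 F ⧸ w.asIdeal)
      ((short A B).map (Ideal.Quotient.mk v.asIdeal)) h2q hfr
    have h6 : affPts ((short A B).map (algebraMap (𝓞 K) (𝓞 F))) w
        = cnt (((short A B).map (Ideal.Quotient.mk v.asIdeal)).map
          (algebraMap (𝓞 K ⧸ v.asIdeal) (𝓞 F ⧸ w.asIdeal))) := by
      rw [affPts_eq, map_map_quot (short A B) v w]
    rw [← h6, ← affPts_eq] at h5
    have hcard : Nat.card (𝓞 K ⧸ v.asIdeal) = q := by
      rw [hq, Ideal.absNorm_apply, Submodule.cardQuot_apply]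
    rw [hcard] at h5
    have h7 := cnt_twist_nonsquare h2q (Ideal.Quotient.mk v.asIdeal A)
      (Ideal.Quotient.mk v.asIdeal B) _ hsq
    rw [← hA1, ← hA2, hcard] at h7
    rw [f1, dw]
    have hcp : (((q ^ 2 : ℕ) : ℂ)) ^ (-s) = ((q : ℂ) ^ (-s)) ^ 2 := by
      rw [sq, Nat.cast_mul, Complex.natCast_mul_natCast_cpow, sq]
    rw [hcp, ← mul_inv]
    congr 1
    have h5' : (affPts ((short A B).map (algebraMap (𝓞 K) (𝓞 F))) w : ℂ)
        = ((affPts (short A B) v : ℂ) + 1) * (2 * (q : ℂ) + 2 - ((affPts (short A B) v : ℂ) + 1))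
          - 1 := by
      rw [eq_sub_iff_add_eq]
      exact_mod_cast h5
    have h7' : (affPts (short (d ^ 2 * A) (d ^ 3 * B)) v : ℂ) = 2 * q - affPts (short A B) v := by
      rw [eq_sub_iff_add_eq]
      exact_mod_cast h7
    rw [h5', h7']
    push_cast
    ring

end Pool.Agent.MP_0d9be2.H39
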